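import Pool.Agent.H342.LD.Exc

/-! Helper file (helper342): conjugates by short words, nilpotent quotients. -/

set_option autoImplicit false

namespace Pool.Agent.H342.LD

open Subgroup Polynomial
open Pool.Agent.H785R3.GrowthA
open scoped Pointwise commutatorElement IsMulCommutative

universe u

variable {G : Type u} [Group G]

lemma cj_mono (X : Set G) (c : G) {i j : ℕ} (h : i ≤ j) : cj X c i ⊆ cj X c j := by
  rintro _ ⟨l, hl, w, hw, rfl⟩
  exact ⟨l, hl.trans h, w, hw, rfl⟩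

lemma self_mem_cj (X : Set G) (c : G) (j : ℕ) : c ∈ cj X c j :=
  ⟨0, Nat.zero_le _, 1, by simp, by simp⟩

/-- conjugation by a letter -/
lemma conj_closure_cj {X : Set G} {c : G} {j : ℕ} {x : G} (hx : x ∈ X) {p : G}
    (hp : p ∈ closure (cj X c j)) : x * p * x⁻¹ ∈ closure (cj X c (j + 1)) := by
  have h1 := mem_map_of_mem (MulAut.conj x).toMonoidHom hp
  rw [MonoidHom.map_closure] at h1
  refine Subgroup.closure_mono ?_ h1
  rintro _ ⟨_, ⟨l, hl, w, hw, rfl⟩, rfl⟩
  refine ⟨l + 1, by omega, x * w, ?_, ?_⟩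
  · rw [pow_succ']; exact Set.mul_mem_mul hx hw
  · show x * (w * c * w⁻¹) * x⁻¹ = x * w * c * (x * w)⁻¹
    group

lemma conj_mem_nil {X : Set G} {c : G} (hc : c ∈ gam G 1) : ∀ (j n : ℕ), ∀ w ∈ X ^ n,
    w * c * w⁻¹ ∈ closure (cj X c j) ⊔ gam G (j + 2)
  | 0, n, w, _ => by
    have e : w * c * w⁻¹ = c * ⁅c⁻¹, w⁆ := by rw [commutatorElement_def]; group
    rw [e]
    exact mul_mem (mem_sup_left (subset_closure (self_mem_cj X c 0)))
      (mem_sup_right (gam_comm (inv_mem hc) w))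
  | j + 1, 0, w, hw => by
    rw [pow_zero, Set.mem_one] at hw
    subst hw
    rw [one_mul, inv_one, mul_one]
    exact mem_sup_left (subset_closure (self_mem_cj X c _))
  | j + 1, n + 1, w, hw => by
    rw [pow_succ'] at hw
    obtain ⟨x, hx, w', hw', rfl⟩ := hw
    have h1 := conj_mem_nil hc (j + 1) n w' hw'
    have h2 := conj_mem_nil hc j n w' hw'
    obtain ⟨p, hp, g, hg, hpg⟩ := Subgroup.mem_sup_of_normal_right.1 h2
    have e : x * w' * c * (x * w')⁻¹ = (x * p * x⁻¹) * g * ⁅g⁻¹, x⁆ := by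
      have : x * w' * c * (x * w')⁻¹ = x * (w' * c * w'⁻¹) * x⁻¹ := by group
      rw [this, ← hpg, commutatorElement_def]; group
    have hg' : g ∈ closure (cj X c (j + 1)) ⊔ gam G (j + 1 + 2) := by
      have : g = p⁻¹ * (w' * c * w'⁻¹) := by rw [← hpg]; group
      rw [this]
      exact mul_mem (inv_mem (mem_sup_left (Subgroup.closure_mono (cj_mono X c (Nat.le_succ j)) hp)))
        h1
    show x * w' * c * (x * w')⁻¹ ∈ _
    rw [e]
    exact mul_mem (mul_mem (mem_sup_left (conj_closure_cj hx hp)) hg')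
      (mem_sup_right (gam_comm (inv_mem hg) x))

/-- a nilpotent quotient -/
theorem GenBd_class {C : Subgroup G} {k : ℕ} (hk : 1 ≤ k) (h : gam G k ≤ C) : GenBd C (k - 2) := by
  intro X c hc n w hw
  rcases Nat.lt_or_ge k 2 with h2 | h2
  · have : k = 1 := by omega
    subst this
    exact mem_sup_right (h ((inferInstance : (gam G 1).Normal).conj_mem _ hc w))
  · have h3 := conj_mem_nil (X := X) hc (k - 2) n w hw
    rw [Nat.sub_add_cancel h2] at h3
    exact sup_le_sup_left h _ h3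

/-- three subgroups lemma modulo a normal subgroup -/
lemma three_sub {H₁ H₂ H₃ N : Subgroup G} [N.Normal] (h1 : ⁅⁅H₂, H₃⁆, H₁⁆ ≤ N)
    (h2 : ⁅⁅H₃, H₁⁆, H₂⁆ ≤ N) : ⁅⁅H₁, H₂⁆, H₃⁆ ≤ N := by
  have key : ∀ K : Subgroup G, K.map (QuotientGroup.mk' N) = ⊥ ↔ K ≤ N := by
    intro K
    rw [Subgroup.map_eq_bot_iff, QuotientGroup.ker_mk']
  rw [← key] at h1 h2 ⊢
  rw [Subgroup.map_commutator, Subgroup.map_commutator] at h1 h2 ⊢
  exact commutator_commutator_eq_bot_of_rotate h1 h2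

/-- the lower central series is strongly central -/
lemma comm_gam : ∀ n m : ℕ, ⁅gam G m, gam G n⁆ ≤ gam G (m + n + 1)
  | 0, m => le_rfl
  | n + 1, m => by
    have e : gam G (n + 1) = ⁅gam G n, ⊤⁆ := rfl
    rw [e, commutator_comm]
    refine three_sub ?_ ?_
    · have e2 : ⁅(⊤ : Subgroup G), gam G m⁆ = gam G (m + 1) := by rw [commutator_comm]; rfl
      rw [e2]
      have := comm_gam n (m + 1)
      rwa [show m + 1 + n + 1 = m + (n + 1) + 1 by ring] at this
    · exact commutator_mono (comm_gam n m) le_rfl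

lemma der_le : ∀ i : ℕ, derivedSeries G i ≤ gam G (2 ^ i - 1)
  | 0 => le_top
  | i + 1 => by
    rw [derivedSeries_succ]
    refine (commutator_mono (der_le i) (der_le i)).trans ((comm_gam _ _).trans ?_)
    have h : 2 ^ i - 1 + (2 ^ i - 1) + 1 = 2 ^ (i + 1) - 1 := by
      have : 1 ≤ 2 ^ i := Nat.one_le_two_pow
      rw [pow_succ]; omega
    rw [h]

end Pool.Agent.H342.LD
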