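import Pool.Agent.H342.LD.Core

/-! Helper file (helper342): the chain of commutators. -/

set_option autoImplicit false

namespace Pool.Agent.H342.LD

open Subgroup Polynomial
open Pool.Agent.H785R3.GrowthA
open scoped Pointwise commutatorElement IsMulCommutative

universe u

section Gen

variable {G : Type u} [Group G]

/-- the conjugates of `c` by words of length at most `κ` in `X` -/
def cj (X : Set G) (c : G) (κ : ℕ) : Set G := {g | ∃ j ≤ κ, ∃ w ∈ X ^ j, g = w * c * w⁻¹}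

/-- Modulo `C`, all conjugates of `c` by words in `X` are in the subgroup generated by the
conjugates by the words of length at most `κ`. -/
def GenBd (C : Subgroup G) (κ : ℕ) : Prop :=
  ∀ (X : Set G), ∀ c ∈ gam G 1, ∀ n : ℕ, ∀ w ∈ X ^ n, w * c * w⁻¹ ∈ closure (cj X c κ) ⊔ C

lemma GenBd.mono {C C' : Subgroup G} {κ : ℕ} (h : GenBd C κ) (hC : C ≤ C') : GenBd C' κ :=
  fun X c hc n w hw => sup_le_sup_left hC _ (h X c hc n w hw)

lemma mem_pow_of_closure {S : Set G} (hsym : S⁻¹ = S) {g : G} (hg : g ∈ closure S) :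
    ∃ n : ℕ, g ∈ S ^ n := by
  induction hg using Subgroup.closure_induction with
  | mem x hx => exact ⟨1, by rw [pow_one]; exact hx⟩
  | one => exact ⟨0, by simp⟩
  | mul x y _ _ hx hy =>
    obtain ⟨n, hn⟩ := hx
    obtain ⟨m, hm⟩ := hy
    exact ⟨n + m, mul_mem_pow hn hm rfl⟩
  | inv x _ hx =>
    obtain ⟨n, hn⟩ := hx
    exact ⟨n, inv_mem_pow hsym n hn⟩

lemma GenBd.window {C : Subgroup G} {κ : ℕ} (h : GenBd C κ) (s : G) {c : G} (hc : c ∈ gam G 1) :
    s ^ (κ + 1) * c * (s ^ (κ + 1))⁻¹ ∈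
      closure ((fun i : ℕ => s ^ i * c * (s ^ i)⁻¹) '' Set.Iio (κ + 1)) ⊔ C := by
  have h1 := h {s} c hc (κ + 1) (s ^ (κ + 1)) (by rw [Set.singleton_pow]; rfl)
  have h2 : cj {s} c κ = (fun i : ℕ => s ^ i * c * (s ^ i)⁻¹) '' Set.Iio (κ + 1) := by
    ext g
    constructor
    · rintro ⟨j, hj, w, hw, rfl⟩
      rw [Set.singleton_pow, Set.mem_singleton_iff] at hw
      subst hw
      exact ⟨j, Nat.lt_succ_of_le hj, rfl⟩
    · rintro ⟨j, hj, rfl⟩
      exact ⟨j, Nat.le_of_lt_succ hj, s ^ j, by rw [Set.singleton_pow]; rfl, rfl⟩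
  rw [h2] at h1
  exact h1

end Gen

section Setup

variable {G : Type u} [Group G] (A : Subgroup G) [A.Normal] [IsMulCommutative A]

/-- the affine action attached to a module that is not virtually unipotent -/
theorem setup {S : Set G} (hfin : S.Finite) (hgen : closure S = ⊤)
    [Module.Finite ℤ (Additive A)] [hf1 : Finite (gam (G ⧸ A) 1)]
    (hU : ¬ UU (H746UG.th A) ⊥) :
    ∃ (V : Submodule ℤ (Additive A)) (ρ : G →* Module.End ℤ (Additive A ⧸ V))
      (b : G → (Additive A ⧸ V)) (s : G) (m : ℕ), s ∈ S ∧ 0 < m ∧ (∀ a ∈ A, ρ a = 1) ∧ Cr ρ b ∧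
      b s = 0 ∧ (∀ v, v ≠ 0 → ¬ QU ρ s v) ∧ (∀ g, ρ (s ^ m) * ρ g = ρ g * ρ (s ^ m)) ∧
      (∃ t ∈ S, b t ≠ 0) ∧ (∀ x, ∃ g, b g = ρ (s ^ m) x - x) := by
  classical
  have hnoeth : IsNoetherian ℤ (Additive A) := inferInstance
  obtain ⟨V, hV, hM', hJN⟩ := exists_jn (H746UG.th A) hU
  set ρ := quotAct (H746UG.th A) V hV with hρdef
  have hAker : ∀ a ∈ A, ρ a = 1 := by
    intro a ha
    apply LinearMap.ext
    intro x
    obtain ⟨x, rfl⟩ := Submodule.Quotient.mk_surjective V x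
    show V.mkQ (H746UG.th A a x) = _
    rw [H746UG.th_of_mem ha]; rfl
  -- the faithful quotient has a finite derived subgroup
  have hfk : Finite (gam (G ⧸ ρ.ker) 1) := by
    let φ : (G ⧸ A) →* (G ⧸ ρ.ker) := QuotientGroup.lift A (QuotientGroup.mk' ρ.ker)
      (fun a ha => (QuotientGroup.eq_one_iff a).2 (hAker a ha))
    have hφ : Function.Surjective φ := by
      intro x
      obtain ⟨x, rfl⟩ := QuotientGroup.mk'_surjective _ x
      exact ⟨QuotientGroup.mk x, rfl⟩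
    rw [gam_map hφ 1]
    exact Set.Finite.image _ (Set.toFinite _)
  obtain ⟨s, hs, hyp⟩ := exists_hyp ρ hM' hJN hfin hgen
  -- a central power
  obtain ⟨m, hm, hcen⟩ := pow_central (Φ := gam (G ⧸ A) 1)
    (fun a c => gam_comm (n := 0) (mem_top a) c) (QuotientGroup.mk' A s)
  have hz : ∀ g : G, s ^ m * g * (s ^ m)⁻¹ * g⁻¹ ∈ A := by
    intro g
    rw [mem_center_iff] at hcen
    have h1 := hcen (QuotientGroup.mk' A g)
    rw [← map_pow, ← map_mul, ← map_mul] at h1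
    have h2 := QuotientGroup.eq.1 h1.symm
    have h3 := ‹A.Normal›.conj_mem _ h2 (s ^ m * g)
    have h4 : s ^ m * g * ((s ^ m * g)⁻¹ * (g * s ^ m)) * (s ^ m * g)⁻¹ =
        (s ^ m * g * (s ^ m)⁻¹ * g⁻¹)⁻¹ := by group
    rw [h4] at h3
    exact A.inv_mem_iff.1 h3
  let b : G → (Additive A ⧸ V) := fun g => V.mkQ (H746UG.el A _ (hz g))
  have hb : Cr ρ b := by
    intro g h
    show V.mkQ _ = V.mkQ _ + V.mkQ (H746UG.th A g _)
    rw [← map_add]
    congr 1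
    apply H746UG.val_inj
    rw [H746UG.val_add, H746UG.val_th, H746UG.val_el, H746UG.val_el, H746UG.val_el]
    group
  have hbA : ∀ a : Additive A, b (H746UG.val A a) = ρ (s ^ m) (V.mkQ a) - V.mkQ a := by
    intro a
    show V.mkQ _ = V.mkQ (H746UG.th A (s ^ m) a) - V.mkQ a
    rw [← map_sub]
    congr 1
    apply H746UG.val_inj
    rw [H746UG.val_sub, H746UG.val_th, H746UG.val_el]
  have hbs : b s = 0 := by
    show V.mkQ _ = 0
    have : H746UG.el A _ (hz s) = 0 := by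
      apply H746UG.val_inj
      rw [H746UG.val_el, H746UG.val_zero, ← pow_succ, mul_assoc, ← mul_inv_rev, ← pow_succ',
        mul_inv_cancel]
    rw [this, map_zero]
  -- a generator that moves `0`
  have ht : ∃ t ∈ S, b t ≠ 0 := by
    by_contra hcon
    push Not at hcon
    have h1 : (⊤ : Subgroup G) ≤ hb.zer := by
      rw [← hgen, closure_le]
      exact fun t ht => hcon t ht
    apply hM'
    refine ⟨⊤, inferInstance, 0, ?_⟩
    intro x _
    obtain ⟨a, rfl⟩ := Submodule.Quotient.mk_surjective V x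
    rw [Submodule.mem_bot]
    have h2 : b (H746UG.val A a) = 0 := h1 (mem_top _)
    rw [hbA, sub_eq_zero] at h2
    exact hyp_pow hyp m hm _ h2
  refine ⟨V, ρ, b, s, m, hs, hm, hAker, hb, hbs, hyp, ?_, ht, ?_⟩
  · intro g
    rw [← map_mul, ← map_mul]
    have h1 : s ^ m * g = (s ^ m * g * (s ^ m)⁻¹ * g⁻¹) * (g * s ^ m) := by group
    rw [h1, map_mul ρ _ (g * s ^ m), hAker _ (hz g), one_mul]
  · intro x
    obtain ⟨a, rfl⟩ := Submodule.Quotient.mk_surjective V x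
    exact ⟨_, hbA a⟩

end Setup

section Chain

variable {G : Type u} {M : Type*} [Group G] [AddCommGroup M] {ρ : G →* Module.End ℤ M} {b : G → M}

/-- some conjugate by a short word moves `0` -/
theorem conj_move (hb : Cr ρ b) {S : Set G} (hgen : closure S = ⊤) (hsym : S⁻¹ = S)
    {s : G} {m : ℕ} (hm : 0 < m) (hyp : ∀ v, v ≠ 0 → ¬ QU ρ s v)
    (hcomm : ∀ g, ρ (s ^ m) * ρ g = ρ g * ρ (s ^ m)) (hfull : ∀ x, ∃ g, b g = ρ (s ^ m) x - x)
    {A : Subgroup G} (hA : ∀ a ∈ A, ρ a = 1) {κ : ℕ} (hκ : GenBd A κ) {d : G} (hd : d ∈ gam G 1)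
    (h : b d ≠ 0 ∨ ρ d ≠ 1) : ∃ j ≤ κ + 1, ∃ w ∈ S ^ j, b (w⁻¹ * d * w) ≠ 0 := by
  by_contra hcon
  push Not at hcon
  have hbd : b d = 0 := by
    have := hcon 0 (Nat.zero_le _) 1 (by simp)
    simpa using this
  have hρd : ρ d ≠ 1 := by
    rcases h with h | h
    · exact absurd hbd h
    · exact h
  apply hρd
  -- the short conjugates fix `b x`
  have h1 : ∀ x ∈ S, ∀ g ∈ cj S d κ, ρ g (b x) = b x := by
    rintro x hx _ ⟨j, hj, w, hw, rfl⟩
    have hw' : w⁻¹ ∈ S ^ j := inv_mem_pow hsym j hw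
    have e1 : b (w * d * w⁻¹) = 0 := by
      have := hcon j (by omega) w⁻¹ hw'
      rwa [inv_inv] at this
    have e2 : b ((w⁻¹ * x)⁻¹ * d * (w⁻¹ * x)) = 0 := by
      refine hcon (j + 1) (by omega) (w⁻¹ * x) ?_
      rw [pow_succ]; exact Set.mul_mem_mul hw' hx
    have e3 : (w⁻¹ * x)⁻¹ * d * (w⁻¹ * x) = x⁻¹ * ((w * d * w⁻¹) * x) := by group
    rw [e3, hb, hb, e1, zero_add, hb.inv, neg_add_eq_zero] at e2
    exact (rho_inj' x⁻¹ e2).symm
  -- all conjugates fix `b x`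
  have h2 : ∀ x ∈ S, ∀ g : G, ρ (g * d * g⁻¹) (b x) = b x := by
    intro x hx g
    obtain ⟨n, hn⟩ := mem_pow_of_closure hsym (by rw [hgen]; exact mem_top g : g ∈ closure S)
    let St : Subgroup G :=
      { carrier := {r | ρ r (b x) = b x}
        mul_mem' := by
          intro r s hr hs
          show ρ (r * s) (b x) = b x
          rw [rho_mul_apply, show ρ s (b x) = b x from hs, show ρ r (b x) = b x from hr]
        one_mem' := by show ρ 1 (b x) = b x; rw [map_one]; rfl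
        inv_mem' := by
          intro r hr
          show ρ r⁻¹ (b x) = b x
          have hr' : ρ r (b x) = b x := hr
          conv_lhs => rw [← hr']
          rw [rho_inv_apply] }
    have h3 : closure (cj S d κ) ⊔ A ≤ St := by
      refine sup_le ((closure_le _).2 (fun y hy => h1 x hx y hy)) ?_
      intro a ha
      show ρ a (b x) = b x
      rw [hA a ha]; rfl
    exact h3 (hκ S d hd n g hn)
  -- all conjugates fix `b g`
  have h4 : ∀ g : G, ∀ h : G, ρ (h * d * h⁻¹) (b g) = b g := by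
    let St : Subgroup G :=
      { carrier := {r | ∀ h : G, ρ (h * d * h⁻¹) (b r) = b r}
        mul_mem' := by
          intro r s hr hs h
          rw [hb, map_add, hr h, ← rho_mul_apply]
          have e : h * d * h⁻¹ * r = r * ((r⁻¹ * h) * d * (r⁻¹ * h)⁻¹) := by group
          rw [e, rho_mul_apply, hs (r⁻¹ * h)]
        one_mem' := by
          intro h
          rw [hb.one, map_zero]
        inv_mem' := by
          intro r hr h
          rw [hb.inv, map_neg, ← rho_mul_apply]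
          have e : h * d * h⁻¹ * r⁻¹ = r⁻¹ * ((r * h) * d * (r * h)⁻¹) := by group
          rw [e, rho_mul_apply, hr (r * h)] }
    have h5 : (⊤ : Subgroup G) ≤ St := by
      rw [← hgen, closure_le]
      intro x hx h
      exact h2 x hx h
    exact fun g => h5 (mem_top g)
  apply LinearMap.ext
  intro x
  obtain ⟨g, hg⟩ := hfull x
  have h6 := h4 g 1
  rw [one_mul, inv_one, mul_one, hg, map_sub, ← Module.End.mul_apply, ← hcomm,
    Module.End.mul_apply] at h6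
  have h7 : ρ (s ^ m) (ρ d x - x) = ρ d x - x := by
    rw [map_sub]
    rw [sub_eq_sub_iff_add_eq_add] at h6 ⊢
    rw [h6, add_comm]
  have h8 := hyp_pow hyp m hm _ h7
  rw [sub_eq_zero] at h8
  rw [h8]; rfl

/-- one step of the chain -/
theorem step [Module.Finite ℤ M] (hb : Cr ρ b) {S : Set G} (hfin : S.Finite) (hsym : S⁻¹ = S)
    {s : G} (hs : s ∈ S) (hbs : b s = 0) (hyp : ∀ v, v ≠ 0 → ¬ QU ρ s v)
    {A : Subgroup G} (hA : ∀ a ∈ A, ρ a = 1) [hf1 : A.Normal] [hf2 : Finite (gam (G ⧸ A) 1)]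
    {κ : ℕ} (hκ : GenBd A κ) {n : ℕ} {c : G} (hcS : c ∈ S ^ n) (hc : c ∈ gam G 1) (hbc : b c ≠ 0)
    (hn : n % 2 = 0) :
    Dig S (n + 1) ∨ ∃ l ≤ κ + 1,
      b (c * (s ^ l * c * (s ^ l)⁻¹) * c⁻¹ * (s ^ l * c * (s ^ l)⁻¹)⁻¹) ≠ 0 ∨
      ρ (c * (s ^ l * c * (s ^ l)⁻¹) * c⁻¹ * (s ^ l * c * (s ^ l)⁻¹)⁻¹) ≠ 1 := by
  by_contra hcon
  push Not at hcon
  obtain ⟨hD, hcon⟩ := hcon
  apply hD
  -- the linear parts
  let π : G →* (Module.End ℤ M)ˣ := MonoidHom.toHomUnits ρ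
  let ρq : (Module.End ℤ M)ˣ →* Module.End ℤ M := Units.coeHom _
  have hρ : ∀ g, ρ g = ρq (π g) := fun g => rfl
  have hπ1 : ∀ g, ρ g = 1 → π g = 1 := fun g hg => Units.ext hg
  have hπA : ∀ a ∈ A, π a = 1 := fun a ha => hπ1 a (hA a ha)
  have hygam : ∀ i : ℕ, s ^ i * c * (s ^ i)⁻¹ ∈ gam G 1 := fun i =>
    (inferInstance : (gam G 1).Normal).conj_mem _ hc _
  have hbase : ∀ l ≤ κ + 1,
      b (c * (s ^ l * c * (s ^ l)⁻¹)) = b (s ^ l * c * (s ^ l)⁻¹ * c) ∧
      π (c * (s ^ l * c * (s ^ l)⁻¹)) = π (s ^ l * c * (s ^ l)⁻¹ * c) := by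
    intro l hl
    obtain ⟨h1, h2⟩ := hcon l hl
    have e : c * (s ^ l * c * (s ^ l)⁻¹) =
        (c * (s ^ l * c * (s ^ l)⁻¹) * c⁻¹ * (s ^ l * c * (s ^ l)⁻¹)⁻¹) *
          (s ^ l * c * (s ^ l)⁻¹ * c) := by group
    constructor
    · conv_lhs => rw [e]
      rw [hb, h1, h2, zero_add]; rfl
    · conv_lhs => rw [e]
      rw [map_mul π, hπ1 _ h2, one_mul]
  have hcomm : ∀ i ≤ κ + 1, ∀ j ≤ κ + 1,
      b (s ^ i * c * (s ^ i)⁻¹ * (s ^ j * c * (s ^ j)⁻¹)) =
        b (s ^ j * c * (s ^ j)⁻¹ * (s ^ i * c * (s ^ i)⁻¹)) ∧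
      π (s ^ i * c * (s ^ i)⁻¹ * (s ^ j * c * (s ^ j)⁻¹)) =
        π (s ^ j * c * (s ^ j)⁻¹ * (s ^ i * c * (s ^ i)⁻¹)) := by
    have key : ∀ i l : ℕ, l ≤ κ + 1 →
        b (s ^ i * c * (s ^ i)⁻¹ * (s ^ (i + l) * c * (s ^ (i + l))⁻¹)) =
          b (s ^ (i + l) * c * (s ^ (i + l))⁻¹ * (s ^ i * c * (s ^ i)⁻¹)) ∧
        π (s ^ i * c * (s ^ i)⁻¹ * (s ^ (i + l) * c * (s ^ (i + l))⁻¹)) =
          π (s ^ (i + l) * c * (s ^ (i + l))⁻¹ * (s ^ i * c * (s ^ i)⁻¹)) := by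
      intro i l hl
      obtain ⟨h1, h2⟩ := hbase l hl
      have e1 : s ^ i * c * (s ^ i)⁻¹ * (s ^ (i + l) * c * (s ^ (i + l))⁻¹) =
          s ^ i * (c * (s ^ l * c * (s ^ l)⁻¹)) * (s ^ i)⁻¹ := by
        rw [pow_add]; group
      have e2 : s ^ (i + l) * c * (s ^ (i + l))⁻¹ * (s ^ i * c * (s ^ i)⁻¹) =
          s ^ i * (s ^ l * c * (s ^ l)⁻¹ * c) * (s ^ i)⁻¹ := by
        rw [pow_add]; group
      constructor
      · rw [e1, e2, hb.conj_of_zero (hb.pow_zero hbs i), hb.conj_of_zero (hb.pow_zero hbs i), h1]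
      · rw [e1, e2, map_mul, map_mul, h2, ← map_mul, ← map_mul]
    intro i hi j hj
    rcases le_total i j with h | h
    · obtain ⟨l, rfl⟩ := Nat.exists_eq_add_of_le h
      exact key i l (by omega)
    · obtain ⟨l, rfl⟩ := Nat.exists_eq_add_of_le h
      exact ⟨(key j l (by omega)).1.symm, (key j l (by omega)).2.symm⟩
  have hRfin : Finite (closure ((fun i : ℕ => π (s ^ i * c * (s ^ i)⁻¹)) '' Set.Iio (κ + 1))) := by
    let φ : (G ⧸ A) →* (Module.End ℤ M)ˣ := QuotientGroup.lift A π hπA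
    have hle : closure ((fun i : ℕ => π (s ^ i * c * (s ^ i)⁻¹)) '' Set.Iio (κ + 1)) ≤
        (gam (G ⧸ A) 1).map φ := by
      rw [closure_le]
      rintro _ ⟨i, _, rfl⟩
      refine ⟨QuotientGroup.mk' A (s ^ i * c * (s ^ i)⁻¹), ?_, rfl⟩
      rw [gam_map (QuotientGroup.mk'_surjective A) 1]
      exact mem_map_of_mem _ (hygam i)
    have hfm : Finite ((gam (G ⧸ A) 1).map φ) := Set.Finite.image _ (Set.toFinite _)
    exact Finite.of_injective (Subgroup.inclusion hle) (Subgroup.inclusion_injective hle)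
  have hwin' : π (s ^ (κ + 1) * c * (s ^ (κ + 1))⁻¹) ∈
      closure ((fun i : ℕ => π (s ^ i * c * (s ^ i)⁻¹)) '' Set.Iio (κ + 1)) := by
    have h1 := mem_map_of_mem π (hκ.window s hc)
    rw [Subgroup.map_sup, MonoidHom.map_closure, ← Set.image_comp] at h1
    have h2 : A.map π = ⊥ := by
      rw [eq_bot_iff]
      rintro _ ⟨a, ha, rfl⟩
      exact hπA a ha
    rw [h2, sup_bot_eq] at h1
    exact h1
  obtain ⟨h1, h2⟩ := noise hb π ρq hρ (hyp_tf hyp) hbs
    (fun v hv => hyp_pow hyp 1 one_pos v (by rw [pow_one]; exact hv)) (κ + 1) (Nat.succ_pos _)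
    hRfin hwin' hcomm
  set R := closure ((fun i : ℕ => π (s ^ i * c * (s ^ i)⁻¹)) '' Set.Iio (κ + 1)) with hR
  have hcR : π c ∈ R := subset_closure ⟨0, Nat.succ_pos _, by simp⟩
  have h3 : ∀ (j : ℕ), ∀ r ∈ R, (π (s ^ j))⁻¹ * r * π (s ^ j) ∈ R := by
    intro j
    induction j with
    | zero => intro r hr; simpa using hr
    | succ j ih =>
      intro r hr
      have h4 := h2 _ (ih r hr)
      have h5 : (π (s ^ (j + 1)))⁻¹ * r * π (s ^ (j + 1)) =
          (π s)⁻¹ * ((π (s ^ j))⁻¹ * r * π (s ^ j)) * π s := by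
        rw [pow_succ, map_mul]; group
      rw [h5]; exact h4
  refine dig_pair hb hfin (Nat.succ_pos _) (d := c) hbs ?_ (hyp _ hbc)
    (pad' hsym hs (one_pow_mem hs) (by omega) (by omega)) ?_
  · intro j
    have h4 := h1 _ (h3 j _ hcR)
    have e0 : c * s ^ j = s ^ j * ((s ^ j)⁻¹ * c * s ^ j) := by group
    have e1 : ρ ((s ^ j)⁻¹ * c * s ^ j) (b c) = b c := by
      rw [hρ, show π ((s ^ j)⁻¹ * c * s ^ j) = (π (s ^ j))⁻¹ * π c * π (s ^ j) from by
        rw [map_mul, map_mul, map_inv]]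
      exact h4
    have h5 : ρ c (ρ (s ^ j) (b c)) = ρ (s ^ j) (ρ ((s ^ j)⁻¹ * c * s ^ j) (b c)) := by
      rw [← rho_mul_apply, ← rho_mul_apply, ← e0]
    rw [h5, e1]
  · exact mul_mem_pow hcS (one_pow_mem hs) rfl

end Chain

end Pool.Agent.H342.LD
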