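import Pool.Agent.H342.LD.Chain

/-! Helper file (helper342): the core theorem for any derived length. -/

set_option autoImplicit false

namespace Pool.Agent.H342.LD

open Subgroup Polynomial
open Pool.Agent.H785R3.GrowthA
open scoped Pointwise commutatorElement IsMulCommutative

universe u

/-- lengths of the elements of the chain -/
def Lam (κ : ℕ) : ℕ → ℕ
  | 0 => 4
  | i + 1 => 4 * Lam κ i + 6 * (κ + 1)

lemma Lam_even (κ i : ℕ) : Lam κ i % 2 = 0 := by
  induction i with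
  | zero => rw [Lam]
  | succ i ih => rw [Lam]; omega

lemma Lam_eq (κ i : ℕ) : Lam κ i + (2 * κ + 2) = 4 ^ i * (2 * κ + 6) := by
  induction i with
  | zero => rw [Lam]; ring
  | succ i ih =>
    rw [Lam, pow_succ]
    have : 4 ^ i * 4 * (2 * κ + 6) = 4 * (4 ^ i * (2 * κ + 6)) := by ring
    rw [this, ← ih]; ring

lemma Lam_mono (κ : ℕ) {i j : ℕ} (h : i ≤ j) : Lam κ i ≤ Lam κ j := by
  induction h with
  | refl => exact le_rfl
  | step _ ih => rw [Lam]; omega

lemma Dig_mono {G : Type u} [Group G] {S : Set G} (hS : S.Finite) (hne : S.Nonempty) {L L' : ℕ}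
    (hL : L ≤ L') (h : Dig S L) : Dig S L' := by
  obtain ⟨x, hx0, hx, h⟩ := h
  exact ⟨x, hx0, hx, fun n => (h n).trans (pow_le_of_le hS hne hL n)⟩

section

variable {G : Type u} [Group G] {S : Set G}

lemma comm_len (hsym : S⁻¹ = S) {s : G} (hs : s ∈ S) {n l : ℕ} {c : G} (hc : c ∈ S ^ n) :
    c * (s ^ l * c * (s ^ l)⁻¹) * c⁻¹ * (s ^ l * c * (s ^ l)⁻¹)⁻¹ ∈ S ^ (4 * n + 4 * l) := by
  have hslS : s ^ l ∈ S ^ l := Set.pow_mem_pow hs
  have hyS : s ^ l * c * (s ^ l)⁻¹ ∈ S ^ (l + n + l) := mul_mem_pow (mul_mem_pow hslS hc rfl)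
    (inv_mem_pow hsym l hslS) rfl
  exact mul_mem_pow (mul_mem_pow (mul_mem_pow hc hyS rfl)
          (inv_mem_pow hsym n hc) rfl) (inv_mem_pow hsym _ hyS) (by ring)

lemma der_le_gam (i : ℕ) : derivedSeries G (i + 1) ≤ gam G 1 := by
  have h : derivedSeries G 1 = gam G 1 := rfl
  rw [← h]
  exact derivedSeries_antitone G (by omega)

lemma der_comm {i : ℕ} {a c : G} (ha : a ∈ derivedSeries G i) (hc : c ∈ derivedSeries G i) :
    a * c * a⁻¹ * c⁻¹ ∈ derivedSeries G (i + 1) := by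
  rw [derivedSeries_succ]
  exact commutator_mem_commutator ha hc

end

section Core2

variable {G : Type u} [Group G] (A : Subgroup G) [A.Normal] [IsMulCommutative A]

theorem core2 {S : Set G} (hfin : S.Finite) (hgen : closure S = ⊤) (hsym : S⁻¹ = S)
    [Module.Finite ℤ (Additive A)] [hf1 : Finite (gam (G ⧸ A) 1)] {κ : ℕ} (hκ : GenBd A κ)
    (r : ℕ) (hr : derivedSeries G (r + 2) ≤ A) :
    Dig S (4 * Lam κ r + 4 * κ + 5) ∨ UU (H746UG.th A) ⊥ := by
  classical
  by_cases hU : UU (H746UG.th A) ⊥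
  · exact Or.inr hU
  left
  obtain ⟨V, ρ, b, s, m, hs, hm, hAker, hb, hbs, hyp, hcomm, ⟨t, ht, hbt⟩, hfull⟩ :=
    setup A hfin hgen hU
  have hne : S.Nonempty := ⟨s, hs⟩
  set F := 4 * Lam κ r + 4 * κ + 5 with hF
  have key : ∀ i ≤ r, Dig S F ∨ ∃ c ∈ derivedSeries G (i + 1), c ∈ S ^ (Lam κ i) ∧ b c ≠ 0 := by
    intro i
    induction i with
    | zero =>
      intro _
      right
      refine ⟨t * s * t⁻¹ * s⁻¹, der_comm (mem_top t) (mem_top s), comm_mem hsym hs ht, ?_⟩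
      have h1 : b (t * s * t⁻¹ * s⁻¹) = b t - ρ (t * s * t⁻¹) (b t) := by
        rw [hb, hb.inv_zero hbs, map_zero, add_zero, hb, hb, hbs, map_zero, add_zero, hb.inv,
          map_neg, ← rho_mul_apply, ← sub_eq_add_neg]
      intro h0
      rw [h1, sub_eq_zero] at h0
      apply hbt
      have h2 : ρ (s ^ 1) (ρ t⁻¹ (b t)) = ρ t⁻¹ (b t) := by
        have h3 := congrArg (ρ t⁻¹) h0
        rw [← rho_mul_apply] at h3
        rw [pow_one, ← rho_mul_apply]
        rw [h3]
        congr 2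
        group
      have h4 := hyp_pow hyp 1 one_pos _ h2
      rw [← rho_apply_inv (ρ := ρ) t (b t), h4, map_zero]
    | succ i ih =>
      intro hi
      rcases ih (by omega) with h | ⟨c, hc, hcS, hbc⟩
      · exact Or.inl h
      have hL := Lam_mono κ (show i ≤ r by omega)
      rcases step hb hfin hsym hs hbs hyp hAker hκ hcS (der_le_gam i hc) hbc (Lam_even κ i) with
        h | ⟨l, hl, h⟩
      · exact Or.inl (Dig_mono hfin hne (by omega) h)
      right
      set d := c * (s ^ l * c * (s ^ l)⁻¹) * c⁻¹ * (s ^ l * c * (s ^ l)⁻¹)⁻¹ with hd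
      have hdD : d ∈ derivedSeries G (i + 1 + 1) :=
        der_comm hc ((derivedSeries_normal G (i + 1)).conj_mem _ hc _)
      have hdS : d ∈ S ^ (4 * Lam κ i + 4 * l) := comm_len hsym hs hcS
      obtain ⟨j, hj, w, hw, hbw⟩ := conj_move hb hgen hsym hm hyp hcomm hfull hAker hκ
        (der_le_gam _ hdD) h
      refine ⟨w⁻¹ * d * w, ?_, ?_, hbw⟩
      · have := (derivedSeries_normal G (i + 1 + 1)).conj_mem _ hdD w⁻¹
        rwa [inv_inv] at this
      · have h1 : w⁻¹ * d * w ∈ S ^ (j + (4 * Lam κ i + 4 * l) + j) :=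
          mul_mem_pow (mul_mem_pow (inv_mem_pow hsym j hw) hdS rfl) hw rfl
        refine pad' hsym hs h1 ?_ ?_
        · rw [Lam]; omega
        · rw [Lam]
          have := Lam_even κ i
          omega
  rcases key r le_rfl with h | ⟨c, hc, hcS, hbc⟩
  · exact h
  rcases step hb hfin hsym hs hbs hyp hAker hκ hcS (der_le_gam r hc) hbc (Lam_even κ r) with
    h | ⟨l, hl, h⟩
  · exact Dig_mono hfin hne (by omega) h
  set d := c * (s ^ l * c * (s ^ l)⁻¹) * c⁻¹ * (s ^ l * c * (s ^ l)⁻¹)⁻¹ with hd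
  have hdA : d ∈ A := hr (der_comm hc ((derivedSeries_normal G (r + 1)).conj_mem _ hc _))
  have hρd : ρ d = 1 := hAker d hdA
  have hbd : b d ≠ 0 := by
    rcases h with h | h
    · exact h
    · exact absurd hρd h
  have hdS : d ∈ S ^ (4 * Lam κ r + 4 * l) := comm_len hsym hs hcS
  have hj : 4 * Lam κ r + 4 * l + 1 ≤ F := by omega
  refine Dig_mono hfin hne hj ?_
  refine dig_pair hb hfin (Nat.succ_pos _) (d := d) hbs ?_ (hyp _ hbd)
    (pad' hsym hs (one_pow_mem hs) (by omega) (by omega)) ?_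
  · intro j; rw [hρd]; rfl
  · exact mul_mem_pow hdS (one_pow_mem hs) rfl

/-- the case of a metabelian-type group -/
theorem core1 {S : Set G} (hfin : S.Finite) (hgen : closure S = ⊤) (hsym : S⁻¹ = S)
    [Module.Finite ℤ (Additive A)] (hr : derivedSeries G 1 ≤ A) :
    Dig S 5 ∨ UU (H746UG.th A) ⊥ := by
  classical
  by_cases hU : UU (H746UG.th A) ⊥
  · exact Or.inr hU
  left
  have hf1 : Finite (gam (G ⧸ A) 1) := by
    rw [gam_map (QuotientGroup.mk'_surjective A) 1]
    have : (gam G 1).map (QuotientGroup.mk' A) = ⊥ := by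
      rw [eq_bot_iff]
      rintro _ ⟨a, ha, rfl⟩
      exact (QuotientGroup.eq_one_iff a).2 (hr ha)
    rw [this]; infer_instance
  obtain ⟨V, ρ, b, s, m, hs, hm, hAker, hb, hbs, hyp, hcomm, ⟨t, ht, hbt⟩, hfull⟩ :=
    setup A hfin hgen hU
  set d : G := t * s * t⁻¹ * s⁻¹ with hd
  have hbd : b d ≠ 0 := by
    have h1 : b (t * s * t⁻¹ * s⁻¹) = b t - ρ (t * s * t⁻¹) (b t) := by
      rw [hb, hb.inv_zero hbs, map_zero, add_zero, hb, hb, hbs, map_zero, add_zero, hb.inv,
        map_neg, ← rho_mul_apply, ← sub_eq_add_neg]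
    intro h0
    rw [hd, h1, sub_eq_zero] at h0
    apply hbt
    have h2 : ρ (s ^ 1) (ρ t⁻¹ (b t)) = ρ t⁻¹ (b t) := by
      have h3 := congrArg (ρ t⁻¹) h0
      rw [← rho_mul_apply] at h3
      rw [pow_one, ← rho_mul_apply]
      rw [h3]
      congr 2
      group
    have h4 := hyp_pow hyp 1 one_pos _ h2
    rw [← rho_apply_inv (ρ := ρ) t (b t), h4, map_zero]
  have hρd : ρ d = 1 := hAker d (hr (der_comm (i := 0) (mem_top t) (mem_top s)))
  refine dig_pair hb hfin (by norm_num) (d := d) hbs ?_ (hyp _ hbd)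
    (pad' hsym hs (one_pow_mem hs) (by omega) (by omega)) ?_
  · intro j; rw [hρd]; rfl
  · exact mul_mem_pow (comm_mem hsym hs ht) (one_pow_mem hs) rfl

end Core2

end Pool.Agent.H342.LD
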