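import Pool.Agent.H342.LD.Pair

/-! Helper file (helper342): the core theorem for an abelian normal subgroup with a quotient whose
derived subgroup is finite and abelian. -/

set_option autoImplicit false

namespace Pool.Agent.H342.LD

open Subgroup Polynomial
open Pool.Agent.H785R3.GrowthA
open scoped Pointwise commutatorElement IsMulCommutative

universe u

section JN

variable {G : Type u} {M : Type*} [Group G] [AddCommGroup M] (ρ : G →* Module.End ℤ M)

/-- a just-non-(virtually unipotent) quotient -/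
lemma exists_jn [IsNoetherian ℤ M] (hM : ¬ UU ρ ⊥) :
    ∃ (V : Submodule ℤ M) (hV : InvS ρ V), ¬ UU (quotAct ρ V hV) ⊥ ∧
      ∀ r : Module.End ℤ (M ⧸ V), (∀ g : G, r * quotAct ρ V hV g = quotAct ρ V hV g * r) →
        r = 0 ∨ Function.Injective r := by
  obtain ⟨V, ⟨hV, hVn⟩, hmax⟩ := (wellFounded_gt (α := Submodule ℤ M)).has_min
    {V : Submodule ℤ M | InvS ρ V ∧ ¬ UU ρ V} ⟨⊥, by
      intro g v hv
      rw [Submodule.mem_bot] at hv
      rw [hv, map_zero]; exact zero_mem _, hM⟩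
  refine ⟨V, hV, ?_⟩
  set ρ' := quotAct ρ V hV with hρ'
  have hmk : ∀ (g : G) (m : M), V.mkQ (ρ g m) = ρ' g (V.mkQ m) := fun g m => rfl
  have hmaptop : (⊤ : Submodule ℤ M).map V.mkQ = ⊤ := by
    rw [Submodule.map_top, Submodule.range_mkQ]
  have hM' : ¬ UU ρ' (⊥ : Submodule ℤ (M ⧸ V)) := by
    rintro ⟨H, hH, n, hn⟩
    apply hVn
    refine ⟨H, hH, n, ?_⟩
    intro x hx
    have h1 : V.mkQ x ∈ (aug ρ H n ⊤).map V.mkQ := ⟨x, hx, rfl⟩
    rw [aug_map ρ ρ' V.mkQ hmk, hmaptop] at h1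
    have h2 := hn h1
    rw [Submodule.mem_bot] at h2
    exact (Submodule.Quotient.mk_eq_zero V).1 h2
  have hJ : ∀ W : Submodule ℤ (M ⧸ V), InvS ρ' W → W ≠ ⊥ → UU ρ' W := by
    intro W hW hne
    have hW' : InvS ρ (W.comap V.mkQ) := by
      intro g v hv
      rw [Submodule.mem_comap] at hv ⊢
      exact hW g _ hv
    have hlt : V < W.comap V.mkQ := by
      refine lt_of_le_of_ne ?_ ?_
      · intro v hv
        rw [Submodule.mem_comap, Submodule.mkQ_apply, (Submodule.Quotient.mk_eq_zero V).2 hv]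
        exact zero_mem _
      · intro h
        apply hne
        rw [eq_bot_iff]
        intro x hx
        obtain ⟨x, rfl⟩ := Submodule.Quotient.mk_surjective V x
        have : x ∈ V := by rw [h]; exact hx
        rw [Submodule.mem_bot]
        exact (Submodule.Quotient.mk_eq_zero V).2 this
    have hUU : UU ρ (W.comap V.mkQ) := by
      by_contra hcon
      exact hmax _ ⟨hW', hcon⟩ hlt
    obtain ⟨H, hH, n, hn⟩ := hUU
    refine ⟨H, hH, n, ?_⟩
    rw [← hmaptop, ← aug_map ρ ρ' V.mkQ hmk]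
    rintro _ ⟨x, hx, rfl⟩
    exact hn hx
  exact ⟨hM', jnU ρ' hM' hJ⟩

/-- the faithful quotient of the action -/
def fq : (G ⧸ ρ.ker) →* Module.End ℤ M := QuotientGroup.lift ρ.ker ρ (fun _ hg => hg)

lemma fq_mk (g : G) : fq ρ (QuotientGroup.mk' ρ.ker g) = ρ g := rfl

lemma fq_inj : Function.Injective (fq ρ) := by
  intro a b hab
  obtain ⟨a, rfl⟩ := QuotientGroup.mk'_surjective _ a
  obtain ⟨b, rfl⟩ := QuotientGroup.mk'_surjective _ b
  rw [fq_mk, fq_mk] at hab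
  show (QuotientGroup.mk a : G ⧸ ρ.ker) = QuotientGroup.mk b
  rw [QuotientGroup.eq, MonoidHom.mem_ker, map_mul, ← hab, ← map_mul, inv_mul_cancel, map_one]

/-- some generator has no quasi-unipotent vectors -/
lemma exists_hyp [Module.Finite ℤ M] (hM : ¬ UU ρ ⊥)
    (hJN : ∀ r : Module.End ℤ M, (∀ g : G, r * ρ g = ρ g * r) → r = 0 ∨ Function.Injective r)
    [hf : Finite (gam (G ⧸ ρ.ker) 1)] {S : Set G} (hSfin : S.Finite) (hS : closure S = ⊤) :
    ∃ s ∈ S, ∀ v : M, v ≠ 0 → ¬ QU ρ s v := by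
  by_contra hcon
  push Not at hcon
  have hJNQ : ∀ r : Module.End ℤ M, (∀ g, r * fq ρ g = fq ρ g * r) →
      r = 0 ∨ Function.Injective r := fun r hr => hJN r (fun g => hr (QuotientGroup.mk' ρ.ker g))
  have hq : Function.Surjective (QuotientGroup.mk' ρ.ker) := QuotientGroup.mk'_surjective _
  have hSQfin : ((QuotientGroup.mk' ρ.ker) '' S).Finite := hSfin.image _
  have hSQ : closure ((QuotientGroup.mk' ρ.ker) '' S) = ⊤ := by
    rw [← MonoidHom.map_closure, hS, ← MonoidHom.range_eq_map]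
    exact MonoidHom.range_eq_top.2 hq
  have hord : ∀ d ∈ (QuotientGroup.mk' ρ.ker) '' S, ∃ m : ℕ, 0 < m ∧ d ^ m = 1 := by
    rintro _ ⟨s, hs, rfl⟩
    obtain ⟨v, hv, hQ⟩ := hcon s hs
    exact finOrder (fq ρ) (fq_inj ρ) hJNQ hv (t := QuotientGroup.mk' ρ.ker s) hQ
  have hQ0 : Finite (gam (G ⧸ ρ.ker) 0) := by
    refine gam_finite_step hf hSQfin (fun x _ => mem_top x) ?_ hord
    rw [hSQ]; exact le_sup_of_le_left le_top
  have hQfin : Finite (G ⧸ ρ.ker) := by
    have h1 : Function.Injective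
        (fun x : G ⧸ ρ.ker => (⟨x, mem_top x⟩ : gam (G ⧸ ρ.ker) 0)) :=
      fun a b h => congrArg Subtype.val h
    exact Finite.of_injective _ h1
  apply hM
  refine ⟨ρ.ker, Subgroup.finiteIndex_of_finite_quotient, 1, ?_⟩
  show Submodule.span ℤ {x | ∃ h ∈ ρ.ker, ∃ v ∈ (⊤ : Submodule ℤ M), x = ρ h v - v} ≤ ⊥
  rw [Submodule.span_le]
  rintro _ ⟨h, hh, v, -, rfl⟩
  rw [MonoidHom.mem_ker] at hh
  rw [hh]
  simp

end JN

section Hyp

variable {G : Type u} {M : Type*} [Group G] [AddCommGroup M] {ρ : G →* Module.End ℤ M}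

lemma hyp_tf {s : G} (h : ∀ v : M, v ≠ 0 → ¬ QU ρ s v) (n : ℕ) (hn : 0 < n) (v : M)
    (hv : n • v = 0) : v = 0 := by
  by_contra hne
  exact h v hne ⟨1, 0, n, one_pos, hn, by rw [_root_.pow_zero, Module.End.one_apply,
    natCast_zsmul, hv]⟩

lemma hyp_pow {s : G} (h : ∀ v : M, v ≠ 0 → ¬ QU ρ s v) (n : ℕ) (hn : 0 < n) (v : M)
    (hv : ρ (s ^ n) v = v) : v = 0 := by
  by_contra hne
  exact h v hne ⟨n, 1, 1, hn, one_pos, by
    rw [pow_one, LinearMap.sub_apply, ← map_pow, hv, Module.End.one_apply, sub_self, smul_zero]⟩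

end Hyp

section Len

variable {G : Type u} [Group G] {S : Set G}

lemma inv_mem_pow (hsym : S⁻¹ = S) : ∀ (n : ℕ) {g : G}, g ∈ S ^ n → g⁻¹ ∈ S ^ n
  | 0, g, hg => by
    rw [_root_.pow_zero, Set.mem_one] at hg ⊢
    rw [hg, inv_one]
  | n + 1, g, hg => by
    rw [pow_succ] at hg
    obtain ⟨a, ha, c, hc, rfl⟩ := hg
    rw [mul_inv_rev, pow_succ']
    refine Set.mul_mem_mul ?_ (inv_mem_pow hsym n ha)
    rw [← hsym]; simpa using hc

lemma pad (hsym : S⁻¹ = S) {s : G} (hs : s ∈ S) {n : ℕ} {g : G} (hg : g ∈ S ^ n) :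
    ∀ k : ℕ, g ∈ S ^ (n + 2 * k)
  | 0 => hg
  | k + 1 => by
    have h1 := pad hsym hs hg k
    have h2 : g = g * (s * s⁻¹) := by rw [mul_inv_cancel, mul_one]
    rw [h2, show n + 2 * (k + 1) = n + 2 * k + 2 from by ring, pow_add]
    refine Set.mul_mem_mul h1 ?_
    rw [pow_two]
    refine Set.mul_mem_mul hs ?_
    rw [← hsym]; simpa using hs

lemma pad' (hsym : S⁻¹ = S) {s : G} (hs : s ∈ S) {n m : ℕ} {g : G} (hg : g ∈ S ^ n)
    (h : n ≤ m) (h2 : (m - n) % 2 = 0) : g ∈ S ^ m := by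
  have h3 := pad hsym hs hg ((m - n) / 2)
  have h4 : n + 2 * ((m - n) / 2) = m := by omega
  rwa [h4] at h3

lemma one_pow_mem {s : G} (hs : s ∈ S) : s ∈ S ^ 1 := by rw [pow_one]; exact hs

lemma inv_one_mem (hsym : S⁻¹ = S) {s : G} (hs : s ∈ S) : s⁻¹ ∈ S ^ 1 := by
  rw [pow_one, ← hsym]; simpa using hs

lemma comm_mem (hsym : S⁻¹ = S) {s t : G} (hs : s ∈ S) (ht : t ∈ S) :
    t * s * t⁻¹ * s⁻¹ ∈ S ^ 4 :=
  mul_mem_pow (mul_mem_pow (mul_mem_pow (one_pow_mem ht) (one_pow_mem hs) rfl)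
    (inv_one_mem hsym ht) rfl) (inv_one_mem hsym hs) rfl

end Len

section Core

variable {G : Type u} [Group G] (A : Subgroup G) [A.Normal] [IsMulCommutative A]

theorem core_dig {S : Set G} (hfin : S.Finite) (hgen : closure S = ⊤) (hsym : S⁻¹ = S)
    [Module.Finite ℤ (Additive A)] [hf1 : Finite (gam (G ⧸ A) 1)]
    (hG2 : ∀ a ∈ gam G 1, ∀ c ∈ gam G 1, a * c * a⁻¹ * c⁻¹ ∈ A) (K : ℕ) (hK : 0 < K)
    (hwin : ∀ s ∈ S, ∀ t ∈ S, s ^ K * (t * s * t⁻¹ * s⁻¹) * (s ^ K)⁻¹ ∈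
      closure ((fun i : ℕ => s ^ i * (t * s * t⁻¹ * s⁻¹) * (s ^ i)⁻¹) '' Set.Iio K) ⊔ A) :
    Dig S (4 * K + 17) ∨ UU (H746UG.th A) ⊥ := by
  classical
  by_contra hcon
  push Not at hcon
  obtain ⟨hD, hU⟩ := hcon
  have hnoeth : IsNoetherian ℤ (Additive A) := inferInstance
  obtain ⟨V, hV, hM', hJN⟩ := exists_jn (H746UG.th A) hU
  set ρ := quotAct (H746UG.th A) V hV with hρdef
  have hAker : ∀ a ∈ A, ρ a = 1 := by
    intro a ha
    apply LinearMap.ext
    intro x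
    obtain ⟨x, rfl⟩ := Submodule.Quotient.mk_surjective V x
    show V.mkQ (H746UG.th A a x) = _
    rw [H746UG.th_of_mem ha]; rfl
  -- the faithful quotient has a finite derived subgroup
  have hfk : Finite (gam (G ⧸ ρ.ker) 1) := by
    let φ : (G ⧸ A) →* (G ⧸ ρ.ker) := QuotientGroup.lift A (QuotientGroup.mk' ρ.ker)
      (fun a ha => (QuotientGroup.eq_one_iff a).2 (hAker a ha))
    have hφ : Function.Surjective φ := by
      intro x
      obtain ⟨x, rfl⟩ := QuotientGroup.mk'_surjective _ x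
      exact ⟨QuotientGroup.mk x, rfl⟩
    rw [gam_map hφ 1]
    exact Set.Finite.image _ (Set.toFinite _)
  obtain ⟨s, hs, hyp⟩ := exists_hyp ρ hM' hJN hfin hgen
  -- a central power
  obtain ⟨m, hm, hcen⟩ := pow_central (Φ := gam (G ⧸ A) 1)
    (fun a c => gam_comm (n := 0) (mem_top a) c) (QuotientGroup.mk' A s)
  have hz : ∀ g : G, s ^ m * g * (s ^ m)⁻¹ * g⁻¹ ∈ A := by
    intro g
    rw [mem_center_iff] at hcen
    have h1 := hcen (QuotientGroup.mk' A g)
    rw [← map_pow, ← map_mul, ← map_mul] at h1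
    have h2 := QuotientGroup.eq.1 h1.symm
    have h3 := ‹A.Normal›.conj_mem _ h2 (s ^ m * g)
    have h4 : s ^ m * g * ((s ^ m * g)⁻¹ * (g * s ^ m)) * (s ^ m * g)⁻¹ =
        (s ^ m * g * (s ^ m)⁻¹ * g⁻¹)⁻¹ := by group
    rw [h4] at h3
    exact A.inv_mem_iff.1 h3
  let b : G → (Additive A ⧸ V) := fun g => V.mkQ (H746UG.el A _ (hz g))
  have hb : Cr ρ b := by
    intro g h
    show V.mkQ _ = V.mkQ _ + V.mkQ (H746UG.th A g _)
    rw [← map_add]
    congr 1
    apply H746UG.val_inj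
    rw [H746UG.val_add, H746UG.val_th, H746UG.val_el, H746UG.val_el, H746UG.val_el]
    group
  have hbA : ∀ a : Additive A, b (H746UG.val A a) = ρ (s ^ m) (V.mkQ a) - V.mkQ a := by
    intro a
    show V.mkQ _ = V.mkQ (H746UG.th A (s ^ m) a) - V.mkQ a
    rw [← map_sub]
    congr 1
    apply H746UG.val_inj
    rw [H746UG.val_sub, H746UG.val_th, H746UG.val_el]
  have hbs : b s = 0 := by
    show V.mkQ _ = 0
    have : H746UG.el A _ (hz s) = 0 := by
      apply H746UG.val_inj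
      rw [H746UG.val_el, H746UG.val_zero, ← pow_succ, mul_assoc, ← mul_inv_rev, ← pow_succ',
        mul_inv_cancel]
    rw [this, map_zero]
  -- a generator that moves `0`
  obtain ⟨t, ht, hbt⟩ : ∃ t ∈ S, b t ≠ 0 := by
    by_contra hcon
    push Not at hcon
    have h1 : (⊤ : Subgroup G) ≤ hb.zer := by
      rw [← hgen, closure_le]
      exact fun t ht => hcon t ht
    apply hM'
    refine ⟨⊤, inferInstance, 0, ?_⟩
    intro x _
    obtain ⟨a, rfl⟩ := Submodule.Quotient.mk_surjective V x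
    rw [Submodule.mem_bot]
    have h2 : b (H746UG.val A a) = 0 := h1 (mem_top _)
    rw [hbA, sub_eq_zero] at h2
    exact hyp_pow hyp m hm _ h2
  set c : G := t * s * t⁻¹ * s⁻¹ with hc
  have hbc : b c ≠ 0 := by
    have h1 : b c = b t - ρ (t * s * t⁻¹) (b t) := by
      rw [hc, hb, hb.inv_zero hbs, map_zero, add_zero, hb, hb, hbs, map_zero, add_zero, hb.inv,
        map_neg, ← rho_mul_apply, ← sub_eq_add_neg]
    intro h0
    rw [h1, sub_eq_zero] at h0
    apply hbt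
    have h2 : ρ (s ^ 1) (ρ t⁻¹ (b t)) = ρ t⁻¹ (b t) := by
      have h3 := congrArg (ρ t⁻¹) h0
      rw [← rho_mul_apply] at h3
      rw [pow_one, ← rho_mul_apply]
      rw [h3]
      congr 2
      group
    have h4 := hyp_pow hyp 1 one_pos _ h2
    rw [← rho_apply_inv (ρ := ρ) t (b t), h4, map_zero]
  have hcgam : c ∈ gam G 1 := by
    have := gam_comm (n := 0) (mem_top t : t ∈ gam G 0) s
    rw [commutatorElement_def] at this
    exact this
  have hygam : ∀ i : ℕ, s ^ i * c * (s ^ i)⁻¹ ∈ gam G 1 := fun i =>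
    (inferInstance : (gam G 1).Normal).conj_mem _ hcgam _
  -- the linear parts
  let π : G →* G ⧸ A := QuotientGroup.mk' A
  have hπ : Function.Surjective π := QuotientGroup.mk'_surjective A
  let ρq : (G ⧸ A) →* Module.End ℤ (Additive A ⧸ V) := QuotientGroup.lift A ρ hAker
  have hρ : ∀ g, ρ g = ρq (π g) := fun g => rfl
  have hπcomm : ∀ i j : ℕ, π (s ^ i * c * (s ^ i)⁻¹ * (s ^ j * c * (s ^ j)⁻¹)) =
      π (s ^ j * c * (s ^ j)⁻¹ * (s ^ i * c * (s ^ i)⁻¹)) := by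
    intro i j
    have h1 := hG2 _ (hygam i) _ (hygam j)
    rw [← mul_inv_eq_one, ← map_inv, ← map_mul]
    refine (QuotientGroup.eq_one_iff _).2 ?_
    rw [mul_inv_rev, ← mul_assoc]
    exact h1
  have hRfin : Finite (closure ((fun i : ℕ => π (s ^ i * c * (s ^ i)⁻¹)) '' Set.Iio K)) := by
    have hle : closure ((fun i : ℕ => π (s ^ i * c * (s ^ i)⁻¹)) '' Set.Iio K) ≤
        gam (G ⧸ A) 1 := by
      rw [closure_le]
      rintro _ ⟨i, _, rfl⟩
      rw [gam_map hπ 1]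
      exact mem_map_of_mem _ (hygam i)
    exact Finite.of_injective (Subgroup.inclusion hle) (Subgroup.inclusion_injective hle)
  have hwin' : π (s ^ K * c * (s ^ K)⁻¹) ∈
      closure ((fun i : ℕ => π (s ^ i * c * (s ^ i)⁻¹)) '' Set.Iio K) := by
    have h1 := mem_map_of_mem π (hwin s hs t ht)
    rw [Subgroup.map_sup, MonoidHom.map_closure, ← Set.image_comp] at h1
    have h2 : A.map π = ⊥ := by
      rw [eq_bot_iff]
      rintro _ ⟨a, ha, rfl⟩
      exact (QuotientGroup.eq_one_iff a).2 ha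
    rw [h2, sup_bot_eq] at h1
    exact h1
  apply hD
  have hodd : ∀ {n : ℕ} {g : G}, g ∈ S ^ n → n ≤ 4 * K + 17 → (4 * K + 17 - n) % 2 = 0 →
      g ∈ S ^ (4 * K + 17) := fun hg h1 h2 => pad' hsym hs hg h1 h2
  have hsS : s ∈ S ^ (4 * K + 17) := hodd (one_pow_mem hs) (by omega) (by omega)
  by_cases hcomm : ∀ i ≤ K, ∀ j ≤ K,
      b (s ^ i * c * (s ^ i)⁻¹ * (s ^ j * c * (s ^ j)⁻¹)) =
        b (s ^ j * c * (s ^ j)⁻¹ * (s ^ i * c * (s ^ i)⁻¹))
  · obtain ⟨h1, h2⟩ := noise hb π ρq hρ (hyp_tf hyp) hbs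
      (fun v hv => hyp_pow hyp 1 one_pos v (by rw [pow_one]; exact hv)) K hK hRfin hwin'
      (fun i hi j hj => ⟨hcomm i hi j hj, hπcomm i j⟩)
    set R := closure ((fun i : ℕ => π (s ^ i * c * (s ^ i)⁻¹)) '' Set.Iio K) with hR
    have hcR : π c ∈ R := subset_closure ⟨0, hK, by simp⟩
    have h3 : ∀ (j : ℕ), ∀ r ∈ R, (π (s ^ j))⁻¹ * r * π (s ^ j) ∈ R := by
      intro j
      induction j with
      | zero => intro r hr; simpa using hr
      | succ j ih =>
        intro r hr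
        have h4 := h2 _ (ih r hr)
        have h5 : (π (s ^ (j + 1)))⁻¹ * r * π (s ^ (j + 1)) =
            (π s)⁻¹ * ((π (s ^ j))⁻¹ * r * π (s ^ j)) * π s := by
          rw [pow_succ, map_mul]; group
        rw [h5]; exact h4
    refine dig_pair hb hfin (by omega) (d := c) hbs ?_ (hyp _ hbc) hsS ?_
    · intro j
      have h4 := h1 _ (h3 j _ hcR)
      have e0 : c * s ^ j = s ^ j * ((s ^ j)⁻¹ * c * s ^ j) := by group
      have e1 : ρ ((s ^ j)⁻¹ * c * s ^ j) (b c) = b c := by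
        rw [hρ, show π ((s ^ j)⁻¹ * c * s ^ j) = (π (s ^ j))⁻¹ * π c * π (s ^ j) from by
          rw [map_mul, map_mul, map_inv]]
        exact h4
      have h5 : ρ c (ρ (s ^ j) (b c)) = ρ (s ^ j) (ρ ((s ^ j)⁻¹ * c * s ^ j) (b c)) := by
        rw [← rho_mul_apply, ← rho_mul_apply, ← e0]
      rw [h5, e1]
    · have h4 : c * s = t * s * t⁻¹ := by rw [hc]; group
      rw [h4]
      exact hodd (mul_mem_pow (mul_mem_pow (one_pow_mem ht) (one_pow_mem hs) rfl)
        (inv_one_mem hsym ht) rfl) (by omega) (by omega)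
  · push Not at hcomm
    obtain ⟨i, hi, j, hj, hij⟩ := hcomm
    -- we may assume that `i < j`
    obtain ⟨l, hl, hbl⟩ : ∃ l ≤ K, b (c * (s ^ l * c * (s ^ l)⁻¹)) ≠
        b (s ^ l * c * (s ^ l)⁻¹ * c) := by
      rcases le_total i j with h | h
      · refine ⟨j - i, by omega, fun h0 => hij ?_⟩
        have e1 : s ^ i * c * (s ^ i)⁻¹ * (s ^ j * c * (s ^ j)⁻¹) =
            s ^ i * (c * (s ^ (j - i) * c * (s ^ (j - i))⁻¹)) * (s ^ i)⁻¹ := by
          obtain ⟨k, rfl⟩ := Nat.exists_eq_add_of_le h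
          rw [Nat.add_sub_cancel_left, pow_add]; group
        have e2 : s ^ j * c * (s ^ j)⁻¹ * (s ^ i * c * (s ^ i)⁻¹) =
            s ^ i * (s ^ (j - i) * c * (s ^ (j - i))⁻¹ * c) * (s ^ i)⁻¹ := by
          obtain ⟨k, rfl⟩ := Nat.exists_eq_add_of_le h
          rw [Nat.add_sub_cancel_left, pow_add]; group
        rw [e1, e2, hb.conj_of_zero (hb.pow_zero hbs i), hb.conj_of_zero (hb.pow_zero hbs i), h0]
      · refine ⟨i - j, by omega, fun h0 => hij ?_⟩
        have e1 : s ^ i * c * (s ^ i)⁻¹ * (s ^ j * c * (s ^ j)⁻¹) =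
            s ^ j * (s ^ (i - j) * c * (s ^ (i - j))⁻¹ * c) * (s ^ j)⁻¹ := by
          obtain ⟨k, rfl⟩ := Nat.exists_eq_add_of_le h
          rw [Nat.add_sub_cancel_left, pow_add]; group
        have e2 : s ^ j * c * (s ^ j)⁻¹ * (s ^ i * c * (s ^ i)⁻¹) =
            s ^ j * (c * (s ^ (i - j) * c * (s ^ (i - j))⁻¹)) * (s ^ j)⁻¹ := by
          obtain ⟨k, rfl⟩ := Nat.exists_eq_add_of_le h
          rw [Nat.add_sub_cancel_left, pow_add]; group
        rw [e1, e2, hb.conj_of_zero (hb.pow_zero hbs j), hb.conj_of_zero (hb.pow_zero hbs j), h0]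
    set y : G := s ^ l * c * (s ^ l)⁻¹ with hy
    set d : G := c * y * c⁻¹ * y⁻¹ with hd
    have hdA : d ∈ A := by
      exact hG2 _ hcgam _ (hygam l)
    have hρd : ρ d = 1 := hAker d hdA
    have hbd : b d ≠ 0 := by
      intro h0
      apply hbl
      have h1 : c * y = d * (y * c) := by rw [hd]; group
      rw [h1, hb d, h0, hρd, zero_add]; rfl
    refine dig_pair hb hfin (by omega) (d := d) hbs ?_ (hyp _ hbd) hsS ?_
    · intro j; rw [hρd]; rfl
    · have hcS : c ∈ S ^ 4 := comm_mem hsym hs ht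
      have hslS : s ^ l ∈ S ^ l := Set.pow_mem_pow hs
      have hyS : y ∈ S ^ (l + 4 + l) := mul_mem_pow (mul_mem_pow hslS hcS rfl)
        (inv_mem_pow hsym l hslS) rfl
      have hdS : d * s ∈ S ^ (4 + (l + 4 + l) + 4 + (l + 4 + l) + 1) :=
        mul_mem_pow (mul_mem_pow (mul_mem_pow (mul_mem_pow hcS hyS rfl)
          (inv_mem_pow hsym 4 hcS) rfl) (inv_mem_pow hsym _ hyS) rfl) (one_pow_mem hs) rfl
      exact hodd hdS (by omega) (by omega)

end Core

end Pool.Agent.H342.LD
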