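import Pool.Agent.H342.LD.Chain2

/-! Helper file (helper342): from unipotent actions to nilpotent groups; nilpotent normal
subgroups with a quotient whose derived subgroup is finite. -/

set_option autoImplicit false

namespace Pool.Agent.H342.LD

open Subgroup Polynomial
open Pool.Agent.H785R3.GrowthA
open scoped Pointwise commutatorElement IsMulCommutative

universe u

section UU

variable {G : Type u} [Group G] (A : Subgroup G) [A.Normal] [IsMulCommutative A]

/-- unipotent action of a finite index subgroup gives a nilpotent one -/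
lemma vn_of_UU {N : Subgroup G} [hNfi : N.FiniteIndex] (hAN : A ≤ N) {k : ℕ}
    (hk : N.lowerCentralSeries k ≤ A) (h : UU (H746UG.th A) ⊥) :
    ∃ H : Subgroup G, H.FiniteIndex ∧ A ≤ H ∧ ∃ n, H.lowerCentralSeries n = ⊥ := by
  obtain ⟨H, hH, n, hn⟩ := h
  set H1 := H ⊔ A with hH1
  have hth : ∀ g ∈ H1, ∃ h ∈ H, H746UG.th A g = H746UG.th A h := by
    intro g hg
    have hg' : g ∈ ((H ⊔ A : Subgroup G) : Set G) := hg
    rw [mul_normal] at hg'
    obtain ⟨y, hy, z, hz, rfl⟩ := hg'
    exact ⟨y, hy, by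
      show H746UG.th A (y * z) = _
      rw [map_mul, H746UG.th_of_mem hz, mul_one]⟩
  have hH1f : H1.FiniteIndex := Subgroup.finiteIndex_of_le (le_sup_left : H ≤ H1)
  refine ⟨H1 ⊓ N, inferInstance, le_inf le_sup_right hAN, k + n, ?_⟩
  have key : ∀ i : ℕ, (H1 ⊓ N).lowerCentralSeries (k + i) ≤
      valSub A (aug (H746UG.th A) H i ⊤) := by
    intro i
    induction i with
    | zero =>
      have h1 : ∀ j, (H1 ⊓ N).lowerCentralSeries j ≤ N.lowerCentralSeries j := by
        intro j
        induction j with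
        | zero => exact inf_le_right
        | succ j ih => exact commutator_mono ih inf_le_right
      intro a ha
      have h2 : a ∈ A := hk (h1 k ha)
      exact ⟨H746UG.el A a h2, trivial, H746UG.val_el a h2⟩
    | succ i ih =>
      show ⁅(H1 ⊓ N).lowerCentralSeries (k + i), H1 ⊓ N⁆ ≤ _
      rw [commutator_le]
      intro a ha g hg
      obtain ⟨m, hm, rfl⟩ := ih ha
      obtain ⟨h, hh, he⟩ := hth g hg.1
      refine ⟨-(H746UG.th A h m - m), ?_, ?_⟩
      · apply neg_mem
        exact Submodule.subset_span ⟨h, hh, m, hm, rfl⟩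
      · rw [← he, neg_sub, H746UG.val_sub, H746UG.val_th, commutatorElement_def]
        group
  rw [eq_bot_iff]
  intro a ha
  obtain ⟨m, hm, rfl⟩ := key n ha
  have := hn hm
  rw [Submodule.mem_bot] at this
  rw [this, H746UG.val_zero]; exact one_mem _

/-- the preimage of the centre of the quotient -/
lemma center_pre {S : Set G} (hfin : S.Finite) (hgen : closure S = ⊤)
    (C : Subgroup G) [C.Normal] [Finite (gam (G ⧸ C) 1)] :
    ∃ N : Subgroup G, N.FiniteIndex ∧ C ≤ N ∧ N.lowerCentralSeries 1 ≤ C := by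
  have hGfg : Group.FG G := ⟨⟨hfin.toFinset, by rw [Set.Finite.coe_toFinset]; exact hgen⟩⟩
  have hfc : Finite (commutator (G ⧸ C)) := ‹Finite (gam (G ⧸ C) 1)›
  have hfi := H746UG.center_fi_of_finite C hfc
  refine ⟨(center (G ⧸ C)).comap (QuotientGroup.mk' C), ?_, ?_, ?_⟩
  · refine ⟨?_⟩
    rw [Subgroup.index_comap_of_surjective _ (QuotientGroup.mk'_surjective C)]
    exact FiniteIndex.index_ne_zero
  · intro a ha
    show QuotientGroup.mk' C a ∈ center (G ⧸ C)
    have : QuotientGroup.mk' C a = 1 := (QuotientGroup.eq_one_iff a).2 ha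
    rw [this]; exact one_mem _
  · show ⁅(center (G ⧸ C)).comap (QuotientGroup.mk' C),
      (center (G ⧸ C)).comap (QuotientGroup.mk' C)⁆ ≤ C
    rw [commutator_le]
    intro a ha g _
    have h1 := mem_center_iff.1 (show QuotientGroup.mk' C a ∈ center (G ⧸ C) from ha)
      (QuotientGroup.mk' C g)
    rw [commutatorElement_def]
    refine (QuotientGroup.eq_one_iff _).1 ?_
    show QuotientGroup.mk' C (a * g * a⁻¹ * g⁻¹) = 1
    rw [map_mul, map_mul, map_mul, ← h1, map_inv, map_inv]
    group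

end UU

section Lift

variable {G : Type u} [Group G]

lemma GenBd.map {H : Type u} [Group H] {f : G →* H} (hf : Function.Surjective f) {C : Subgroup G}
    {κ : ℕ} (h : GenBd C κ) : GenBd (C.map f) κ := by
  intro X c hc n w hw
  have hX : f '' (f ⁻¹' X) = X := Set.image_preimage_eq X hf
  rw [gam_map hf] at hc
  obtain ⟨c, hc, rfl⟩ := hc
  rw [← hX, ← Set.image_pow] at hw
  obtain ⟨w, hw, rfl⟩ := hw
  have h1 := mem_map_of_mem f (h (f ⁻¹' X) c hc n w hw)
  rw [map_mul, map_mul, map_inv, Subgroup.map_sup, MonoidHom.map_closure] at h1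
  refine sup_le_sup_right (Subgroup.closure_mono ?_) _ h1
  rintro _ ⟨_, ⟨j, hj, v, hv, rfl⟩, rfl⟩
  refine ⟨j, hj, f v, ?_, by rw [map_mul, map_mul, map_inv]⟩
  rw [← hX, ← Set.image_pow]
  exact ⟨v, hv, rfl⟩

/-- Hall's criterion for virtually nilpotent groups -/
lemma vn_lift (C : Subgroup G) [C.Normal] (hC : Group.IsNilpotent C)
    {H : Subgroup (G ⧸ ⁅C, C⁆)} [hH : H.FiniteIndex] (hCH : C.map (QuotientGroup.mk' ⁅C, C⁆) ≤ H)
    {n : ℕ} (hn : H.lowerCentralSeries n = ⊥) :
    ∃ H' : Subgroup G, H'.FiniteIndex ∧ C ≤ H' ∧ H'.Normal ∧ ∃ n, H'.lowerCentralSeries n = ⊥ := by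
  set D := ⁅C, C⁆ with hD
  have hsurj := QuotientGroup.mk'_surjective D
  set H2 := (H.normalCore ⊔ C.map (QuotientGroup.mk' D)).comap (QuotientGroup.mk' D) with hH2
  have hCn : (C.map (QuotientGroup.mk' D)).Normal := ‹C.Normal›.map _ hsurj
  have hle : H.normalCore ⊔ C.map (QuotientGroup.mk' D) ≤ H := sup_le (normalCore_le H) hCH
  have hfi : (H.normalCore ⊔ C.map (QuotientGroup.mk' D)).FiniteIndex :=
    Subgroup.finiteIndex_of_le (le_sup_left : H.normalCore ≤ _)
  have hH2n : H2.Normal := (inferInstance : (H.normalCore ⊔ C.map (QuotientGroup.mk' D)).Normal).comap _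
  have hH2f : H2.FiniteIndex :=
    ⟨by rw [hH2, index_comap_of_surjective _ hsurj]; exact hfi.index_ne_zero⟩
  have hle2 : C ≤ H2 := by
    intro a ha
    exact mem_sup_right (mem_map_of_mem _ ha)
  obtain ⟨c, hc⟩ := (Subgroup.isNilpotent_iff_lowerCentralSeries C).1 hC
  have h1 : H2.lowerCentralSeries n ≤ ⁅C, C⁆ := by
    intro a ha
    have h2 := lcs_map (QuotientGroup.mk' D) H2 H ((map_comap_le _ _).trans hle) n
      (mem_map_of_mem _ ha)
    rw [hn, mem_bot] at h2
    exact (QuotientGroup.eq_one_iff a).1 h2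
  obtain ⟨m, hm⟩ := H648R4.hall hle2 hc h1
  exact ⟨H2, hH2f, hle2, hH2n, m, hm⟩

lemma isMulComm_map (C : Subgroup G) [C.Normal] :
    IsMulCommutative (C.map (QuotientGroup.mk' ⁅C, C⁆)) := by
  refine ⟨⟨?_⟩⟩
  rintro ⟨_, a, ha, rfl⟩ ⟨_, b, hb, rfl⟩
  apply Subtype.ext
  show QuotientGroup.mk' _ a * QuotientGroup.mk' _ b = QuotientGroup.mk' _ b * QuotientGroup.mk' _ a
  have : ⁅a, b⁆ ∈ ⁅C, C⁆ := commutator_mem_commutator ha hb
  rw [← QuotientGroup.eq_one_iff, commutatorElement_def] at this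
  simp only [QuotientGroup.mk_mul, QuotientGroup.mk_inv] at this
  rw [mul_inv_eq_one, mul_inv_eq_iff_eq_mul] at this
  exact this

end Lift

lemma Dig_of_two_pow {G : Type u} [Group G] {S : Set G} {L : ℕ}
    (h : ∀ n, 2 ^ n ≤ Nat.card ↥(S ^ n) ^ L) : Dig S L :=
  ⟨2, two_ne_zero, H746UG.two_not_root, fun n => (H746UG.card_DS_le _ _).trans (h n)⟩

section Fin

variable {G : Type u} [Group G]

/-- `C` nilpotent and the derived subgroup of `G / C` finite -/
theorem excFin (C : Subgroup G) [C.Normal] (hC : Group.IsNilpotent C) {S : Set G}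
    (hfin : S.Finite) (hgen : closure S = ⊤) (hsym : S⁻¹ = S) [hf1 : Finite (gam (G ⧸ C) 1)]
    {κ : ℕ} (hκ : GenBd C κ) (r : ℕ) (hr : derivedSeries G (r + 1) ≤ C) :
    Dig S (4 ^ r * (2 * κ + 6)) ∨
      ∃ H : Subgroup G, H.FiniteIndex ∧ C ≤ H ∧ H.Normal ∧ ∃ n, H.lowerCentralSeries n = ⊥ := by
  classical
  by_cases hne : S.Nonempty
  swap
  · right
    rw [Set.not_nonempty_iff_eq_empty] at hne
    subst hne
    rw [Subgroup.closure_empty] at hgen
    refine ⟨⊤, inferInstance, le_top, inferInstance, 0, ?_⟩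
    show (⊤ : Subgroup G) = ⊥
    exact hgen.symm
  set D := ⁅C, C⁆ with hD
  have hsurj := QuotientGroup.mk'_surjective D
  set π := QuotientGroup.mk' D with hπ
  set A := C.map π with hA
  have hAn : A.Normal := ‹C.Normal›.map _ hsurj
  have hAc : IsMulCommutative A := isMulComm_map C
  have hgen' : closure (π '' S) = ⊤ := by
    rw [← MonoidHom.map_closure, hgen, ← MonoidHom.range_eq_map]
    exact MonoidHom.range_eq_top.2 hsurj
  have hsym' : (π '' S)⁻¹ = π '' S := by
    ext x
    rw [Set.mem_inv]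
    constructor
    · rintro ⟨y, hy, he⟩
      refine ⟨y⁻¹, ?_, by rw [map_inv, he, inv_inv]⟩
      rw [← hsym]; simpa using hy
    · rintro ⟨y, hy, rfl⟩
      refine ⟨y⁻¹, ?_, by rw [map_inv]⟩
      rw [← hsym]; simpa using hy
  have hf1' : Finite (gam ((G ⧸ D) ⧸ A) 1) := by
    let φ : (G ⧸ C) →* ((G ⧸ D) ⧸ A) := QuotientGroup.map C A π (Subgroup.le_comap_map _ _)
    have hφ : Function.Surjective φ := by
      intro x
      obtain ⟨x, rfl⟩ := QuotientGroup.mk_surjective x
      obtain ⟨x, rfl⟩ := hsurj x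
      exact ⟨QuotientGroup.mk x, rfl⟩
    rw [gam_map hφ 1]
    exact Set.Finite.image _ (Set.toFinite _)
  have hκ' : GenBd A κ := hκ.map hsurj
  have hr' : derivedSeries (G ⧸ D) (r + 1) ≤ A := by
    rw [← map_derivedSeries_eq hsurj]
    exact map_mono hr
  by_cases hfg : A.FG
  swap
  · left
    have hGfg : Group.FG (G ⧸ D) := ⟨⟨(hfin.image π).toFinset, by
      rw [Set.Finite.coe_toFinset]; exact hgen'⟩⟩
    have hfc : Finite (commutator ((G ⧸ D) ⧸ A)) := hf1'
    have hfi := H746UG.center_fi_of_finite A hfc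
    have hp := H746UG.abelian_case (π '' S) (hfin.image _) hgen' A hfg
    have h3 : Dig (π '' S) 3 := Dig_of_two_pow (H746UG.growth _ (hfin.image _) hp)
    refine Dig_mono hfin hne ?_ (Dig_of_map π hfin h3)
    have : 1 ≤ 4 ^ r := Nat.one_le_pow _ _ (by norm_num)
    nlinarith
  have hAfg2 : Group.FG A := (Group.fg_iff_subgroup_fg A).2 hfg
  have hMfin : Module.Finite ℤ (Additive A) := by
    rw [Module.Finite.iff_addGroup_fg]
    infer_instance
  have key : Dig (π '' S) (4 ^ r * (2 * κ + 6)) ∨ UU (H746UG.th A) ⊥ := by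
    rcases r with _ | r
    · rcases core1 A (hfin.image π) hgen' hsym' hr' with h | h
      · refine Or.inl (Dig_mono (hfin.image π) (hne.image π) ?_ h)
        rw [pow_zero]; omega
      · exact Or.inr h
    · rcases core2 A (hfin.image π) hgen' hsym' hκ' r hr' with h | h
      · refine Or.inl (Dig_mono (hfin.image π) (hne.image π) ?_ h)
        have h1 := Lam_eq κ r
        rw [pow_succ]
        have h2 : 4 ^ r * 4 * (2 * κ + 6) = 4 * (4 ^ r * (2 * κ + 6)) := by ring
        rw [h2, ← h1]; omega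
      · exact Or.inr h
  rcases key with h | h
  · exact Or.inl (Dig_of_map π hfin h)
  right
  obtain ⟨N, hNf, hAN, hN1⟩ := center_pre (hfin.image π) hgen' A
  obtain ⟨H, hHf, hAH, n, hn⟩ := vn_of_UU A hAN hN1 h
  exact vn_lift C hC hAH hn

end Fin

end Pool.Agent.H342.LD
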