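import Pool.Agent.H342.LD.Fit
import Pool.Agent.H342.LD.VN

/-! Helper file (helper342): groups whose derived subgroup is virtually nilpotent. -/

set_option autoImplicit false

namespace Pool.Agent.H342.LD

open Subgroup Polynomial
open Pool.Agent.H785R3.GrowthA
open scoped Pointwise commutatorElement IsMulCommutative

universe u

lemma lcs_map_eq {G H : Type u} [Group G] [Group H] (f : G →* H) (N : Subgroup G) :
    ∀ i : ℕ, (N.lowerCentralSeries i).map f = (N.map f).lowerCentralSeries i
  | 0 => rfl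
  | i + 1 => by
    show (⁅N.lowerCentralSeries i, N⁆).map f = ⁅(N.map f).lowerCentralSeries i, N.map f⁆
    rw [Subgroup.map_commutator, lcs_map_eq f N i]

/-- a virtually nilpotent normal subgroup contains a nilpotent subgroup of finite index that is
normal in the whole group -/
theorem exists_char {G : Type u} [Group G] (H : Subgroup G) [hH : H.Normal]
    (hv : Group.IsVirtuallyNilpotent H) :
    ∃ (W : Subgroup G) (_ : W.Normal), W ≤ H ∧ (∃ n, W.lowerCentralSeries n = ⊥) ∧
      Finite (H.map (QuotientGroup.mk' W)) := by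
  classical
  obtain ⟨N, hN, hNf⟩ := hv
  -- a nilpotent normal subgroup of minimal index
  have hex : ∃ m : ℕ, ∃ W : Subgroup H, W.Normal ∧ W.FiniteIndex ∧
      (∃ n, W.lowerCentralSeries n = ⊥) ∧ W.index = m := by
    obtain ⟨n, hn⟩ := (Subgroup.isNilpotent_iff_lowerCentralSeries N).1 hN
    refine ⟨_, N.normalCore, inferInstance, inferInstance, ⟨n, ?_⟩, rfl⟩
    rw [eq_bot_iff, ← hn]
    have : ∀ i, N.normalCore.lowerCentralSeries i ≤ N.lowerCentralSeries i := by
      intro i
      induction i with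
      | zero => exact normalCore_le N
      | succ i ih => exact commutator_mono ih (normalCore_le N)
    exact this n
  obtain ⟨W, hWn, hWf, hWnil, hWi⟩ := Nat.find_spec hex
  have hmin : ∀ W' : Subgroup H, W'.Normal → W'.FiniteIndex →
      (∃ n, W'.lowerCentralSeries n = ⊥) → W.index ≤ W'.index := by
    intro W' h1 h2 h3
    rw [hWi]
    exact Nat.find_min' hex ⟨W', h1, h2, h3, rfl⟩
  have hinv : ∀ φ : H ≃* H, W.map φ.toMonoidHom ≤ W := by
    intro φ
    have h1 : (W.map φ.toMonoidHom).Normal := hWn.map _ φ.surjective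
    have h2 : ∃ n, (W.map φ.toMonoidHom).lowerCentralSeries n = ⊥ := by
      obtain ⟨n, hn⟩ := hWnil
      refine ⟨n, ?_⟩
      rw [← lcs_map_eq, hn, Subgroup.map_bot]
    have h3 : (W ⊔ W.map φ.toMonoidHom).FiniteIndex := Subgroup.finiteIndex_of_le le_sup_left
    have h4 := hmin _ inferInstance h3 (fitting hWnil h2)
    by_contra hcon
    have h5 : W < W ⊔ W.map φ.toMonoidHom := left_lt_sup.2 hcon
    exact absurd (Subgroup.index_strictAnti h5) (not_lt.2 h4)
  have hWn' : (W.map H.subtype).Normal := by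
    constructor
    rintro _ ⟨w, hw, rfl⟩ g
    have h1 : MulAut.conjNormal g w ∈ W := hinv (MulAut.conjNormal g) (mem_map_of_mem _ hw)
    refine ⟨_, h1, ?_⟩
    show ((MulAut.conjNormal g w : H) : G) = g * w * g⁻¹
    rw [MulAut.conjNormal_apply]
  refine ⟨W.map H.subtype, hWn', ?_, ?_, ?_⟩
  · rintro _ ⟨w, _, rfl⟩; exact w.2
  · obtain ⟨n, hn⟩ := hWnil
    refine ⟨n, ?_⟩
    rw [← lcs_map_eq, hn, Subgroup.map_bot]
  · have hfq : Finite (H ⧸ W) := Subgroup.finite_quotient_of_finiteIndex
    let φ : (H ⧸ W) →* (G ⧸ W.map H.subtype) :=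
      QuotientGroup.map W (W.map H.subtype) H.subtype (Subgroup.le_comap_map _ _)
    have : H.map (QuotientGroup.mk' (W.map H.subtype)) ≤ φ.range := by
      rintro _ ⟨h, hh, rfl⟩
      exact ⟨QuotientGroup.mk ⟨h, hh⟩, rfl⟩
    have hfr : Finite φ.range := Set.Finite.to_subtype (Set.finite_range φ)
    exact Finite.of_injective (Subgroup.inclusion this) (Subgroup.inclusion_injective this)

/-- **The exceptional case**: the derived subgroup is virtually nilpotent. -/
theorem exc {G : Type u} [Group G] (C : Subgroup G) [hCn : C.Normal]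
    (hC : ∃ n, C.lowerCentralSeries n = ⊥)
    {S : Set G} (hfin : S.Finite) (hgen : closure S = ⊤) (hsym : S⁻¹ = S)
    (hv : Group.IsVirtuallyNilpotent (gam G 1))
    {κ : ℕ} (hκ : GenBd C κ) (r : ℕ) (hr : derivedSeries G (r + 1) ≤ C) :
    Dig S (4 ^ r * (2 * κ + 6)) ∨ Group.IsVirtuallyNilpotent G := by
  obtain ⟨W, hWn, hWH, hWnil, hWf⟩ := exists_char (gam G 1) hv
  have hnil : Group.IsNilpotent (C ⊔ W : Subgroup G) :=
    (Subgroup.isNilpotent_iff_lowerCentralSeries _).2 (fitting hC hWnil)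
  have hf1 : Finite (gam (G ⧸ (C ⊔ W)) 1) := by
    let φ : (G ⧸ W) →* (G ⧸ (C ⊔ W)) := QuotientGroup.map W (C ⊔ W) (MonoidHom.id G)
      (by rw [Subgroup.comap_id]; exact le_sup_right)
    have hφ : Function.Surjective φ := by
      intro x
      obtain ⟨x, rfl⟩ := QuotientGroup.mk_surjective x
      exact ⟨QuotientGroup.mk x, rfl⟩
    rw [gam_map hφ 1]
    have : Finite (gam (G ⧸ W) 1) := by
      rw [gam_map (QuotientGroup.mk'_surjective W) 1]; exact hWf
    exact Set.Finite.image _ (Set.toFinite _)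
  rcases excFin (C ⊔ W) hnil hfin hgen hsym (hκ.mono le_sup_left) r (hr.trans le_sup_left) with
    h | ⟨H, hHf, _, _, hn⟩
  · exact Or.inl h
  · exact Or.inr ⟨H, (Subgroup.isNilpotent_iff_lowerCentralSeries H).2 hn, hHf⟩

end Pool.Agent.H342.LD
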