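import Mathlib

/-! Helper file (helper342): Fitting's theorem and characteristic nilpotent subgroups of
finite index. -/

set_option autoImplicit false

namespace Pool.Agent.H342.LD

open Subgroup
open scoped commutatorElement

universe u

variable {G : Type u} [Group G]

lemma comm_sup {X A B T : Subgroup G} [hT : T.Normal] (h1 : ⁅X, A⁆ ≤ T) (h2 : ⁅X, B⁆ ≤ T) :
    ⁅X, A ⊔ B⁆ ≤ T := by
  rw [commutator_le] at h1 h2 ⊢
  intro x hx h hh
  let St : Subgroup G :=
    { carrier := {h | ⁅x, h⁆ ∈ T}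
      mul_mem' := by
        intro a c ha hc
        show ⁅x, a * c⁆ ∈ T
        have e : ⁅x, a * c⁆ = ⁅x, a⁆ * (a * ⁅x, c⁆ * a⁻¹) := by
          simp only [commutatorElement_def]; group
        rw [e]; exact mul_mem ha (hT.conj_mem _ hc a)
      one_mem' := by
        show ⁅x, 1⁆ ∈ T
        rw [commutatorElement_one_right]; exact one_mem _
      inv_mem' := by
        intro a ha
        show ⁅x, a⁻¹⁆ ∈ T
        have e : ⁅x, a⁻¹⁆ = a⁻¹ * ⁅x, a⁆⁻¹ * a⁻¹⁻¹ := by
          simp only [commutatorElement_def]; group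
        rw [e]; exact hT.conj_mem _ (inv_mem ha) a⁻¹ }
  have h3 : A ⊔ B ≤ St := sup_le (fun a ha => h1 x hx a ha) (fun a ha => h2 x hx a ha)
  exact h3 hh

lemma comm_iSup {ι : Sort*} {X : ι → Subgroup G} {Y T : Subgroup G} [hT : T.Normal]
    (h1 : ∀ i, ⁅X i, Y⁆ ≤ T) : ⁅⨆ i, X i, Y⁆ ≤ T := by
  rw [commutator_le]
  intro x hx y hy
  let St : Subgroup G :=
    { carrier := {x | ⁅x, y⁆ ∈ T}
      mul_mem' := by
        intro a c ha hc
        show ⁅a * c, y⁆ ∈ T
        have e : ⁅a * c, y⁆ = (a * ⁅c, y⁆ * a⁻¹) * ⁅a, y⁆ := by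
          simp only [commutatorElement_def]; group
        rw [e]; exact mul_mem (hT.conj_mem _ hc a) ha
      one_mem' := by
        show ⁅1, y⁆ ∈ T
        rw [commutatorElement_one_left]; exact one_mem _
      inv_mem' := by
        intro a ha
        show ⁅a⁻¹, y⁆ ∈ T
        have e : ⁅a⁻¹, y⁆ = a⁻¹ * ⁅a, y⁆⁻¹ * a⁻¹⁻¹ := by
          simp only [commutatorElement_def]; group
        rw [e]; exact hT.conj_mem _ (inv_mem ha) a⁻¹ }
  have h3 : ⨆ i, X i ≤ St := iSup_le (fun i a ha => (commutator_le.1 (h1 i)) a ha y hy)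
  exact h3 hx

/-- relative lower central series -/
def rel (A : Subgroup G) : ℕ → Subgroup G
  | 0 => ⊤
  | n + 1 => ⁅rel A n, A⁆

lemma rel_normal (A : Subgroup G) [A.Normal] (n : ℕ) : (rel A n).Normal := by
  induction n with
  | zero => show (⊤ : Subgroup G).Normal; infer_instance
  | succ n ih => show (⁅rel A n, A⁆).Normal; infer_instance

lemma rel_le (A : Subgroup G) [A.Normal] (n : ℕ) : rel A (n + 1) ≤ A.lowerCentralSeries n := by
  induction n with
  | zero => exact commutator_le_right _ _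
  | succ n ih => exact commutator_mono ih le_rfl

lemma rel_antitone (A : Subgroup G) [A.Normal] {n m : ℕ} (h : n ≤ m) : rel A m ≤ rel A n := by
  induction h with
  | refl => exact le_rfl
  | step _ ih =>
    have := rel_normal A
    exact (commutator_le_left _ _).trans ih

/-- the pieces -/
def pie (A B : Subgroup G) (n : ℕ) : Subgroup G :=
  ⨆ p : {p : ℕ × ℕ // p.1 + p.2 = n}, rel A p.1.1 ⊓ rel B p.1.2

lemma pie_normal (A B : Subgroup G) [A.Normal] [B.Normal] (n : ℕ) : (pie A B n).Normal := by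
  have h1 := rel_normal A
  have h2 := rel_normal B
  unfold pie
  infer_instance

lemma pie_comm (A B : Subgroup G) [A.Normal] [B.Normal] (n : ℕ) :
    ⁅pie A B n, A ⊔ B⁆ ≤ pie A B (n + 1) := by
  have h1 := rel_normal A
  have h2 := rel_normal B
  have h3 := pie_normal A B (n + 1)
  apply comm_sup
  · refine comm_iSup (fun p => ?_)
    refine le_trans ?_ (le_iSup (fun p : {p : ℕ × ℕ // p.1 + p.2 = n + 1} =>
      rel A p.1.1 ⊓ rel B p.1.2) ⟨(p.1.1 + 1, p.1.2), by have := p.2; simp only; omega⟩)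
    refine le_inf (commutator_mono inf_le_left le_rfl) ?_
    exact (commutator_mono inf_le_right le_rfl).trans (commutator_le_left _ _)
  · refine comm_iSup (fun p => ?_)
    refine le_trans ?_ (le_iSup (fun p : {p : ℕ × ℕ // p.1 + p.2 = n + 1} =>
      rel A p.1.1 ⊓ rel B p.1.2) ⟨(p.1.1, p.1.2 + 1), by have := p.2; simp only; omega⟩)
    refine le_inf ?_ (commutator_mono inf_le_right le_rfl)
    exact (commutator_mono inf_le_left le_rfl).trans (commutator_le_left _ _)

/-- **Fitting's theorem** -/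
theorem fitting {A B : Subgroup G} [A.Normal] [B.Normal] (hA : ∃ n, A.lowerCentralSeries n = ⊥)
    (hB : ∃ n, B.lowerCentralSeries n = ⊥) : ∃ n, (A ⊔ B).lowerCentralSeries n = ⊥ := by
  obtain ⟨n, hn⟩ := hA
  obtain ⟨m, hm⟩ := hB
  have h1 : ∀ i, (A ⊔ B).lowerCentralSeries i ≤ pie A B i := by
    intro i
    induction i with
    | zero =>
      refine le_trans le_top ?_
      refine le_trans ?_ (le_iSup (fun p : {p : ℕ × ℕ // p.1 + p.2 = 0} =>
        rel A p.1.1 ⊓ rel B p.1.2) ⟨(0, 0), rfl⟩)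
      exact le_inf le_rfl le_rfl
    | succ i ih => exact (commutator_mono ih le_rfl).trans (pie_comm A B i)
  refine ⟨n + m + 2, ?_⟩
  rw [eq_bot_iff]
  refine (h1 _).trans ?_
  refine iSup_le (fun p => ?_)
  rcases Nat.lt_or_ge n p.1.1 with h | h
  · refine inf_le_left.trans ?_
    rw [← hn]
    exact (rel_antitone A (show n + 1 ≤ p.1.1 by omega)).trans (rel_le A n)
  · have h2 : m + 1 ≤ p.1.2 := by have := p.2; omega
    refine inf_le_right.trans ?_
    rw [← hm]
    exact (rel_antitone B h2).trans (rel_le B m)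

end Pool.Agent.H342.LD
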