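import Mathlib

/-! Helper file (helper342): crossed homomorphisms, noise that commutes. -/

set_option autoImplicit false

namespace Pool.Agent.H342.LD

open Subgroup

universe u

section Crossed

variable {G : Type u} {M : Type*} [Group G] [AddCommGroup M]
variable (ρ : G →* Module.End ℤ M) (b : G → M)

/-- `b` is a crossed homomorphism -/
def Cr : Prop := ∀ g h : G, b (g * h) = b g + ρ g (b h)

variable {ρ b}

lemma rho_inv_apply (g : G) (v : M) : ρ g⁻¹ (ρ g v) = v := by
  rw [← Module.End.mul_apply, ← map_mul, inv_mul_cancel, map_one]; rfl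

lemma rho_apply_inv (g : G) (v : M) : ρ g (ρ g⁻¹ v) = v := by
  rw [← Module.End.mul_apply, ← map_mul, mul_inv_cancel, map_one]; rfl

lemma rho_mul_apply (g h : G) (v : M) : ρ (g * h) v = ρ g (ρ h v) := by
  rw [map_mul]; rfl

lemma rho_inj' (g : G) {v w : M} (h : ρ g v = ρ g w) : v = w := by
  rw [← rho_inv_apply (ρ := ρ) g v, h, rho_inv_apply]

namespace Cr

variable (hb : Cr ρ b)
include hb

lemma one : b 1 = 0 := by
  have h := hb 1 1
  rw [one_mul, map_one] at h
  have h2 : b 1 = b 1 + b 1 := h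
  exact (left_eq_add.mp h2)

lemma inv (g : G) : b g⁻¹ = -(ρ g⁻¹ (b g)) := by
  have h := hb g⁻¹ g
  rw [inv_mul_cancel, hb.one] at h
  exact eq_neg_of_add_eq_zero_left h.symm

lemma conj_of_zero {X : G} (hX : b X = 0) (g : G) : b (X * g * X⁻¹) = ρ X (b g) := by
  rw [hb, hb, hb.inv, hX, map_zero, neg_zero, map_zero, add_zero, zero_add]

lemma inv_zero {X : G} (hX : b X = 0) : b X⁻¹ = 0 := by
  rw [hb.inv, hX, map_zero, neg_zero]

lemma pow_zero {X : G} (hX : b X = 0) (n : ℕ) : b (X ^ n) = 0 := by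
  induction n with
  | zero => rw [_root_.pow_zero]; exact hb.one
  | succ n ih => rw [pow_succ, hb, ih, hX, map_zero, add_zero]

/-- the elements on which `b` vanishes -/
def zer : Subgroup G where
  carrier := {g | b g = 0}
  mul_mem' := by
    intro g h hg hh
    show b (g * h) = 0
    rw [hb, show b g = 0 from hg, show b h = 0 from hh, map_zero, add_zero]
  one_mem' := hb.one
  inv_mem' := by
    intro g hg
    exact hb.inv_zero hg

lemma mem_zer {g : G} : g ∈ hb.zer ↔ b g = 0 := Iff.rfl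

variable {Q : Type*} [Group Q] (π : G →* Q) (ρq : Q →* Module.End ℤ M)
  (hρ : ∀ g, ρ g = ρq (π g))

/-- the elements that act trivially -/

def kr (_hρ : ∀ g, ρ g = ρq (π g)) : Subgroup G where
  carrier := {g | b g = 0 ∧ π g = 1}
  mul_mem' := by
    rintro g h ⟨hg, hg'⟩ ⟨hh, hh'⟩
    refine ⟨?_, by rw [map_mul, hg', hh', one_mul]⟩
    rw [hb, hg, hh, map_zero, add_zero]
  one_mem' := ⟨hb.one, map_one _⟩
  inv_mem' := by
    rintro g ⟨hg, hg'⟩
    exact ⟨hb.inv_zero hg, by rw [map_inv, hg', inv_one]⟩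

lemma mem_kr {g : G} : g ∈ hb.kr π ρq hρ ↔ b g = 0 ∧ π g = 1 := Iff.rfl

lemma kr_normal : (hb.kr π ρq hρ).Normal := by
  constructor
  rintro n ⟨hn, hn'⟩ g
  refine ⟨?_, by rw [map_mul, map_mul, hn', mul_one, ← map_mul, mul_inv_cancel, map_one]⟩
  rw [hb, hb, hn, map_zero, add_zero, hb.inv, map_neg, hρ, map_mul, hn', mul_one, ← hρ,
    rho_apply_inv, add_neg_cancel]

/-- elements with the same class act in the same way -/
lemma eq_of_kr {g h : G} (hgh : g * h⁻¹ ∈ hb.kr π ρq hρ) : b g = b h ∧ π g = π h := by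
  obtain ⟨h1, h2⟩ := hgh
  have h3 : π g = π h := by
    rw [map_mul, map_inv, mul_inv_eq_one] at h2
    exact h2
  refine ⟨?_, h3⟩
  rw [hb, hb.inv, map_neg, hρ g, h3, ← hρ, rho_apply_inv] at h1
  rw [← sub_eq_add_neg, sub_eq_zero] at h1
  exact h1

lemma kr_of_eq {g h : G} (h1 : b g = b h) (h2 : π g = π h) : g * h⁻¹ ∈ hb.kr π ρq hρ := by
  refine ⟨?_, by rw [map_mul, map_inv, h2, mul_inv_cancel]⟩
  rw [hb, hb.inv, map_neg, hρ g, h2, ← hρ, rho_apply_inv, h1, add_neg_cancel]

include ρq hρ in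
/-- commutation of generators gives commutation -/
lemma comm_of_gen {Y : Set G} (hY : ∀ y ∈ Y, ∀ y' ∈ Y, b (y * y') = b (y' * y) ∧
    π (y * y') = π (y' * y)) {g h : G} (hg : g ∈ closure Y) (hh : h ∈ closure Y) :
    b (g * h) = b (h * g) ∧ π (g * h) = π (h * g) := by
  have hn := hb.kr_normal π ρq hρ
  set N := hb.kr π ρq hρ with hN
  have h1 : ∀ x ∈ (QuotientGroup.mk' N) '' Y, ∀ y ∈ (QuotientGroup.mk' N) '' Y,
      x * y = y * x := by
    rintro _ ⟨x, hx, rfl⟩ _ ⟨y, hy, rfl⟩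
    rw [← map_mul, ← map_mul]
    obtain ⟨h3, h4⟩ := hY x hx y hy
    have h5 := hb.kr_of_eq π ρq hρ h3 h4
    rw [← hN] at h5
    rw [← mul_inv_eq_one, ← map_inv, ← map_mul]
    exact (QuotientGroup.eq_one_iff _).mpr h5
  have h2 := Subgroup.isMulCommutative_closure h1
  have hg' : QuotientGroup.mk' N g ∈ closure ((QuotientGroup.mk' N) '' Y) := by
    rw [← MonoidHom.map_closure]; exact mem_map_of_mem _ hg
  have hh' : QuotientGroup.mk' N h ∈ closure ((QuotientGroup.mk' N) '' Y) := by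
    rw [← MonoidHom.map_closure]; exact mem_map_of_mem _ hh
  have h6 := congrArg Subtype.val (h2.is_comm.comm ⟨_, hg'⟩ ⟨_, hh'⟩)
  have h7 : QuotientGroup.mk' N g * QuotientGroup.mk' N h =
    QuotientGroup.mk' N h * QuotientGroup.mk' N g := h6
  rw [← map_mul, ← map_mul, ← mul_inv_eq_one, ← map_inv, ← map_mul] at h7
  exact hb.eq_of_kr π ρq hρ ((QuotientGroup.eq_one_iff _).mp h7)

end Cr

/-- If the window `y 0, …, y K` of conjugates of `c` by `X` acts by commuting affine maps, then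
`b c` is fixed by the linear parts. -/
theorem noise (hb : Cr ρ b) {Q : Type*} [Group Q] (π : G →* Q) (ρq : Q →* Module.End ℤ M)
    (hρ : ∀ g, ρ g = ρq (π g)) (htf : ∀ n : ℕ, 0 < n → ∀ v : M, n • v = 0 → v = 0)
    {X c : G} (hX : b X = 0) (hX1 : ∀ v, ρ X v = v → v = 0) (K : ℕ) (hK : 0 < K)
    (hfin : Finite (closure ((fun i : ℕ => π (X ^ i * c * (X ^ i)⁻¹)) '' Set.Iio K)))
    (hwin : π (X ^ K * c * (X ^ K)⁻¹) ∈
      closure ((fun i : ℕ => π (X ^ i * c * (X ^ i)⁻¹)) '' Set.Iio K))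
    (hcomm : ∀ i ≤ K, ∀ j ≤ K,
      b (X ^ i * c * (X ^ i)⁻¹ * (X ^ j * c * (X ^ j)⁻¹)) =
        b (X ^ j * c * (X ^ j)⁻¹ * (X ^ i * c * (X ^ i)⁻¹)) ∧
      π (X ^ i * c * (X ^ i)⁻¹ * (X ^ j * c * (X ^ j)⁻¹)) =
        π (X ^ j * c * (X ^ j)⁻¹ * (X ^ i * c * (X ^ i)⁻¹))) :
    (∀ r ∈ closure ((fun i : ℕ => π (X ^ i * c * (X ^ i)⁻¹)) '' Set.Iio K), ρq r (b c) = b c) ∧
    (∀ r ∈ closure ((fun i : ℕ => π (X ^ i * c * (X ^ i)⁻¹)) '' Set.Iio K),
      (π X)⁻¹ * r * π X ∈ closure ((fun i : ℕ => π (X ^ i * c * (X ^ i)⁻¹)) '' Set.Iio K)) := by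
  classical
  set y : ℕ → G := fun i => X ^ i * c * (X ^ i)⁻¹ with hy
  have hyX : ∀ i, X * y i * X⁻¹ = y (i + 1) := by
    intro i
    show X * (X ^ i * c * (X ^ i)⁻¹) * X⁻¹ = X ^ (i + 1) * c * (X ^ (i + 1))⁻¹
    rw [pow_succ']; group
  have hy0 : y 0 = c := by show X ^ 0 * c * (X ^ 0)⁻¹ = c; simp
  set R : Subgroup Q := closure ((fun i : ℕ => π (y i)) '' Set.Iio K) with hR
  have hyR : ∀ i ≤ K, π (y i) ∈ R := by
    intro i hi
    rcases Nat.lt_or_ge i K with h | h
    · exact subset_closure ⟨i, h, rfl⟩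
    · have : i = K := le_antisymm hi h
      subst this; exact hwin
  have hcy : ∀ i, (MulAut.conj (π X)).toMonoidHom (π (y i)) = π (y (i + 1)) := by
    intro i
    rw [← hyX, map_mul π (X * y i) X⁻¹, map_mul π X (y i), map_inv]
    rfl
  -- conjugation by `X`
  have hle : R.map (MulAut.conj (π X)).toMonoidHom ≤ R := by
    rw [hR, MonoidHom.map_closure, closure_le]
    rintro _ ⟨_, ⟨i, hi, rfl⟩, rfl⟩
    show (MulAut.conj (π X)).toMonoidHom (π (y i)) ∈ R
    rw [hcy]
    exact hyR _ hi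
  have hcard : Nat.card (R.map (MulAut.conj (π X)).toMonoidHom) = Nat.card R :=
    Nat.card_congr (R.equivMapOfInjective _ (MulAut.conj (π X)).injective).toEquiv.symm
  have heq : R.map (MulAut.conj (π X)).toMonoidHom = R :=
    Subgroup.eq_of_le_of_card_ge hle hcard.ge
  have hR1 : R = closure ((fun i : ℕ => π (y (i + 1))) '' Set.Iio K) := by
    rw [← heq]
    conv_lhs => rw [hR, MonoidHom.map_closure, ← Set.image_comp]
    congr 1
    apply Set.image_congr
    intro i _
    exact hcy i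
  have hconj : ∀ r ∈ R, π X * r * (π X)⁻¹ ∈ R := by
    intro r hr
    have : (MulAut.conj (π X)).toMonoidHom r ∈ R.map (MulAut.conj (π X)).toMonoidHom :=
      mem_map_of_mem _ hr
    rw [heq] at this
    exact this
  have hconj' : ∀ r ∈ R, (π X)⁻¹ * r * π X ∈ R := by
    intro r hr
    rw [← heq] at hr
    obtain ⟨r', hr', rfl⟩ := hr
    have : (π X)⁻¹ * (MulAut.conj (π X)).toMonoidHom r' * π X = r' := by
      show (π X)⁻¹ * (π X * r' * (π X)⁻¹) * π X = r'
      group
    rw [this]; exact hr'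
  refine ⟨?_, hconj'⟩
  -- commutation
  set N : Subgroup G := closure (y '' Set.Iic K) with hN
  have hcN : ∀ g ∈ N, ∀ h ∈ N, b (g * h) = b (h * g) ∧ π (g * h) = π (h * g) := by
    intro g hg h hh
    refine hb.comm_of_gen π ρq hρ (Y := y '' Set.Iic K) ?_ hg hh
    rintro _ ⟨i, hi, rfl⟩ _ ⟨j, hj, rfl⟩
    exact hcomm i hi j hj
  have hNR : ∀ g ∈ N, π g ∈ R := by
    intro g hg
    have h1 : N ≤ R.comap π := by
      rw [hN, closure_le]
      rintro _ ⟨i, hi, rfl⟩
      exact hyR i hi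
    exact h1 hg
  have hlift : ∀ r : R, ∃ g ∈ N, π g = r := by
    intro r
    have h1 : R ≤ N.map π := by
      rw [hR, closure_le]
      rintro _ ⟨i, hi, rfl⟩
      exact ⟨y i, subset_closure ⟨i, le_of_lt (show i < K from hi), rfl⟩, rfl⟩
    exact h1 r.2
  choose n hnN hnπ using hlift
  have hRf : Fintype R := Fintype.ofFinite R
  set m : ℕ := Fintype.card R with hm
  have hmpos : 0 < m := Fintype.card_pos
  set e : Module.End ℤ M := ∑ r : R, ρq r with he
  set q : M := ∑ r : R, b (n r) with hq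
  have hRcomm : ∀ r ∈ R, ∀ s ∈ R, r * s = s * r := by
    intro r hr s hs
    have h1 := (hcN _ (hnN ⟨r, hr⟩) _ (hnN ⟨s, hs⟩)).2
    rw [map_mul, map_mul, hnπ, hnπ] at h1
    exact h1
  have her : ∀ r ∈ R, ρq r * e = e := by
    intro r hr
    rw [he, Finset.mul_sum]
    have h1 : ∀ s : R, ρq r * ρq s = ρq ((⟨r, hr⟩ * s : R) : Q) := by
      intro s; rw [← map_mul]; rfl
    simp_rw [h1]
    exact Fintype.sum_equiv (Equiv.mulLeft (⟨r, hr⟩ : R)) _ _ (fun s => rfl)
  have hre : ∀ r ∈ R, e * ρq r = e := by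
    intro r hr
    rw [he, Finset.sum_mul]
    have h1 : ∀ s : R, ρq s * ρq r = ρq ((s * ⟨r, hr⟩ : R) : Q) := by
      intro s; rw [← map_mul]; rfl
    simp_rw [h1]
    exact Fintype.sum_equiv (Equiv.mulRight (⟨r, hr⟩ : R)) _ _ (fun s => rfl)
  have hee : e * e = (m : ℤ) • e := by
    conv_lhs => rw [he, Finset.sum_mul]
    rw [Finset.sum_congr rfl (fun (r : R) _ => her r r.2), Finset.sum_const, Finset.card_univ, hm,
      natCast_zsmul]
  have heX : e * ρ X = ρ X * e := by
    have h1 : ρ X * e * ρ X⁻¹ = e := by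
      rw [he, Finset.mul_sum, Finset.sum_mul]
      have h2 : ∀ r : R, ρ X * ρq r * ρ X⁻¹ = ρq ((⟨π X * r * (π X)⁻¹, hconj r r.2⟩ : R) : Q) := by
        intro r
        rw [hρ X, hρ X⁻¹, map_inv π, ← map_mul, ← map_mul]
      rw [Finset.sum_congr rfl (fun (r : R) _ => h2 r)]
      let E : R ≃ R :=
        { toFun := fun (r : R) => (⟨π X * r * (π X)⁻¹, hconj r r.2⟩ : R)
          invFun := fun (r : R) => (⟨(π X)⁻¹ * r * π X, hconj' r r.2⟩ : R)
          left_inv := fun (r : R) => Subtype.ext (by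
            show (π X)⁻¹ * (π X * (r : Q) * (π X)⁻¹) * π X = r
            group)
          right_inv := fun (r : R) => Subtype.ext (by
            show π X * ((π X)⁻¹ * (r : Q) * π X) * (π X)⁻¹ = r
            group) }
      exact Fintype.sum_equiv E _ _ (fun r => rfl)
    calc e * ρ X = ρ X * e * ρ X⁻¹ * ρ X := by rw [h1]
      _ = ρ X * e * (ρ X⁻¹ * ρ X) := by rw [mul_assoc]
      _ = ρ X * e := by rw [← map_mul, inv_mul_cancel, map_one, mul_one]
  set f : Module.End ℤ M := (m : ℤ) • 1 - e with hf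
  have hff : f * f = (m : ℤ) • f := by
    rw [hf, sub_mul, mul_sub, mul_sub, hee]
    simp only [smul_mul_assoc, mul_smul_comm, one_mul, mul_one, smul_sub]
    abel
  have hef : e * f = 0 := by
    rw [hf, mul_sub, hee, mul_smul_comm, mul_one, sub_self]
  have hfX : f * ρ X = ρ X * f := by
    rw [hf, sub_mul, mul_sub, heX, smul_mul_assoc, mul_smul_comm, one_mul, mul_one]
  have hfr : ∀ r ∈ R, f * ρq r = ρq r * f := by
    intro r hr
    rw [hf, sub_mul, mul_sub, her r hr, hre r hr, smul_mul_assoc, mul_smul_comm, one_mul, mul_one]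
  -- the main identity
  have hkey : ∀ g ∈ N, f (b g) = q - ρ g q := by
    intro g hg
    have h1 : ∀ r : R, b g - ρq r (b g) = b (n r) - ρ g (b (n r)) := by
      intro r
      have h2 := (hcN g hg _ (hnN r)).1
      rw [hb, hb] at h2
      rw [← hnπ r, ← hρ, sub_eq_sub_iff_add_eq_add]
      rw [add_comm (b (n r)) (ρ (n r) (b g))] at h2
      rw [h2, add_comm]
    have h3 : ∑ r : R, (b g - ρq r (b g)) = ∑ r : R, (b (n r) - ρ g (b (n r))) :=
      Finset.sum_congr rfl (fun r _ => h1 r)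
    rw [Finset.sum_sub_distrib, Finset.sum_sub_distrib, Finset.sum_const, Finset.card_univ,
      ← map_sum] at h3
    rw [hf, LinearMap.sub_apply, he, LinearMap.sum_apply, LinearMap.smul_apply, Module.End.one_apply,
      natCast_zsmul, hm]
    exact h3
  have hkey2 : ∀ g ∈ N, (m : ℤ) • f (b g) = f q - ρ g (f q) := by
    intro g hg
    have h1 := congrArg f (hkey g hg)
    rw [← Module.End.mul_apply, hff, LinearMap.smul_apply, map_sub] at h1
    rw [h1]
    congr 1
    have h2 := hfr (π g) (hNR g hg)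
    have h3 := congrArg (fun F : Module.End ℤ M => F q) h2
    rw [hρ g]
    exact h3
  set v : M := ρ X (f q) - f q with hv
  have hyN : ∀ i ≤ K, y i ∈ N := fun i hi => subset_closure ⟨i, hi, rfl⟩
  have hfix : ∀ i < K, ρ (y (i + 1)) v = v := by
    intro i hi
    have h1 := hkey2 (y (i + 1)) (hyN _ hi)
    have h2 := hkey2 (y i) (hyN _ hi.le)
    have h3 : b (y (i + 1)) = ρ X (b (y i)) := by rw [← hyX]; exact hb.conj_of_zero hX _
    have h4 : f (ρ X (b (y i))) = ρ X (f (b (y i))) :=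
      congrArg (fun F : Module.End ℤ M => F (b (y i))) hfX
    rw [h3, h4, ← map_zsmul, h2, map_sub] at h1
    have h5 : ρ X (ρ (y i) (f q)) = ρ (y (i + 1)) (ρ X (f q)) := by
      rw [← rho_mul_apply, ← rho_mul_apply, ← hyX]
      congr 2
      group
    rw [h5] at h1
    rw [hv, map_sub]
    rw [sub_eq_sub_iff_add_eq_add] at h1 ⊢
    rw [add_comm, ← h1, add_comm]
  have hfixR : ∀ r ∈ R, ρq r v = v := by
    intro r hr
    let St : Subgroup Q :=
      { carrier := {r | ρq r v = v}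
        mul_mem' := by
          intro r s hr hs
          show ρq (r * s) v = v
          rw [map_mul, Module.End.mul_apply, show ρq s v = v from hs, show ρq r v = v from hr]
        one_mem' := by show ρq 1 v = v; rw [map_one]; rfl
        inv_mem' := by
          intro r hr
          show ρq r⁻¹ v = v
          have hr' : ρq r v = v := hr
          conv_lhs => rw [← hr']
          rw [← Module.End.mul_apply, ← map_mul, inv_mul_cancel, map_one]; rfl }
    have h1 : R ≤ St := by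
      rw [hR1, closure_le]
      rintro _ ⟨i, hi, rfl⟩
      show ρq (π (y (i + 1))) v = v
      rw [← hρ]; exact hfix i hi
    exact h1 hr
  have hev : e v = (m : ℤ) • v := by
    rw [he, LinearMap.sum_apply, Finset.sum_congr rfl (fun (r : R) _ => hfixR r r.2), Finset.sum_const,
      Finset.card_univ, hm, natCast_zsmul]
  have hev0 : e v = 0 := by
    have h1 : v = f (ρ X q - q) := by
      rw [hv, map_sub]
      congr 1
      exact (congrArg (fun F : Module.End ℤ M => F q) hfX).symm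
    rw [h1, ← Module.End.mul_apply, hef]; rfl
  have hv0 : v = 0 := by
    apply htf m hmpos
    rw [← natCast_zsmul, ← hev, hev0]
  have hfq : f q = 0 := by
    apply hX1
    rw [hv, sub_eq_zero] at hv0
    exact hv0
  have hfc : f (b c) = 0 := by
    have h1 := hkey2 c (by rw [← hy0]; exact hyN 0 (Nat.zero_le _))
    rw [hfq, map_zero, sub_zero] at h1
    apply htf m hmpos
    rw [← natCast_zsmul]; exact h1
  have hec : e (b c) = (m : ℤ) • b c := by
    rw [hf, LinearMap.sub_apply, sub_eq_zero] at hfc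
    rw [← hfc]; rfl
  intro r hr
  have h1 : (m : ℤ) • (ρq r (b c)) = (m : ℤ) • b c := by
    rw [← map_zsmul, ← hec, ← Module.End.mul_apply, her r hr]
  have h2 : m • (ρq r (b c) - b c) = 0 := by
    rw [smul_sub, ← natCast_zsmul, ← natCast_zsmul, h1, sub_self]
  exact sub_eq_zero.mp (htf m hmpos _ h2)

end Crossed

end Pool.Agent.H342.LD
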