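import Pool.Agent.H342.LD.Red2

/-! Helper file (helper342): short generating sets of the derived series, the general theorem. -/

set_option autoImplicit false

namespace Pool.Agent.H342.LD

open Subgroup Polynomial
open Pool.Agent.H785R3.GrowthA
open scoped Pointwise commutatorElement IsMulCommutative

universe u

section Es

variable {G : Type u} [Group G]

lemma comm_closure_le {X Y : Set G} {T : Subgroup G} [hT : T.Normal]
    (h : ∀ x ∈ X, ∀ y ∈ Y, x * y * x⁻¹ * y⁻¹ ∈ T) : ⁅closure X, closure Y⁆ ≤ T := by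
  have key : ∀ K : Subgroup G, K.map (QuotientGroup.mk' T) = ⊥ ↔ K ≤ T := by
    intro K
    rw [Subgroup.map_eq_bot_iff, QuotientGroup.ker_mk']
  rw [← key, Subgroup.map_commutator, MonoidHom.map_closure, MonoidHom.map_closure,
    Subgroup.commutator_eq_bot_iff_le_centralizer, closure_le]
  rintro _ ⟨x, hx, rfl⟩
  show QuotientGroup.mk' T x ∈ Subgroup.centralizer _
  rw [Subgroup.centralizer_closure, Subgroup.mem_centralizer_iff]
  rintro _ ⟨y, hy, rfl⟩
  have h1 := (QuotientGroup.eq_one_iff (x * y * x⁻¹ * y⁻¹)).2 (h x hx y hy)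
  have h2 : QuotientGroup.mk' T (x * y * x⁻¹ * y⁻¹) = 1 := h1
  rw [map_mul, map_mul, map_mul, map_inv, map_inv, mul_inv_eq_one, mul_inv_eq_iff_eq_mul] at h2
  exact h2.symm

/-- short elements that generate the derived series modulo `C` -/
def Es (S : Set G) (κ : ℕ) : ℕ → Set G
  | 0 => S
  | i + 1 => {g | ∃ a ∈ Es S κ i, ∃ b ∈ Es S κ i, ∃ j ≤ κ, ∃ w ∈ S ^ j,
      g = w * (a * b * a⁻¹ * b⁻¹) * w⁻¹}

/-- the same elements and their conjugates by the generators -/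
def Ep (S : Set G) (κ i : ℕ) : Set G := {g | ∃ e ∈ Es S κ i, ∃ j ≤ 1, ∃ x ∈ S ^ j, g = x * e * x⁻¹}

/-- the lengths -/
def len (κ : ℕ) : ℕ → ℕ
  | 0 => 1
  | i + 1 => 4 * len κ i + 2 * κ

lemma len_eq (κ i : ℕ) : 3 * len κ i + 2 * κ = 4 ^ i * (3 + 2 * κ) := by
  induction i with
  | zero => rw [len]; ring
  | succ i ih =>
    rw [len, pow_succ]
    have : 4 ^ i * 4 * (3 + 2 * κ) = 4 * (4 ^ i * (3 + 2 * κ)) := by ring
    rw [this, ← ih]; ring

lemma len_le (κ i : ℕ) (hi : 1 ≤ i) : len κ i + 2 ≤ 4 ^ i * (κ + 2) := by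
  have h1 := len_eq κ i
  have h2 : 4 ≤ 4 ^ i := by
    calc 4 = 4 ^ 1 := rfl
      _ ≤ 4 ^ i := Nat.pow_le_pow_right (by norm_num) hi
  nlinarith

lemma conj_finite {S : Set G} (hfin : S.Finite) {X : Set G} (hX : X.Finite) (κ : ℕ) :
    {g | ∃ e ∈ X, ∃ j ≤ κ, ∃ w ∈ S ^ j, g = w * e * w⁻¹}.Finite := by
  have h1 : {g | ∃ e ∈ X, ∃ j ≤ κ, ∃ w ∈ S ^ j, g = w * e * w⁻¹} ⊆
      ⋃ j ∈ Set.Iic κ, (fun p : G × G => p.1 * p.2 * p.1⁻¹) '' ((S ^ j) ×ˢ X) := by
    rintro _ ⟨e, he, j, hj, w, hw, rfl⟩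
    simp only [Set.mem_iUnion]
    exact ⟨j, hj, ⟨w, e⟩, ⟨hw, he⟩, rfl⟩
  refine Set.Finite.subset (Set.Finite.biUnion (Set.finite_Iic κ) (fun j _ => ?_)) h1
  exact (((finite_pow hfin j).prod hX).image _)

lemma Es_finite {S : Set G} (hfin : S.Finite) (κ i : ℕ) : (Es S κ i).Finite := by
  induction i with
  | zero => exact hfin
  | succ i ih =>
    have h1 : ((fun p : G × G => p.1 * p.2 * p.1⁻¹ * p.2⁻¹) '' ((Es S κ i) ×ˢ (Es S κ i))).Finite :=
      (ih.prod ih).image _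
    refine (conj_finite hfin h1 κ).subset ?_
    rintro _ ⟨a, ha, b, hb, j, hj, w, hw, rfl⟩
    exact ⟨_, ⟨⟨a, b⟩, ⟨ha, hb⟩, rfl⟩, j, hj, w, hw, rfl⟩

lemma Ep_finite {S : Set G} (hfin : S.Finite) (κ i : ℕ) : (Ep S κ i).Finite :=
  conj_finite hfin (Es_finite hfin κ i) 1

lemma Es_inv {S : Set G} (hsym : S⁻¹ = S) (κ : ℕ) : ∀ i, ∀ g ∈ Es S κ i, g⁻¹ ∈ Es S κ i
  | 0, g, hg => by
    show g⁻¹ ∈ S
    rw [← hsym, Set.mem_inv, inv_inv]; exact hg
  | i + 1, g, hg => by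
    obtain ⟨a, ha, b, hb, j, hj, w, hw, rfl⟩ := hg
    exact ⟨b, hb, a, ha, j, hj, w, hw, by group⟩

lemma Ep_inv {S : Set G} (hsym : S⁻¹ = S) (κ i : ℕ) {g : G} (hg : g ∈ Ep S κ i) :
    g⁻¹ ∈ Ep S κ i := by
  obtain ⟨e, he, j, hj, x, hx, rfl⟩ := hg
  exact ⟨e⁻¹, Es_inv hsym κ i e he, j, hj, x, hx, by group⟩

lemma Es_sub_Ep (S : Set G) (κ i : ℕ) : Es S κ i ⊆ Ep S κ i :=
  fun e he => ⟨e, he, 0, by omega, 1, by simp, by simp⟩

lemma Es_len {S : Set G} (hsym : S⁻¹ = S) {s : G} (hs : s ∈ S) (κ : ℕ) :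
    ∀ i, Es S κ i ⊆ S ^ (len κ i)
  | 0 => by rw [len, pow_one]; exact subset_rfl
  | i + 1 => by
    rintro _ ⟨a, ha, b, hb, j, hj, w, hw, rfl⟩
    have ha' := Es_len hsym hs κ i ha
    have hb' := Es_len hsym hs κ i hb
    have h1 : w * (a * b * a⁻¹ * b⁻¹) * w⁻¹ ∈ S ^ (j + 4 * len κ i + j) :=
      mul_mem_pow (mul_mem_pow hw (mul_mem_pow (mul_mem_pow (mul_mem_pow ha' hb' rfl)
        (inv_mem_pow hsym _ ha') rfl) (inv_mem_pow hsym _ hb') (by ring)) rfl)
        (inv_mem_pow hsym _ hw) rfl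
    exact pad' hsym hs h1 (by rw [len]; omega) (by rw [len]; omega)

lemma Ep_len {S : Set G} (hsym : S⁻¹ = S) {s : G} (hs : s ∈ S) (κ i : ℕ) :
    Ep S κ i ⊆ S ^ (len κ i + 2) := by
  rintro _ ⟨e, he, j, hj, x, hx, rfl⟩
  have h1 : x * e * x⁻¹ ∈ S ^ (j + len κ i + j) :=
    mul_mem_pow (mul_mem_pow hx (Es_len hsym hs κ i he) rfl) (inv_mem_pow hsym _ hx) rfl
  exact pad' hsym hs h1 (by omega) (by omega)

lemma Es_der (S : Set G) (κ : ℕ) : ∀ i, Es S κ i ⊆ (derivedSeries G i : Set G)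
  | 0 => fun g _ => mem_top g
  | i + 1 => by
    rintro _ ⟨a, ha, b, hb, j, hj, w, hw, rfl⟩
    exact (derivedSeries_normal G (i + 1)).conj_mem _
      (der_comm (Es_der S κ i ha) (Es_der S κ i hb)) w

lemma Ep_der (S : Set G) (κ i : ℕ) : Ep S κ i ⊆ (derivedSeries G i : Set G) := by
  rintro _ ⟨e, he, j, hj, x, hx, rfl⟩
  exact (derivedSeries_normal G i).conj_mem _ (Es_der S κ i he) x

lemma Es_gen {C : Subgroup G} [hCn : C.Normal] {S : Set G} (hgen : closure S = ⊤)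
    (hsym : S⁻¹ = S) {κ : ℕ} (hκ : GenBd C κ) :
    ∀ i, derivedSeries G i ≤ closure (Es S κ i) ⊔ C
  | 0 => by
    show _ ≤ closure S ⊔ C
    rw [hgen, top_sup_eq]; exact le_top
  | i + 1 => by
    have hKn : (closure (Es S κ (i + 1)) ⊔ C).Normal := by
      constructor
      intro k hk g
      have h1 : closure (Es S κ (i + 1)) ⊔ C ≤
          (closure (Es S κ (i + 1)) ⊔ C).comap (MulAut.conj g).toMonoidHom := by
        refine sup_le ?_ ?_
        · rw [closure_le]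
          rintro _ ⟨a, ha, b, hb, j, hj, w, hw, rfl⟩
          show g * (w * (a * b * a⁻¹ * b⁻¹) * w⁻¹) * g⁻¹ ∈ closure (Es S κ (i + 1)) ⊔ C
          have hc : a * b * a⁻¹ * b⁻¹ ∈ gam G 1 := by
            have : a * b * a⁻¹ * b⁻¹ = ⁅a, b⁆ := by rw [commutatorElement_def]
            rw [this]
            exact gam_comm (n := 0) (mem_top a) b
          obtain ⟨n, hn⟩ := mem_pow_of_closure hsym
            (by rw [hgen]; exact mem_top (g * w) : g * w ∈ closure S)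
          have h2 := hκ S _ hc n (g * w) hn
          have e : g * (w * (a * b * a⁻¹ * b⁻¹) * w⁻¹) * g⁻¹ =
              g * w * (a * b * a⁻¹ * b⁻¹) * (g * w)⁻¹ := by group
          rw [e]
          refine sup_le_sup_right (Subgroup.closure_mono ?_) C h2
          rintro _ ⟨j', hj', w', hw', rfl⟩
          exact ⟨a, ha, b, hb, j', hj', w', hw', rfl⟩
        · intro a ha
          exact mem_sup_right (hCn.conj_mem a ha g)
      exact h1 hk
    rw [derivedSeries_succ]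
    refine (commutator_mono (Es_gen hgen hsym hκ i) (Es_gen hgen hsym hκ i)).trans ?_
    have hc1 : ⁅closure (Es S κ i) ⊔ C, C⁆ ≤ closure (Es S κ (i + 1)) ⊔ C :=
      (commutator_le_right _ _).trans le_sup_right
    refine comm_sup ?_ hc1
    rw [commutator_comm]
    refine comm_sup ?_ ((commutator_le_right _ _).trans le_sup_right)
    refine comm_closure_le (fun a ha b hb => ?_)
    exact mem_sup_left (subset_closure
      (show a * b * a⁻¹ * b⁻¹ ∈ Es S κ (i + 1) from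
        ⟨a, ha, b, hb, 0, Nat.zero_le _, 1, by simp, by simp⟩))

end Es

section Sub

variable {G : Type u} [Group G]

lemma GenBd.sub {C : Subgroup G} [hCn : C.Normal] {κ : ℕ} (h : GenBd C κ) (H : Subgroup G) :
    GenBd (C.subgroupOf H) κ := by
  intro X c hc n w hw
  have hc' : (c : G) ∈ gam G 1 := by
    have h1 : (gam H 1).map H.subtype ≤ gam G 1 := by
      rw [lcs_map_eq]
      exact commutator_mono le_top le_top
    exact h1 (mem_map_of_mem _ hc)
  have hw' : (w : G) ∈ (H.subtype '' X) ^ n := by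
    rw [← Set.image_pow]; exact ⟨w, hw, rfl⟩
  have h1 := h (H.subtype '' X) c hc' n w hw'
  obtain ⟨p, hp, y, hy, he⟩ := Subgroup.mem_sup_of_normal_right.1 h1
  have h2 : closure (cj (H.subtype '' X) (c : G) κ) ≤ (closure (cj X c κ)).map H.subtype := by
    rw [MonoidHom.map_closure]
    refine Subgroup.closure_mono ?_
    rintro _ ⟨j, hj, v, hv, rfl⟩
    rw [← Set.image_pow] at hv
    obtain ⟨v, hv, rfl⟩ := hv
    exact ⟨v * c * v⁻¹, ⟨j, hj, v, hv, rfl⟩, rfl⟩
  obtain ⟨p, hp', rfl⟩ := h2 hp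
  have h3 : w * c * w⁻¹ = p * (p⁻¹ * (w * c * w⁻¹)) := by group
  rw [h3]
  refine mul_mem (mem_sup_left hp') (mem_sup_right ?_)
  show ((p⁻¹ * (w * c * w⁻¹) : H) : G) ∈ C
  have h4 : ((p⁻¹ * (w * c * w⁻¹) : H) : G) = y := by
    show (p : G)⁻¹ * ((w : G) * c * (w : G)⁻¹) = y
    rw [← he]
    show (p : G)⁻¹ * ((p : G) * y) = y
    group
  rw [h4]; exact hy

lemma der_sub {H : Subgroup G} {m : ℕ} (hH : H ≤ derivedSeries G m) :
    ∀ j, (derivedSeries H j).map H.subtype ≤ derivedSeries G (m + j)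
  | 0 => by
    rintro _ ⟨x, _, rfl⟩
    exact hH x.2
  | j + 1 => by
    rw [derivedSeries_succ, Subgroup.map_commutator, ← add_assoc, derivedSeries_succ]
    exact commutator_mono (der_sub hH j) (der_sub hH j)

lemma Dig_sub {S : Set G} (hfin : S.Finite) {H : Subgroup G} {T : Set H} {n f : ℕ}
    (hT : ∀ t ∈ T, (t : G) ∈ S ^ n) (h : Dig T f) : Dig S (n * f) := by
  obtain ⟨x, hx0, hx, h⟩ := h
  refine ⟨x, hx0, hx, fun q => (h q).trans ?_⟩
  have hf1 : Finite ↥(S ^ (n * q)) := finite_pow hfin (n * q)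
  have h1 : Nat.card ↥(T ^ q) ≤ Nat.card ↥(S ^ (n * q)) := by
    have h2 : ∀ t ∈ T ^ q, (t : G) ∈ S ^ (n * q) := by
      intro t ht
      have h3 : (t : G) ∈ (H.subtype '' T) ^ q := by
        rw [← Set.image_pow]; exact ⟨t, ht, rfl⟩
      have h4 : H.subtype '' T ⊆ S ^ n := by
        rintro _ ⟨t, ht, rfl⟩; exact hT t ht
      rw [pow_mul]
      exact Set.pow_subset_pow_left h4 h3
    refine Nat.card_le_card_of_injective (fun t : ↥(T ^ q) => (⟨(t : H), h2 t t.2⟩ : ↥(S ^ (n * q)))) ?_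
    intro a b hab
    have h3 : ((a : H) : G) = ((b : H) : G) :=
      congrArg (fun t : ↥(S ^ (n * q)) => (t : G)) hab
    exact Subtype.ext (Subtype.ext h3)
  calc Nat.card ↥(T ^ q) ^ f ≤ (Nat.card ↥(S ^ (n * q))) ^ f := Nat.pow_le_pow_left h1 f
    _ ≤ (Nat.card ↥(S ^ q) ^ n) ^ f := Nat.pow_le_pow_left (H746UG.card_pow_mul S n q) f
    _ = Nat.card ↥(S ^ q) ^ (n * f) := by rw [pow_mul]

/-- **the general theorem** -/
theorem thmX (C : Subgroup G) [hCn : C.Normal] (hC : ∃ n, C.lowerCentralSeries n = ⊥)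
    {S : Set G} (hfin : S.Finite) (hgen : closure S = ⊤) (hsym : S⁻¹ = S)
    {κ : ℕ} (hκ : GenBd C κ) (r : ℕ) (hr : derivedSeries G (r + 1) ≤ C) :
    Dig S (4 ^ r * ((κ + 2) * (2 * κ + 6))) ∨ Group.IsVirtuallyNilpotent G := by
  classical
  by_cases hG : Group.IsVirtuallyNilpotent G
  · exact Or.inr hG
  left
  have hne : S.Nonempty := by
    by_contra hne
    rw [Set.not_nonempty_iff_eq_empty] at hne
    subst hne
    rw [Subgroup.closure_empty] at hgen
    apply hG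
    refine ⟨⊤, (Subgroup.isNilpotent_iff_lowerCentralSeries _).2 ⟨0, hgen.symm⟩, inferInstance⟩
  obtain ⟨s, hs⟩ := hne
  -- the last term of the derived series that is not virtually nilpotent
  have hCv : Group.IsVirtuallyNilpotent C :=
    ⟨⊤, (Subgroup.isNilpotent_iff_lowerCentralSeries _).2 (by
      obtain ⟨n, hn⟩ := hC
      refine ⟨n, ?_⟩
      rw [← Subgroup.map_eq_bot_iff_of_injective _ C.subtype_injective, lcs_map_eq,
        ← MonoidHom.range_eq_map, Subgroup.range_subtype, hn]), inferInstance⟩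
  have hex : ∃ i, Group.IsVirtuallyNilpotent (derivedSeries G i) := ⟨r + 1, vn_of_le hr hCv⟩
  set i := Nat.find hex with hi
  have hi1 : Group.IsVirtuallyNilpotent (derivedSeries G i) := Nat.find_spec hex
  have hi2 : ∀ j < i, ¬ Group.IsVirtuallyNilpotent (derivedSeries G j) := fun j hj =>
    Nat.find_min hex hj
  have hir : i ≤ r + 1 := Nat.find_min' hex (vn_of_le hr hCv)
  have hi0 : i ≠ 0 := by
    intro h0
    rw [h0] at hi1
    apply hG
    exact vn_of_inj (H := G) (G := (⊤ : Subgroup G))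
      (Subgroup.topEquiv (G := G)).symm.toMonoidHom (Subgroup.topEquiv (G := G)).symm.injective hi1
  obtain ⟨m, hm⟩ := Nat.exists_eq_succ_of_ne_zero hi0
  rw [hm] at hi1 hir
  have hmv := hi2 m (by omega)
  have hmr : m ≤ r := by omega
  have h4r : 1 ≤ 4 ^ r := Nat.one_le_pow _ _ (by norm_num)
  rcases Nat.eq_zero_or_pos m with h0 | h0
  · subst h0
    rcases exc C hC hfin hgen hsym hi1 hκ r hr with h | h
    · refine Dig_mono hfin ⟨s, hs⟩ ?_ h
      refine Nat.mul_le_mul_left _ ?_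
      nlinarith
    · exact absurd h hG
  -- the subgroup generated by short elements
  set Γ := closure (Es S κ m) with hΓ
  set Γp := closure (Ep S κ m) with hΓp
  have hle : Γ ≤ Γp := Subgroup.closure_mono (Es_sub_Ep S κ m)
  have hΓpD : Γp ≤ derivedSeries G m := (closure_le _).2 (Ep_der S κ m)
  have hDΓ : derivedSeries G m ≤ Γ ⊔ C := Es_gen hgen hsym hκ m
  have hfg : Γ.FG := ⟨(Es_finite hfin κ m).toFinset, by rw [Set.Finite.coe_toFinset]⟩
  have hSΓ : ∀ x ∈ S, ∀ γ ∈ Γ, x * γ * x⁻¹ ∈ Γp := by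
    intro x hx γ hγ
    have h1 : Γ ≤ Γp.comap (MulAut.conj x).toMonoidHom := by
      rw [hΓ, closure_le]
      intro e he
      exact subset_closure ⟨e, he, 1, le_rfl, x, by rw [pow_one]; exact hx, rfl⟩
    exact h1 hγ
  have hΓpv : ¬ Group.IsVirtuallyNilpotent Γp := by
    intro hv
    exact hmv (vn_of_le hDΓ (fp C hC hgen hsym hfg hle (hΓpD.trans hDΓ) hSΓ hv))
  -- the theorem for this subgroup
  set T : Set Γp := Subtype.val ⁻¹' (Ep S κ m) with hT
  have hTfin : T.Finite := (Ep_finite hfin κ m).preimage Subtype.val_injective.injOn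
  have hTgen : closure T = ⊤ := Subgroup.closure_closure_coe_preimage
  have hTsym : T⁻¹ = T := by
    ext x
    rw [Set.mem_inv]
    constructor
    · intro h
      have h1 : ((x⁻¹ : Γp) : G) ∈ Ep S κ m := h
      have h2 := Ep_inv hsym κ m h1
      have h3 : (((x⁻¹ : Γp) : G))⁻¹ = x := by simp
      rw [h3] at h2
      exact h2
    · intro h
      have h1 : (x : G) ∈ Ep S κ m := h
      have h2 := Ep_inv hsym κ m h1
      show ((x⁻¹ : Γp) : G) ∈ Ep S κ m
      simpa using h2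
  have hC' : ∃ n, (C.subgroupOf Γp).lowerCentralSeries n = ⊥ := by
    obtain ⟨n, hn⟩ := hC
    refine ⟨n, ?_⟩
    have h1 := lcs_map Γp.subtype (C.subgroupOf Γp) C (by rintro _ ⟨x, hx, rfl⟩; exact hx) n
    rw [hn, le_bot_iff, Subgroup.map_eq_bot_iff_of_injective _ Γp.subtype_injective] at h1
    exact h1
  have hr' : derivedSeries Γp (r - m + 1) ≤ C.subgroupOf Γp := by
    intro x hx
    have h1 := der_sub hΓpD (r - m + 1) (mem_map_of_mem _ hx)
    have h2 : m + (r - m + 1) = r + 1 := by omega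
    rw [h2] at h1
    exact hr h1
  have hv' : Group.IsVirtuallyNilpotent (gam Γp 1) := by
    have h1 : (gam Γp 1).map Γp.subtype ≤ derivedSeries G (m + 1) := der_sub hΓpD 1
    have h2 : Group.IsVirtuallyNilpotent ((gam Γp 1).map Γp.subtype) := vn_of_le h1 hi1
    exact vn_of_inj (Γp.subtype.subgroupMap (gam Γp 1)) (by
      intro a b hab
      have h3 : ((a : Γp) : G) = ((b : Γp) : G) :=
        congrArg (fun t : (gam Γp 1).map Γp.subtype => (t : G)) hab
      exact Subtype.ext (Subtype.ext h3)) h2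
  rcases exc (C.subgroupOf Γp) hC' hTfin hTgen hTsym hv' (hκ.sub Γp) (r - m) hr' with h | h
  · have h1 := Dig_sub hfin (n := len κ m + 2) (fun t ht => Ep_len hsym hs κ m ht) h
    refine Dig_mono hfin ⟨s, hs⟩ ?_ h1
    have h2 := len_le κ m h0
    have h3 : 4 ^ r = 4 ^ m * 4 ^ (r - m) := by rw [← pow_add]; congr 1; omega
    calc (len κ m + 2) * (4 ^ (r - m) * (2 * κ + 6))
        ≤ (4 ^ m * (κ + 2)) * (4 ^ (r - m) * (2 * κ + 6)) := Nat.mul_le_mul_right _ h2
      _ = 4 ^ r * ((κ + 2) * (2 * κ + 6)) := by rw [h3]; ring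
  · exact absurd h hΓpv

end Sub

end Pool.Agent.H342.LD
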