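import Pool.Agent.H342.LD.Rank2
import Pool.Agent.H342.LD.Thm

/-! Helper file (helper342): derived factors with few generators. -/

set_option autoImplicit false

namespace Pool.Agent.H342.LD

open Subgroup
open Pool.Agent.H785R3.GrowthA
open scoped Pointwise commutatorElement IsMulCommutative

universe u

variable {G : Type u} [Group G]

/-- the derived factors `1, …, r` of `G / C` are generated by `K` elements -/
def RankBd (C : Subgroup G) (r K : ℕ) : Prop :=
  ∀ i, 1 ≤ i → i ≤ r → ∃ F : Fin K → G,
    closure (Set.range F) ⊔ (derivedSeries G (i + 1) ⊔ C) = derivedSeries G i ⊔ C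

theorem GenBd_rank {C : Subgroup G} [hCn : C.Normal] {r K : ℕ} (h : RankBd C r K)
    (hr : derivedSeries G (r + 1) ≤ C) : GenBd C (r * K) := by
  intro X c hc
  have key : ∀ m ≤ r, ∀ n : ℕ, ∀ w ∈ X ^ n,
      w * c * w⁻¹ ∈ closure (cj X c (m * K)) ⊔ (derivedSeries G (m + 1) ⊔ C) := by
    intro m
    induction m with
    | zero =>
      intro _ n w _
      have h1 : derivedSeries G 1 = gam G 1 := rfl
      refine mem_sup_right (mem_sup_left ?_)
      rw [zero_add, h1]
      exact (inferInstance : (gam G 1).Normal).conj_mem _ hc w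
    | succ m ih =>
      intro hm
      obtain ⟨F, hF⟩ := h (m + 1) (by omega) hm
      have hn1 := derivedSeries_normal G (m + 1)
      have hn2 := derivedSeries_normal G (m + 1 + 1)
      have hle : derivedSeries G (m + 1 + 1) ⊔ C ≤ derivedSeries G (m + 1) ⊔ C :=
        sup_le_sup_right (derivedSeries_antitone G (Nat.le_succ _)) C
      have hab : ⁅derivedSeries G (m + 1) ⊔ C, derivedSeries G (m + 1) ⊔ C⁆ ≤
          derivedSeries G (m + 1 + 1) ⊔ C := by
        have hc1 : ⁅derivedSeries G (m + 1) ⊔ C, C⁆ ≤ derivedSeries G (m + 1 + 1) ⊔ C :=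
          (commutator_le_right _ _).trans le_sup_right
        refine comm_sup ?_ hc1
        rw [commutator_comm]
        refine comm_sup ?_ ((commutator_le_right _ _).trans le_sup_right)
        rw [derivedSeries_succ G (m + 1)]
        exact le_sup_left
      have h2 := level hle hab F hF X c (m * K) (ih (by omega))
      have e : (m + 1) * K = m * K + K := by ring
      rw [e]; exact h2
  intro n w hw
  have h3 := key r le_rfl n w hw
  rwa [sup_eq_right.2 hr] at h3

end Pool.Agent.H342.LD
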