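import Pool.Agent.H342.LD.Poly
import Pool.Agent.H342.LD.Rank3
import Pool.Graph.R_seed8.W963.GE.Final
import Pool.Graph.R_seed8.W963.GE.Dob

/-! Helper file (helper342): from digit sums to growth rates. -/

set_option autoImplicit false

namespace Pool.Agent.H342.LD

open Filter Topology
open Pool.Agent.H785R3.GrowthA
open Pool.Agent.W963.GE (MM base eta_ge log_base_ge MM_ge)
open scoped Pointwise

universe u

lemma eta_le {G : Type u} [Group G] (S : Set G) (x : ℂ) (hx : x ≠ 0) {L : ℕ} (hL : 0 < L)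
    (h : ∀ n, Nat.card ↥(H746UG.digitSums x n) ≤ Nat.card ↥(S ^ n) ^ L) :
    H746UG.eta x / L ≤ H746UG.rho S := by
  have hL' : (0 : ℝ) < L := by exact_mod_cast hL
  have h1 : Tendsto (fun n : ℕ => Real.log (Nat.card ↥(H746UG.digitSums x n)) / n / L) atTop
      (𝓝 (H746UG.eta x / L)) := (H746UG.tendsto_eta x hx).div_const _
  refine le_of_tendsto_of_tendsto' h1 (H746UG.tendsto_rho S) ?_
  intro n
  have h2 : (0 : ℝ) < Nat.card ↥(H746UG.digitSums x n) := by
    have h3 := H746UG.DS_pos x n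
    rw [H746UG.DS_eq_digitSums] at h3
    exact_mod_cast h3
  have h3 : Real.log (Nat.card ↥(H746UG.digitSums x n)) ≤ L * Real.log (Nat.card ↥(S ^ n)) := by
    have h4 : Real.log (Nat.card ↥(H746UG.digitSums x n)) ≤
        Real.log ((Nat.card ↥(S ^ n) : ℝ) ^ L) := by
      apply Real.log_le_log h2
      exact_mod_cast h n
    rw [Real.log_pow] at h4
    exact h4
  rcases Nat.eq_zero_or_pos n with h0 | h0
  · subst h0; simp
  · have h5 : (0 : ℝ) < n := by exact_mod_cast h0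
    rw [div_div, div_le_div_iff₀ (by positivity) h5]
    nlinarith

/-- the growth rate from digit sums -/
lemma out {G : Type u} [Group G] {S : Set G} {L : ℕ} (hL : 0 < L) (h : Dig S L) :
    ((∀ n : ℕ, 2 ^ n ≤ Nat.card ↥(S ^ n) ^ L) ∧ Real.log 2 / L ≤ H746UG.rho S) ∨
      ∃ x : ℂ, (x ≠ 0 ∧ IsIntegral ℤ x ∧ IsIntegral ℤ x⁻¹ ∧ ∀ m > 0, x ^ m ≠ 1) ∧
        (∀ n : ℕ, Nat.card ↥(H746UG.digitSums x n) ≤ Nat.card ↥(S ^ n) ^ L) ∧
        H746UG.eta x / L ≤ H746UG.rho S ∧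
        min 1 (Real.log (MM x)) / (8 * L) ≤ H746UG.eta x / L := by
  obtain ⟨x, hx0, hx, hn⟩ := h
  have h2 : ∀ n : ℕ, Nat.card ↥(H746UG.digitSums x n) ≤ Nat.card ↥(S ^ n) ^ L := by
    intro n
    have h3 := hn n
    rwa [H746UG.DS_eq_digitSums] at h3
  have h3 := eta_le S x hx0 hL h2
  by_cases hi : IsIntegral ℤ x ∧ IsIntegral ℤ x⁻¹
  · refine Or.inr ⟨x, ⟨hx0, hi.1, hi.2, hx⟩, h2, h3, ?_⟩
    have h4 : min 1 (Real.log (MM x)) / 8 ≤ H746UG.eta x :=
      (log_base_ge (MM_ge x hi.1)).trans (eta_ge x hx0 hi.1)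
    rw [← div_div]
    exact div_le_div_of_nonneg_right h4 (by positivity)
  · left
    refine ⟨fun n => ?_, ?_⟩
    · rw [← H746UG.eta_log_two x hx0 hi n]
      exact h2 n
    · rwa [H746UG.eta_eq_log_two x hx0 hi] at h3

/-- the gap from the gap for metabelian groups -/
lemma out_gap {c : ℝ}
    (hgap : ∀ (G : Type) [Group G] (S : Set G), S.Finite → Subgroup.closure S = ⊤ →
      derivedSeries G 2 = ⊥ → Group.IsVirtuallyNilpotent G ∨ c ≤ H746UG.rho S)
    {x : ℂ} (hx0 : x ≠ 0) (hx : ∀ m > 0, x ^ m ≠ 1) : c ≤ H746UG.eta x := by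
  rcases hgap (H746UG.AG x hx0) (H746UG.AS x hx0) (H746UG.AS_finite x hx0)
    (H746UG.AS_gen x hx0) (H746UG.aff_metabelian x hx0) with h4 | h4
  · exact absurd h4 (H746UG.aff_not_vn x hx0 hx)
  · rwa [H746UG.rho_AS x hx0] at h4

end Pool.Agent.H342.LD
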