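import Pool.Agent.H342.LD.Noise
import Pool.Graph.R_seed8.H785R3.GrowthR

/-! Helper file (helper342): digit sums from a pair of elements and a crossed homomorphism. -/

set_option autoImplicit false

namespace Pool.Agent.H342.LD

open Subgroup Polynomial
open Pool.Agent.H785R3.GrowthA (Dig QU Dig_of_pair)
open scoped Pointwise

universe u

variable {G : Type u} {M : Type*} [Group G] [AddCommGroup M]
variable {ρ : G →* Module.End ℤ M} {b : G → M}

lemma fix_poly {X d : G} (h : ∀ j : ℕ, ρ d (ρ (X ^ j) (b d)) = ρ (X ^ j) (b d)) (p : ℤ[X]) :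
    ρ d ((aeval (ρ X) p) (b d)) = (aeval (ρ X) p) (b d) := by
  induction p using Polynomial.induction_on' with
  | add p q hp hq => rw [map_add, LinearMap.add_apply, map_add, hp, hq]
  | monomial n a =>
    rw [aeval_monomial, Module.End.mul_apply, Module.algebraMap_end_apply, map_zsmul, ← map_pow,
      h n]

lemma b_ev (hb : Cr ρ b) {X d : G} (hX : b X = 0)
    (h : ∀ j : ℕ, ρ d (ρ (X ^ j) (b d)) = ρ (X ^ j) (b d)) (w : List Bool) :
    b (H746UG.ev X (d * X) w) = (aeval (ρ X) (H746UG.dsm (Polynomial.X : ℤ[X]) w)) (b d) := by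
  induction w with
  | nil => rw [H746UG.ev_nil, hb.one, H746UG.dsm, map_zero]; rfl
  | cons t w ih =>
    rw [H746UG.ev_cons, H746UG.dsm, map_add, LinearMap.add_apply, map_mul, aeval_X,
      Module.End.mul_apply]
    cases t
    · simp only [Bool.false_eq_true, if_false, map_one, Module.End.one_apply]
      rw [mul_assoc, hb, hb, hX, zero_add, ih]
      congr 1
      have h1 := fix_poly h (Polynomial.X * H746UG.dsm (Polynomial.X : ℤ[X]) w)
      rw [map_mul, aeval_X, Module.End.mul_apply] at h1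
      exact h1
    · simp only [if_true, map_zero, LinearMap.zero_apply, zero_add]
      rw [hb, hX, zero_add, ih]

theorem dig_pair [Module.Finite ℤ M] (hb : Cr ρ b) {S : Set G} (hS : S.Finite) {j : ℕ} (hj : 0 < j)
    {X d : G} (hX : b X = 0) (h : ∀ j : ℕ, ρ d (ρ (X ^ j) (b d)) = ρ (X ^ j) (b d))
    (hQ : ¬ QU ρ X (b d)) (hXS : X ∈ S ^ j) (hdS : d * X ∈ S ^ j) : Dig S j := by
  rcases H785R3.GrowthP.exists_root (ρ X) (fun v w hvw => rho_inj' X hvw) (b d) with
    h1 | ⟨x, hx0, hx, hp⟩
  · exact absurd h1 hQ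
  · refine Dig_of_pair hS hj le_rfl hXS hdS hx0 hx ?_
    intro u v _ he
    have h2 := congrArg b he
    rw [b_ev hb hX h, b_ev hb hX h] at h2
    have h4 := hp (H746UG.dsm Polynomial.X u - H746UG.dsm Polynomial.X v) (by
      rw [map_sub, LinearMap.sub_apply, h2, sub_self])
    have h5 : ∀ w : List Bool, (Polynomial.aeval x) (H746UG.dsm (Polynomial.X : ℤ[X]) w) =
        H746UG.dsm x w := by
      intro w
      have := H746UG.dsm_map ((Polynomial.aeval x : ℤ[X] →ₐ[ℤ] ℂ) : ℤ[X] →+* ℂ)
        Polynomial.X w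
      simpa using this
    rw [map_sub, h5, h5, sub_eq_zero] at h4
    exact h4

end Pool.Agent.H342.LD
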