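import Pool.Agent.H342.LD.Thm

/-! Helper file (helper342): nilpotent quotients. -/

set_option autoImplicit false

namespace Pool.Agent.H342.LD

open Subgroup Polynomial
open Pool.Agent.H785R3.GrowthA
open scoped Pointwise commutatorElement IsMulCommutative

universe u

section

variable {G : Type u} [Group G]

/-- the case of an abelian, finitely generated normal subgroup with nilpotent quotient -/
theorem poly_abel (A : Subgroup G) [hAn : A.Normal] [hAc : IsMulCommutative A] {S : Set G}
    (hfin : S.Finite) (hgen : closure S = ⊤) (hsym : S⁻¹ = S) [hMf : Module.Finite ℤ (Additive A)]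
    {k : ℕ} (hk : 1 ≤ k) (hnil : gam G k ≤ A)
    {κ : ℕ} (hκ : GenBd A κ) (r : ℕ) (hr : derivedSeries G (r + 1) ≤ A) :
    Dig S (4 ^ r * (2 * κ + 6)) ∨ UU (H746UG.th A) ⊥ := by
  classical
  by_cases hU : UU (H746UG.th A) ⊥
  · exact Or.inr hU
  left
  have hnoeth : IsNoetherian ℤ (Additive A) := inferInstance
  obtain ⟨V, hV, hM', hJN⟩ := exists_jn (H746UG.th A) hU
  set ρ := quotAct (H746UG.th A) V hV with hρdef
  have hmk : ∀ (g : G) (a : Additive A), ρ g (V.mkQ a) = V.mkQ (H746UG.th A g a) := fun g a => rfl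
  have hAker : ∀ a ∈ A, ρ a = 1 := by
    intro a ha
    apply LinearMap.ext
    intro x
    obtain ⟨x, rfl⟩ := Submodule.Quotient.mk_surjective V x
    show V.mkQ (H746UG.th A a x) = _
    rw [H746UG.th_of_mem ha]; rfl
  -- the kernel of `A → M'`
  set V' : Subgroup G := valSub A V with hV'
  have hV'A : V' ≤ A := by
    rintro _ ⟨a, _, rfl⟩; exact H746UG.val_mem a
  have hV'n : V'.Normal := by
    constructor
    rintro _ ⟨a, ha, rfl⟩ g
    exact ⟨H746UG.th A g a, hV g a ha, H746UG.val_th g a⟩
  set π := QuotientGroup.mk' V' with hπ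
  have hsurj : Function.Surjective π := QuotientGroup.mk'_surjective V'
  set K := ρ.ker with hK
  have hAK : A ≤ K := fun a ha => hAker a ha
  have hKn : (K.map π).Normal := (inferInstance : K.Normal).map _ hsurj
  -- `[K, A] ≤ V'`
  have hKA : ⁅A, K⁆ ≤ V' := by
    rw [commutator_le]
    intro a ha g hg
    have h1 : ρ g (V.mkQ (H746UG.el A a ha)) = V.mkQ (H746UG.el A a ha) := by
      have : ρ g = 1 := hg
      rw [this]; rfl
    rw [hmk, ← sub_eq_zero, ← map_sub, Submodule.mkQ_apply, Submodule.Quotient.mk_eq_zero] at h1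
    refine ⟨-(H746UG.th A g (H746UG.el A a ha) - H746UG.el A a ha), neg_mem h1, ?_⟩
    rw [neg_sub, H746UG.val_sub, H746UG.val_th, H746UG.val_el, commutatorElement_def]
    group
  have hKnil : Group.IsNilpotent (K.map π) := by
    rw [Subgroup.isNilpotent_iff_lowerCentralSeries]
    refine ⟨k + 1, ?_⟩
    rw [← lcs_map_eq, eq_bot_iff]
    have h1 : K.lowerCentralSeries k ≤ A := by
      have : ∀ j, K.lowerCentralSeries j ≤ gam G j := by
        intro j
        induction j with
        | zero => exact le_top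
        | succ j ih => exact commutator_mono ih le_top
      exact (this k).trans hnil
    have h2 : K.lowerCentralSeries (k + 1) ≤ V' := (commutator_mono h1 le_rfl).trans hKA
    rintro _ ⟨x, hx, rfl⟩
    exact (QuotientGroup.eq_one_iff x).2 (h2 hx)
  -- the derived subgroup of the faithful quotient is finite
  have hgK : gam (G ⧸ K) k = ⊥ := by
    rw [gam_map (QuotientGroup.mk'_surjective K) k, Subgroup.map_eq_bot_iff, QuotientGroup.ker_mk']
    exact hnil.trans hAK
  have hM0 : ∃ c : Additive A ⧸ V, c ≠ 0 := by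
    by_contra hcon
    push Not at hcon
    apply hM'
    refine ⟨⊤, inferInstance, 0, ?_⟩
    intro x _
    rw [Submodule.mem_bot]; exact hcon x
  obtain ⟨c, hc⟩ := hM0
  have hSQ : closure ((QuotientGroup.mk' K) '' S) = ⊤ := by
    rw [← MonoidHom.map_closure, hgen, ← MonoidHom.range_eq_map]
    exact MonoidHom.range_eq_top.2 (QuotientGroup.mk'_surjective K)
  have hfQ : Finite (gam (G ⧸ K) 1) := by
    refine gam_one_finite (fq ρ) ?_ (fq_inj ρ) (hfin.image _) hSQ hk hgK (X := 1) hc ?_
    · intro r hr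
      exact hJN r (fun g => hr (QuotientGroup.mk' K g))
    · intro l _ g _
      exact IntM_of_noeth (fq ρ) _ _
  have hf1 : Finite (gam ((G ⧸ V') ⧸ K.map π) 1) := by
    let φ : (G ⧸ K) →* ((G ⧸ V') ⧸ K.map π) := QuotientGroup.map K (K.map π) π
      (Subgroup.le_comap_map _ _)
    have hφ : Function.Surjective φ := by
      intro x
      obtain ⟨x, rfl⟩ := QuotientGroup.mk_surjective x
      obtain ⟨x, rfl⟩ := hsurj x
      exact ⟨QuotientGroup.mk x, rfl⟩
    rw [gam_map hφ 1]
    exact Set.Finite.image _ (Set.toFinite _)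
  have hgen' : closure (π '' S) = ⊤ := by
    rw [← MonoidHom.map_closure, hgen, ← MonoidHom.range_eq_map]
    exact MonoidHom.range_eq_top.2 hsurj
  have hsym' : (π '' S)⁻¹ = π '' S := by
    ext x
    rw [Set.mem_inv]
    constructor
    · rintro ⟨y, hy, he⟩
      refine ⟨y⁻¹, ?_, by rw [map_inv, he, inv_inv]⟩
      rw [← hsym]; simpa using hy
    · rintro ⟨y, hy, rfl⟩
      refine ⟨y⁻¹, ?_, by rw [map_inv]⟩
      rw [← hsym]; simpa using hy
  have hκ' : GenBd (K.map π) κ := (hκ.mono hAK).map hsurj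
  have hr' : derivedSeries (G ⧸ V') (r + 1) ≤ K.map π := by
    rw [← map_derivedSeries_eq hsurj]
    exact map_mono (hr.trans hAK)
  rcases excFin (K.map π) hKnil (hfin.image π) hgen' hsym' hκ' r hr' with
    h | ⟨H, hHf, hKH, _, n, hn⟩
  · exact Dig_of_map π hfin h
  exfalso
  apply hM'
  have hH'f : (H.comap π).FiniteIndex :=
    ⟨by rw [index_comap_of_surjective _ hsurj]; exact hHf.index_ne_zero⟩
  refine ⟨H.comap π, hH'f, n, ?_⟩
  have key : ∀ i, ∀ x ∈ aug ρ (H.comap π) i ⊤, ∃ a : Additive A, V.mkQ a = x ∧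
      π (H746UG.val A a) ∈ H.lowerCentralSeries i := by
    intro i
    induction i with
    | zero =>
      intro x _
      obtain ⟨a, rfl⟩ := Submodule.Quotient.mk_surjective V x
      exact ⟨a, rfl, hKH (mem_map_of_mem _ (hAK (H746UG.val_mem a)))⟩
    | succ i ih =>
      intro x hx
      have hx' : x ∈ Submodule.span ℤ {x | ∃ h ∈ H.comap π, ∃ v ∈ aug ρ (H.comap π) i ⊤,
        x = ρ h v - v} := hx
      refine Submodule.span_induction (p := fun x _ => ∃ a : Additive A, V.mkQ a = x ∧
        π (H746UG.val A a) ∈ H.lowerCentralSeries (i + 1)) ?_ ?_ ?_ ?_ hx'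
      · rintro _ ⟨h, hh, v, hv, rfl⟩
        obtain ⟨a, rfl, ha⟩ := ih v hv
        refine ⟨H746UG.th A h a - a, by rw [map_sub, ← hmk], ?_⟩
        rw [H746UG.val_sub, H746UG.val_th]
        have h1 : ⁅π (H746UG.val A a), π h⁆ ∈ H.lowerCentralSeries (i + 1) :=
          commutator_mem_commutator ha hh
        have h2 := inv_mem h1
        rw [commutatorElement_inv, commutatorElement_def] at h2
        rw [map_mul, map_mul, map_mul, map_inv, map_inv]
        exact h2
      · exact ⟨0, map_zero _, by rw [H746UG.val_zero, map_one]; exact one_mem _⟩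
      · rintro x y _ _ ⟨a, rfl, ha⟩ ⟨b, rfl, hb⟩
        exact ⟨a + b, map_add _ _ _, by rw [H746UG.val_add, map_mul]; exact mul_mem ha hb⟩
      · rintro m x _ ⟨a, rfl, ha⟩
        refine ⟨m • a, map_zsmul _ _ _, ?_⟩
        have h3 : ∀ m : ℤ, π (H746UG.val A (m • a)) = π (H746UG.val A a) ^ m := by
          intro m
          have : H746UG.val A (m • a) = (H746UG.val A a) ^ m := by
            induction m with
            | zero => rw [zero_smul, zpow_zero, H746UG.val_zero]
            | succ m ih => rw [add_smul, one_smul, H746UG.val_add, ih, zpow_add_one]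
            | pred m ih => rw [sub_smul, one_smul, H746UG.val_sub, ih, zpow_sub_one]
          rw [this, map_zpow]
        rw [h3]; exact zpow_mem ha m
  intro x hx
  obtain ⟨a, rfl, ha⟩ := key n x hx
  rw [hn, Subgroup.mem_bot] at ha
  have h1 : H746UG.val A a ∈ V' := (QuotientGroup.eq_one_iff _).1 ha
  obtain ⟨a', ha', he⟩ := h1
  have : a' = a := H746UG.val_inj he
  rw [Submodule.mem_bot, Submodule.mkQ_apply, Submodule.Quotient.mk_eq_zero, ← this]
  exact ha'

/-- nilpotent normal subgroups with finitely generated abelianization and nilpotent quotient -/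
theorem poly (C : Subgroup G) [hCn : C.Normal] (hC : Group.IsNilpotent C) {S : Set G}
    (hfin : S.Finite) (hgen : closure S = ⊤) (hsym : S⁻¹ = S)
    (hfg : C.FG) {k : ℕ} (hk : 1 ≤ k) (hnil : gam G k ≤ C)
    {κ : ℕ} (hκ : GenBd C κ) (r : ℕ) (hr : derivedSeries G (r + 1) ≤ C) :
    Dig S (4 ^ r * (2 * κ + 6)) ∨ Group.IsVirtuallyNilpotent G := by
  classical
  set D := ⁅C, C⁆ with hD
  have hsurj := QuotientGroup.mk'_surjective D
  set π := QuotientGroup.mk' D with hπ
  have hAn : (C.map π).Normal := hCn.map _ hsurj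
  have hAc : IsMulCommutative (C.map π) := isMulComm_map C
  have hgen' : closure (π '' S) = ⊤ := by
    rw [← MonoidHom.map_closure, hgen, ← MonoidHom.range_eq_map]
    exact MonoidHom.range_eq_top.2 hsurj
  have hsym' : (π '' S)⁻¹ = π '' S := by
    ext x
    rw [Set.mem_inv]
    constructor
    · rintro ⟨y, hy, he⟩
      refine ⟨y⁻¹, ?_, by rw [map_inv, he, inv_inv]⟩
      rw [← hsym]; simpa using hy
    · rintro ⟨y, hy, rfl⟩
      refine ⟨y⁻¹, ?_, by rw [map_inv]⟩
      rw [← hsym]; simpa using hy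
  have hfg' : (C.map π).FG := by
    obtain ⟨T, hT⟩ := hfg
    exact ⟨T.image π, by rw [Finset.coe_image, ← MonoidHom.map_closure, hT]⟩
  have hAfg2 : Group.FG (C.map π) := (Group.fg_iff_subgroup_fg _).2 hfg'
  have hMfin : Module.Finite ℤ (Additive (C.map π)) := by
    rw [Module.Finite.iff_addGroup_fg]
    infer_instance
  have hnil' : gam (G ⧸ D) k ≤ C.map π := by
    rw [gam_map hsurj k]; exact map_mono hnil
  have hr' : derivedSeries (G ⧸ D) (r + 1) ≤ C.map π := by
    rw [← map_derivedSeries_eq hsurj]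
    exact map_mono hr
  rcases poly_abel (C.map π) (hfin.image π) hgen' hsym' hk hnil' (hκ.map hsurj) r hr' with h | h
  · exact Or.inl (Dig_of_map π hfin h)
  right
  obtain ⟨H, hHf, hAH, n, hn⟩ := vn_of_UU (C.map π) (N := ⊤) le_top hnil' h
  obtain ⟨H', hH'f, _, _, hn'⟩ := vn_lift C hC hAH hn
  exact ⟨H', (Subgroup.isNilpotent_iff_lowerCentralSeries H').2 hn', hH'f⟩

end

end Pool.Agent.H342.LD
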