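import Mathlib

/-! Helper file (helper342): chains of submodules of finitely generated abelian groups. -/

set_option autoImplicit false

namespace Pool.Agent.H342.LD

open Submodule

/-- a chain in an elementary abelian group -/
lemma chain_bound {V : Type*} [AddCommGroup V] {p : ℕ} [hpf : Fact p.Prime]
    [Module (ZMod p) V] {n K : ℕ} (F : Fin n → V) (hF : span ℤ (Set.range F) = ⊤)
    (hnK : n ≤ K) (U : ℕ → Submodule ℤ V) (hlt : ∀ j < K, U j < U (j + 1)) (hK : U K < ⊤) :
    False := by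
  let W : ℕ → Submodule (ZMod p) V := fun j => AddSubgroup.toZModSubmodule p (U j).toAddSubgroup
  have hspan : span (ZMod p) (Set.range F) = (⊤ : Submodule (ZMod p) V) := by
    rw [eq_top_iff]
    intro x _
    have h1 : x ∈ span ℤ (Set.range F) := by rw [hF]; trivial
    refine Submodule.span_induction (p := fun y _ => y ∈ span (ZMod p) (Set.range F)) ?_ ?_ ?_ ?_ h1
    · intro y hy; exact subset_span hy
    · exact zero_mem _
    · intro y z _ _ hy hz; exact add_mem hy hz
    · intro a y _ hy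
      have : a • y = ((a : ZMod p)) • y := by
        rw [Int.cast_smul_eq_zsmul]
      rw [this]; exact Submodule.smul_mem _ _ hy
  have hfinV : Module.Finite (ZMod p) V := ⟨⟨(Set.finite_range F).toFinset, by simpa using hspan⟩⟩
  have hdim : Module.finrank (ZMod p) V ≤ n := by
    have h1 := finrank_range_le_card (R := ZMod p) (b := F)
    rw [Set.finrank, hspan, finrank_top, Fintype.card_fin] at h1
    exact h1
  have hltW : ∀ {i j : ℕ}, U i < U j → W i < W j := by
    intro i j h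
    exact h
  have hrank : ∀ j ≤ K, j ≤ Module.finrank (ZMod p) (W j) := by
    intro j
    induction j with
    | zero => intro _; exact Nat.zero_le _
    | succ j ih =>
      intro hj
      have h1 := Submodule.finrank_lt_finrank_of_lt (hltW (hlt j (by omega)))
      have h2 := ih (by omega)
      omega
  have h3 : Module.finrank (ZMod p) (W K) < Module.finrank (ZMod p) V := by
    apply Submodule.finrank_lt
    have : W K < ⊤ := by
      have h5 : ¬ (⊤ : Submodule ℤ V) ≤ U K := fun h => absurd hK (not_lt_of_ge h)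
      rw [lt_top_iff_ne_top]
      intro h6
      apply h5
      intro x _
      have : x ∈ W K := by rw [h6]; trivial
      exact this
    exact this.ne
  have h4 := hrank K le_rfl
  omega

/-- a nonzero finitely generated abelian group is not divisible -/
lemma exists_prime {N : Type*} [AddCommGroup N] [hfin : Module.Finite ℤ N] [hnt : Nontrivial N] :
    ∃ p : ℕ, p.Prime ∧ ∃ x : N, ∀ y : N, p • y ≠ x := by
  by_contra hcon
  push Not at hcon
  have h2 : (⊤ : Submodule ℤ N) ≤ (Ideal.span {(2 : ℤ)}) • (⊤ : Submodule ℤ N) := by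
    intro x _
    obtain ⟨y, hy⟩ := hcon 2 Nat.prime_two x
    rw [← hy]
    have : (2 : ℕ) • y = (2 : ℤ) • y := by rw [← natCast_zsmul]; rfl
    rw [this]
    exact Submodule.smul_mem_smul (Ideal.mem_span_singleton_self 2) trivial
  obtain ⟨r, hr1, hr⟩ := Submodule.exists_sub_one_mem_and_smul_eq_zero_of_fg_of_le_smul
    (Ideal.span {(2 : ℤ)}) (⊤ : Submodule ℤ N) hfin.fg_top h2
  have hr0 : r ≠ 0 := by
    rintro rfl
    rw [Ideal.mem_span_singleton] at hr1
    norm_num at hr1
  have hex : ∃ e : ℕ, 0 < e ∧ ∀ x : N, e • x = 0 := by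
    refine ⟨r.natAbs, Int.natAbs_pos.2 hr0, fun x => ?_⟩
    have h3 := hr x trivial
    rcases Int.natAbs_eq r with h | h
    · rw [← natCast_zsmul, ← h]; exact h3
    · have h4 : ((r.natAbs : ℤ)) = -r := by omega
      rw [← natCast_zsmul, h4, neg_smul, h3, neg_zero]
  classical
  obtain ⟨he0, he⟩ := Nat.find_spec hex
  set e := Nat.find hex with hedef
  have he1 : e ≠ 1 := by
    intro h1
    rw [h1] at he
    obtain ⟨x, hx⟩ := exists_ne (0 : N)
    exact hx (by have := he x; rwa [one_smul] at this)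
  obtain ⟨p, hp, q, hq⟩ := Nat.exists_prime_and_dvd he1
  have hq0 : 0 < q := by
    rcases Nat.eq_zero_or_pos q with h | h
    · rw [h, mul_zero] at hq; omega
    · exact h
  have hlt : q < e := by
    rw [hq]
    have := hp.two_le
    nlinarith
  apply Nat.find_min hex hlt
  refine ⟨hq0, fun x => ?_⟩
  obtain ⟨y, rfl⟩ := hcon p hp x
  rw [smul_smul, mul_comm, ← hq]
  exact he y

/-- submodules of an abelian group generated by `K` elements -/
lemma gen_sub {M : Type*} [AddCommGroup M] {K : ℕ} (F : Fin K → M)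
    (hF : span ℤ (Set.range F) = ⊤) (T : Submodule ℤ M) :
    ∃ n ≤ K, ∃ F' : Fin n → T, span ℤ (Set.range F') = ⊤ := by
  let f : (Fin K → ℤ) →ₗ[ℤ] M := Fintype.linearCombination ℤ F
  have hf : Function.Surjective f := by
    rw [← LinearMap.range_eq_top, Fintype.range_linearCombination, hF]
  obtain ⟨n, ⟨b⟩⟩ := Submodule.nonempty_basis_of_pid (Pi.basisFun ℤ (Fin K)) (T.comap f)
  have hn : n ≤ K := by
    have h1 := Module.finrank_eq_card_basis b
    have h2 := Submodule.finrank_le (T.comap f)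
    rw [h1, Fintype.card_fin, Module.finrank_fin_fun] at h2
    exact h2
  refine ⟨n, hn, fun i => ⟨f (b i : Fin K → ℤ), (b i).2⟩, ?_⟩
  rw [eq_top_iff]
  rintro ⟨x, hx⟩ _
  obtain ⟨y, rfl⟩ := hf x
  let g : (T.comap f) →ₗ[ℤ] T := f.restrict (fun z hz => hz)
  have h1 : (⟨f y, hx⟩ : T) = g ⟨y, hx⟩ := rfl
  have h2 : (⟨y, hx⟩ : T.comap f) ∈ span ℤ (Set.range b) := by rw [b.span_eq]; trivial
  have h3 := Submodule.mem_map_of_mem (f := g) h2
  rw [Submodule.map_span, ← Set.range_comp] at h3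
  rw [h1]
  exact h3

theorem chain_lemma {M : Type*} [AddCommGroup M] {K : ℕ} (F : Fin K → M)
    (hF : span ℤ (Set.range F) = ⊤) (T : ℕ → Submodule ℤ M) (Ti : Submodule ℤ M)
    (hmono : ∀ j, T j ≤ T (j + 1)) (hle : ∀ j, T j ≤ Ti)
    (h : ∀ p : ℕ, p.Prime → ∀ j, (∀ x ∈ T (j + 1), ∃ y ∈ T j, ∃ z ∈ Ti, x = y + p • z) →
      (∀ x ∈ Ti, ∃ y ∈ T j, ∃ z ∈ Ti, x = y + p • z)) : Ti ≤ T K := by
  by_contra hcon
  obtain ⟨n, hn, F', hF'⟩ := gen_sub F hF Ti
  have hfinT : Module.Finite ℤ Ti := ⟨⟨(Set.finite_range F').toFinset, by simpa using hF'⟩⟩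
  let U : ℕ → Submodule ℤ Ti := fun j => (T j).comap Ti.subtype
  have hUK : U K ≠ ⊤ := by
    intro h1
    apply hcon
    intro x hx
    have : (⟨x, hx⟩ : Ti) ∈ U K := by rw [h1]; trivial
    exact this
  have hnt : Nontrivial (Ti ⧸ U K) := Submodule.Quotient.nontrivial_iff.2 hUK
  obtain ⟨p, hp, x, hx⟩ := exists_prime (N := Ti ⧸ U K)
  have hpf : Fact p.Prime := ⟨hp⟩
  -- the elementary abelian quotient
  let P : Submodule ℤ Ti := LinearMap.range (LinearMap.lsmul ℤ Ti (p : ℤ))
  let V := Ti ⧸ P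
  have hpV : ∀ v : V, p • v = 0 := by
    intro v
    obtain ⟨v, rfl⟩ := Submodule.Quotient.mk_surjective P v
    have : p • (Submodule.Quotient.mk v : V) = Submodule.Quotient.mk (p • v) := rfl
    rw [this, Submodule.Quotient.mk_eq_zero]
    exact ⟨v, by simp⟩
  have hFV : span ℤ (Set.range (fun i => P.mkQ (F' i))) = ⊤ := by
    have h1 : Set.range (fun i => P.mkQ (F' i)) = P.mkQ '' (Set.range F') := by
      rw [← Set.range_comp]; rfl
    rw [h1, ← Submodule.map_span, hF', Submodule.map_top, Submodule.range_mkQ]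
  have hex : ∀ j, (U j).map P.mkQ = ⊤ ↔ ∀ x ∈ Ti, ∃ y ∈ T j, ∃ z ∈ Ti, x = y + p • z := by
    intro j
    constructor
    · intro h1 x hx
      have h2 : P.mkQ ⟨x, hx⟩ ∈ (U j).map P.mkQ := by rw [h1]; trivial
      obtain ⟨y, hy, he⟩ := h2
      rw [← sub_eq_zero, ← map_sub, Submodule.mkQ_apply, Submodule.Quotient.mk_eq_zero] at he
      obtain ⟨z, hz⟩ := he
      refine ⟨y, hy, -(z : M), neg_mem z.2, ?_⟩
      have h3 := congrArg Subtype.val hz
      have h4 : (p : ℤ) • (z : M) = y - x := h3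
      rw [smul_neg, ← natCast_zsmul, h4]
      abel
    · intro h1
      rw [eq_top_iff]
      intro v _
      obtain ⟨v, rfl⟩ := Submodule.Quotient.mk_surjective P v
      obtain ⟨y, hy, z, hz, he⟩ := h1 v v.2
      refine ⟨⟨y, hle j hy⟩, hy, ?_⟩
      rw [← sub_eq_zero]
      show P.mkQ _ - P.mkQ v = 0
      rw [← map_sub, Submodule.mkQ_apply, Submodule.Quotient.mk_eq_zero]
      refine ⟨-⟨z, hz⟩, Subtype.ext ?_⟩
      show (p : ℤ) • (-z) = y - v
      rw [he, smul_neg, ← natCast_zsmul]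
      abel
  have hK : (U K).map P.mkQ ≠ ⊤ := by
    intro h1
    obtain ⟨x, rfl⟩ := Submodule.Quotient.mk_surjective _ x
    obtain ⟨y, hy, z, hz, he⟩ := (hex K).1 h1 x x.2
    apply hx (Submodule.Quotient.mk ⟨z, hz⟩)
    rw [← sub_eq_zero]
    have : p • (Submodule.Quotient.mk ⟨z, hz⟩ : Ti ⧸ U K) - Submodule.Quotient.mk x =
      Submodule.Quotient.mk (p • ⟨z, hz⟩ - x) := rfl
    rw [this, Submodule.Quotient.mk_eq_zero]
    show ((p • (⟨z, hz⟩ : Ti) - x : Ti) : M) ∈ T K
    have h5 : ((p • (⟨z, hz⟩ : Ti) - x : Ti) : M) = -y := by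
      show p • z - (x : M) = -y
      rw [he]; abel
    rw [h5]; exact neg_mem hy
  have hmonoU : ∀ j, (U j).map P.mkQ ≤ (U (j + 1)).map P.mkQ := fun j =>
    Submodule.map_mono (Submodule.comap_mono (hmono j))
  have hmono2 : ∀ {i j : ℕ}, i ≤ j → (U i).map P.mkQ ≤ (U j).map P.mkQ := by
    intro i j hij
    induction hij with
    | refl => exact le_rfl
    | step _ ih => exact ih.trans (hmonoU _)
  let _inst : Module (ZMod p) V := AddCommGroup.zmodModule hpV
  refine chain_bound (p := p) (fun i => P.mkQ (F' i)) hFV hn (fun j => (U j).map P.mkQ) ?_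
    (lt_top_iff_ne_top.2 hK)
  intro j hj
  refine lt_of_le_of_ne (hmonoU j) (fun heq => hK ?_)
  -- if the chain stops, it is everything
  have h1 : ∀ x ∈ Ti, ∃ y ∈ T j, ∃ z ∈ Ti, x = y + p • z := by
    apply h p hp j
    intro x hx
    have hxi : x ∈ Ti := hle _ hx
    have h2 : P.mkQ ⟨x, hxi⟩ ∈ (U j).map P.mkQ := by
      have heq' : (U j).map P.mkQ = (U (j + 1)).map P.mkQ := heq
      rw [heq']
      exact ⟨⟨x, hxi⟩, hx, rfl⟩
    obtain ⟨y, hy, he⟩ := h2
    rw [← sub_eq_zero, ← map_sub, Submodule.mkQ_apply, Submodule.Quotient.mk_eq_zero] at he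
    obtain ⟨z, hz⟩ := he
    refine ⟨y, hy, -(z : M), neg_mem z.2, ?_⟩
    have h3 := congrArg Subtype.val hz
    have h4 : (p : ℤ) • (z : M) = y - x := h3
    rw [smul_neg, ← natCast_zsmul, h4]
    abel
  have h2 := (hex j).2 h1
  exact top_le_iff.1 (h2 ▸ hmono2 hj.le)

end Pool.Agent.H342.LD
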