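import Pool.Agent.H342.LD.Rank
import Pool.Agent.H342.LD.Gen

/-! Helper file (helper342): conjugates by short words, derived factors with few generators. -/

set_option autoImplicit false

namespace Pool.Agent.H342.LD

open Subgroup
open Pool.Agent.H785R3.GrowthA
open Pool.Agent.H746UG (val el val_inj val_add val_zero val_neg val_sub val_el val_mem)
open scoped Pointwise commutatorElement IsMulCommutative

universe u

variable {G : Type u} [Group G]

/-- all conjugates -/
def cja (X : Set G) (c : G) : Set G := {g | ∃ n : ℕ, ∃ w ∈ X ^ n, g = w * c * w⁻¹}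

lemma cj_sub_cja (X : Set G) (c : G) (j : ℕ) : cj X c j ⊆ cja X c := by
  rintro _ ⟨l, _, w, hw, rfl⟩
  exact ⟨l, w, hw, rfl⟩

lemma conj_closure_cja {X : Set G} {c : G} {x : G} (hx : x ∈ X) {p : G}
    (hp : p ∈ closure (cja X c)) : x * p * x⁻¹ ∈ closure (cja X c) := by
  have h1 := mem_map_of_mem (MulAut.conj x).toMonoidHom hp
  rw [MonoidHom.map_closure] at h1
  refine Subgroup.closure_mono ?_ h1
  rintro _ ⟨_, ⟨l, w, hw, rfl⟩, rfl⟩
  refine ⟨l + 1, x * w, ?_, ?_⟩
  · rw [pow_succ']; exact Set.mul_mem_mul hx hw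
  · show x * (w * c * w⁻¹) * x⁻¹ = x * w * c * (x * w)⁻¹
    group

lemma val_nsmul' {A : Subgroup G} [A.Normal] [IsMulCommutative A] (n : ℕ) (a : Additive A) :
    val A (n • a) = (val A a) ^ n := by
  induction n with
  | zero => rw [zero_smul, pow_zero, val_zero]
  | succ n ih => rw [succ_nsmul, val_add, ih, pow_succ]

/-- the submodule attached to a subgroup -/
def subm (A : Subgroup G) [A.Normal] [IsMulCommutative A] (H : Subgroup G) :
    Submodule ℤ (Additive A) :=
  AddSubgroup.toIntSubmodule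
    { carrier := {m | val A m ∈ H}
      add_mem' := by
        intro a b ha hb
        show val A (a + b) ∈ H
        rw [val_add]; exact mul_mem ha hb
      zero_mem' := by
        show val A 0 ∈ H
        rw [val_zero]; exact one_mem _
      neg_mem' := by
        intro a ha
        show val A (-a) ∈ H
        rw [val_neg]; exact inv_mem ha }

lemma mem_subm {A : Subgroup G} [A.Normal] [IsMulCommutative A] {H : Subgroup G} {m : Additive A} :
    m ∈ subm A H ↔ val A m ∈ H := Iff.rfl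

theorem level {B B' : Subgroup G} [hBn : B.Normal] [hB'n : B'.Normal] (hB'B : B' ≤ B)
    (hab : ⁅B, B⁆ ≤ B') {K : ℕ} (F : Fin K → G) (hF : closure (Set.range F) ⊔ B' = B)
    (X : Set G) (c : G) (p0 : ℕ)
    (h : ∀ n : ℕ, ∀ w ∈ X ^ n, w * c * w⁻¹ ∈ closure (cj X c p0) ⊔ B) :
    ∀ n : ℕ, ∀ w ∈ X ^ n, w * c * w⁻¹ ∈ closure (cj X c (p0 + K)) ⊔ B' := by
  classical
  set π := QuotientGroup.mk' B' with hπ
  have hsurj : Function.Surjective π := QuotientGroup.mk'_surjective B'
  have hcomm : ∀ a ∈ B, ∀ b ∈ B, π a * π b = π b * π a := by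
    intro a ha b hb
    have h1 : ⁅a, b⁆ ∈ B' := hab (commutator_mem_commutator ha hb)
    have h2 : π ⁅a, b⁆ = 1 := (QuotientGroup.eq_one_iff _).2 h1
    rw [commutatorElement_def, map_mul, map_mul, map_mul, map_inv, map_inv, mul_inv_eq_one,
      mul_inv_eq_iff_eq_mul] at h2
    exact h2
  have hAn : (B.map π).Normal := hBn.map _ hsurj
  have hAc : IsMulCommutative (B.map π) := by
    refine ⟨⟨?_⟩⟩
    rintro ⟨_, a, ha, rfl⟩ ⟨_, b, hb, rfl⟩
    exact Subtype.ext (hcomm a ha b hb)
  set A := B.map π with hA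
  have hmemB : ∀ {g : G}, π g ∈ A → g ∈ B := by
    rintro g ⟨b, hb, he⟩
    have h1 : b⁻¹ * g ∈ B' := QuotientGroup.eq.1 he
    have h2 : g = b * (b⁻¹ * g) := by group
    rw [h2]; exact mul_mem hb (hB'B h1)
  have heqB' : ∀ {g g' : G}, π g = π g' → g⁻¹ * g' ∈ B' := fun he => QuotientGroup.eq.1 he
  set P : ℕ → Subgroup G := fun j => closure (cj X c (p0 + j)) with hP
  set Pi : Subgroup G := closure (cja X c) with hPi
  have hPPi : ∀ j, P j ≤ Pi := fun j => Subgroup.closure_mono (cj_sub_cja X c _)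
  have hPmono : ∀ {i j : ℕ}, i ≤ j → P i ≤ P j := fun hij =>
    Subgroup.closure_mono (cj_mono X c (by omega))
  have hPi0 : Pi ≤ P 0 ⊔ B := by
    rw [hPi, closure_le]
    rintro _ ⟨n, w, hw, rfl⟩
    exact h n w hw
  have hxP : ∀ x ∈ X, ∀ j, ∀ q ∈ P j, x * q * x⁻¹ ∈ P (j + 1) :=
    fun x hx j q hq => conj_closure_cj hx hq
  let T : ℕ → Submodule ℤ (Additive A) := fun j => subm A ((P j ⊓ B).map π)
  let Ti : Submodule ℤ (Additive A) := subm A ((Pi ⊓ B).map π)
  -- generators
  have hFB : ∀ i, F i ∈ B := by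
    intro i
    rw [← hF]
    exact mem_sup_left (subset_closure ⟨i, rfl⟩)
  have hFspan : Submodule.span ℤ (Set.range (fun i => el A (π (F i)) (mem_map_of_mem _ (hFB i)))) =
      ⊤ := by
    rw [eq_top_iff]
    intro m _
    obtain ⟨b, hb, hbm⟩ := val_mem m
    set Sp := Submodule.span ℤ (Set.range (fun i => el A (π (F i)) (mem_map_of_mem _ (hFB i))))
      with hSp
    have h1 : closure (Set.range F) ⊔ B' ≤ (valSub A Sp).comap π := by
      refine sup_le ?_ ?_
      · rw [closure_le]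
        rintro _ ⟨i, rfl⟩
        exact ⟨_, Submodule.subset_span ⟨i, rfl⟩, val_el _ _⟩
      · intro b' hb'
        refine ⟨0, zero_mem _, ?_⟩
        rw [val_zero]
        exact ((QuotientGroup.eq_one_iff b').2 hb').symm
    rw [hF] at h1
    obtain ⟨m', hm', he⟩ := h1 hb
    have : m' = m := val_inj (he.trans hbm)
    rw [← this]; exact hm'
  have hmain : Ti ≤ T K := by
    refine chain_lemma _ hFspan T Ti ?_ ?_ ?_
    · intro j m hm
      exact map_mono (inf_le_inf_right B (hPmono (Nat.le_succ j))) hm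
    · intro j m hm
      exact map_mono (inf_le_inf_right B (hPPi j)) hm
    · intro p hp j hyp
      -- translate to the group
      have hyp' : ∀ q ∈ P (j + 1), q ∈ B → ∃ y ∈ P j ⊓ B, ∃ z ∈ Pi ⊓ B, π q = π y * π z ^ p := by
        intro q hq hqB
        have h1 : el A (π q) (mem_map_of_mem _ hqB) ∈ T (j + 1) := ⟨q, ⟨hq, hqB⟩, rfl⟩
        obtain ⟨y, hy, z, hz, he⟩ := hyp _ h1
        obtain ⟨y', hy', hye⟩ := hy
        obtain ⟨z', hz', hze⟩ := hz
        refine ⟨y', hy', z', hz', ?_⟩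
        have h2 := congrArg (val A) he
        rw [val_el, val_add, val_nsmul'] at h2
        rw [h2, hye, hze]
      let W : Subgroup G :=
        { carrier := {g | ∃ y ∈ P j ⊓ B, ∃ z ∈ Pi ⊓ B, π g = π y * π z ^ p}
          mul_mem' := by
            rintro g g' ⟨y, hy, z, hz, he⟩ ⟨y', hy', z', hz', he'⟩
            refine ⟨y * y', mul_mem hy hy', z * z', mul_mem hz hz', ?_⟩
            have hzz : Commute (π z) (π z') := hcomm z hz.2 z' hz'.2
            have hzy : Commute (π z) (π y') := hcomm z hz.2 y' hy'.2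
            rw [map_mul, he, he', map_mul, map_mul, hzz.mul_pow]
            have h3 := (hzy.pow_left p).eq
            calc π y * π z ^ p * (π y' * π z' ^ p) = π y * (π z ^ p * π y') * π z' ^ p := by group
              _ = π y * (π y' * π z ^ p) * π z' ^ p := by rw [h3]
              _ = π y * π y' * (π z ^ p * π z' ^ p) := by group
          one_mem' := ⟨1, one_mem _, 1, one_mem _, by simp⟩
          inv_mem' := by
            rintro g ⟨y, hy, z, hz, he⟩
            refine ⟨y⁻¹, inv_mem hy, z⁻¹, inv_mem hz, ?_⟩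
            have hzy : Commute (π z) (π y) := hcomm z hz.2 y hy.2
            rw [map_inv, he, mul_inv_rev, map_inv, map_inv, inv_pow]
            exact ((hzy.pow_left p).inv_inv).eq }
      have hWB : W ≤ B := by
        rintro g ⟨y, hy, z, hz, he⟩
        apply hmemB
        rw [he, ← map_pow, ← map_mul]
        exact mem_map_of_mem _ (mul_mem hy.2 (pow_mem hz.2 p))
      have hyW : ∀ y ∈ P j ⊓ B, y ∈ W := fun y hy => ⟨y, hy, 1, one_mem _, by simp⟩
      have hPW : ∀ q ∈ P (j + 1), q ∈ B → q ∈ W := fun q hq hqB => hyp' q hq hqB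
      -- `P j` normalizes `W`
      have hnorm : ∀ q ∈ P j, ∀ w ∈ W, q * w * q⁻¹ ∈ W := by
        rintro q hq w ⟨y, hy, z, hz, he⟩
        have hq' : q ∈ Pi := hPPi j hq
        refine ⟨q * y * q⁻¹, ⟨(P j).mul_mem ((P j).mul_mem hq hy.1) ((P j).inv_mem hq),
          hBn.conj_mem y hy.2 q⟩,
          q * z * q⁻¹, ⟨Pi.mul_mem (Pi.mul_mem hq' hz.1) (Pi.inv_mem hq'),
            hBn.conj_mem z hz.2 q⟩, ?_⟩
        rw [map_mul, map_mul, he]
        have h3 : π (q * z * q⁻¹) ^ p = π q * π z ^ p * π q⁻¹ := by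
          rw [map_mul, map_mul, map_inv, conj_pow]
        rw [h3, map_mul, map_mul, map_inv]
        group
      let Z : Subgroup G :=
        { carrier := {g | ∃ q ∈ P j, ∃ w ∈ W, g = q * w}
          mul_mem' := by
            rintro _ _ ⟨q, hq, w, hw, rfl⟩ ⟨q', hq', w', hw', rfl⟩
            refine ⟨q * q', mul_mem hq hq', q'⁻¹ * w * q'⁻¹⁻¹ * w',
              mul_mem (hnorm _ (inv_mem hq') _ hw) hw', by group⟩
          one_mem' := ⟨1, one_mem _, 1, one_mem _, by simp⟩
          inv_mem' := by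
            rintro _ ⟨q, hq, w, hw, rfl⟩
            exact ⟨q⁻¹, inv_mem hq, q * w⁻¹ * q⁻¹, hnorm _ hq _ (inv_mem hw), by group⟩ }
      have hPZ : ∀ q ∈ P (j + 1), q ∈ Z := by
        intro q hq
        obtain ⟨q1, hq1, b, hb, he⟩ :=
          Subgroup.mem_sup_of_normal_right.1 (hPi0 (hPPi (j + 1) hq))
        have hq1' : q1 ∈ P (j + 1) := hPmono (Nat.zero_le _) hq1
        refine ⟨q1, hPmono (Nat.zero_le _) hq1, b, hPW b ?_ hb, he.symm⟩
        have : b = q1⁻¹ * q := by rw [← he]; group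
        rw [this]; exact mul_mem (inv_mem hq1') hq
      have hWZ : ∀ w ∈ W, w ∈ Z := fun w hw => ⟨1, one_mem _, w, hw, by simp⟩
      have hxZ : ∀ x ∈ X, ∀ g ∈ Z, x * g * x⁻¹ ∈ Z := by
        rintro x hx _ ⟨q, hq, w, ⟨y, hy, z, hz, he⟩, rfl⟩
        have e : x * (q * w) * x⁻¹ = (x * q * x⁻¹) * (x * w * x⁻¹) := by group
        rw [e]
        refine mul_mem (hPZ _ (hxP x hx j q hq)) (hWZ _ ?_)
        -- `x w x⁻¹` is in `W`
        have h1 : x * y * x⁻¹ ∈ W := hPW _ (hxP x hx j y hy.1) (hBn.conj_mem y hy.2 x)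
        have h2 : (x * z * x⁻¹) ^ p ∈ W := by
          refine ⟨1, one_mem _, x * z * x⁻¹, ⟨conj_closure_cja hx hz.1, hBn.conj_mem z hz.2 x⟩, ?_⟩
          rw [map_one, one_mul, map_pow]
        have h3 := mul_mem h1 h2
        obtain ⟨y', hy', z', hz', he'⟩ := h3
        refine ⟨y', hy', z', hz', ?_⟩
        rw [← he', map_mul, map_mul π (x * y * x⁻¹), map_pow]
        have h4 : π (x * z * x⁻¹) ^ p = π x * π z ^ p * π x⁻¹ := by
          rw [map_mul, map_mul, map_inv, conj_pow]
        rw [h4, map_mul π x w, he, map_mul, map_mul, map_inv]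
        group
      have hcZ : ∀ n : ℕ, ∀ w ∈ X ^ n, w * c * w⁻¹ ∈ Z := by
        intro n
        induction n with
        | zero =>
          intro w hw
          rw [pow_zero, Set.mem_one] at hw
          subst hw
          refine ⟨c, subset_closure (self_mem_cj X c _), 1, one_mem _, by simp⟩
        | succ n ih =>
          intro w hw
          rw [pow_succ'] at hw
          obtain ⟨x, hx, w', hw', rfl⟩ := hw
          have := hxZ x hx _ (ih w' hw')
          have e : (x * w') * c * (x * w')⁻¹ = x * (w' * c * w'⁻¹) * x⁻¹ := by group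
          show (x * w') * c * (x * w')⁻¹ ∈ Z
          rw [e]; exact this
      have hPiZ : Pi ≤ Z := by
        rw [hPi, closure_le]
        rintro _ ⟨n, w, hw, rfl⟩
        exact hcZ n w hw
      intro m hm
      obtain ⟨b, hb, hbm⟩ := hm
      obtain ⟨q, hq, w, ⟨y, hy, z, hz, he⟩, hbw⟩ := hPiZ hb.1
      have hw' : w ∈ B := hWB ⟨y, hy, z, hz, he⟩
      have hqB : q ∈ B := by
        have : q = b * w⁻¹ := by rw [hbw]; group
        rw [this]; exact mul_mem hb.2 (inv_mem hw')
      refine ⟨el A (π (q * y)) (mem_map_of_mem _ (mul_mem hqB hy.2)),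
        ⟨q * y, ⟨mul_mem hq hy.1, mul_mem hqB hy.2⟩, rfl⟩,
        el A (π z) (mem_map_of_mem _ hz.2), ⟨z, hz, rfl⟩, ?_⟩
      apply val_inj
      rw [val_add, val_nsmul', val_el, val_el, ← hbm, hbw, map_mul, he, map_mul, mul_assoc]
  -- conclusion
  intro n w hw
  have hg : w * c * w⁻¹ ∈ Pi := subset_closure ⟨n, w, hw, rfl⟩
  obtain ⟨q, hq, b, hb, he⟩ := Subgroup.mem_sup_of_normal_right.1 (hPi0 hg)
  have hbPi : b ∈ Pi := by
    have : b = q⁻¹ * (w * c * w⁻¹) := by rw [← he]; group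
    rw [this]; exact mul_mem (inv_mem (hPPi 0 hq)) hg
  have h1 : el A (π b) (mem_map_of_mem _ hb) ∈ T K := hmain ⟨b, ⟨hbPi, hb⟩, rfl⟩
  obtain ⟨b', hb', he'⟩ := h1
  have h2 : b'⁻¹ * b ∈ B' := heqB' he'
  have h3 : w * c * w⁻¹ = q * b' * (b'⁻¹ * b) := by rw [← he]; group
  rw [h3]
  exact mul_mem (mem_sup_left (mul_mem (hPmono (Nat.zero_le _) hq) hb'.1)) (mem_sup_right h2)

end Pool.Agent.H342.LD
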