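import Pool.Agent.H342.LD.Gen

/-! Helper file (helper342): the fixed point argument. -/

set_option autoImplicit false

namespace Pool.Agent.H342.LD

open Subgroup Polynomial
open Pool.Agent.H785R3.GrowthA
open Pool.Agent.H648R4 (it it_mono it_add it_succ')
open scoped Pointwise commutatorElement IsMulCommutative

universe u

/-- a finitely generated group has a subgroup of finite index inside all the subgroups of small
index -/
theorem fin_index (Q : Type u) [Group Q] [hfg : Group.FG Q] (j : ℕ) :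
    ∃ K : Subgroup Q, K.FiniteIndex ∧ ∀ L : Subgroup Q, L.index ≠ 0 → L.index ≤ j → K ≤ L := by
  classical
  obtain ⟨T, hT⟩ := hfg.out
  have hfin : ∀ i : ℕ, Finite (Q →* Equiv.Perm (Fin i)) := by
    intro i
    refine Finite.of_injective
      (fun (f : Q →* Equiv.Perm (Fin i)) => (fun t : T => f t)) ?_
    intro f g hfg'
    apply MonoidHom.eq_of_eqOn_dense hT
    intro t ht
    exact congrFun hfg' ⟨t, ht⟩
  refine ⟨⨅ p : (Σ i : Fin (j + 1), (Q →* Equiv.Perm (Fin i))), p.2.ker, ?_, ?_⟩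
  · exact Subgroup.finiteIndex_iInf (fun p => inferInstance)
  · intro L hL hLj
    have hfq : Finite (Q ⧸ L) := (Nat.card_pos_iff.1 (Nat.pos_of_ne_zero hL)).2
    have hcard : Nat.card (Q ⧸ L) = L.index := rfl
    let e : (Q ⧸ L) ≃ Fin L.index := Finite.equivFinOfCardEq hcard
    let φ : Q →* Equiv.Perm (Fin L.index) :=
      (Equiv.permCongrHom e).toMonoidHom.comp (MulAction.toPermHom Q (Q ⧸ L))
    intro q hq
    rw [Subgroup.mem_iInf] at hq
    have h1 := hq ⟨⟨L.index, by omega⟩, φ⟩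
    have h2 : MulAction.toPermHom Q (Q ⧸ L) q = 1 := by
      have h3 : (Equiv.permCongrHom e) (MulAction.toPermHom Q (Q ⧸ L) q) = 1 := h1
      exact (Equiv.permCongrHom e).map_eq_one_iff.1 h3
    have h4 : q • (QuotientGroup.mk 1 : Q ⧸ L) = QuotientGroup.mk 1 := by
      have := congrArg (fun f : Equiv.Perm (Q ⧸ L) => f (QuotientGroup.mk 1)) h2
      exact this
    have h5 : (QuotientGroup.mk (q * 1) : Q ⧸ L) = QuotientGroup.mk 1 := h4
    rw [mul_one] at h5
    have h6 := QuotientGroup.eq.1 h5.symm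
    simpa using h6

/-- the relative version -/
theorem fin_index_rel {G : Type u} [Group G] (Γ : Subgroup G) (hfg : Γ.FG) (j : ℕ) :
    ∃ K : Subgroup G, K ≤ Γ ∧ K.relIndex Γ ≠ 0 ∧
      ∀ L : Subgroup G, L.relIndex Γ ≠ 0 → L.relIndex Γ ≤ j → K ≤ L := by
  have hfg' : Group.FG Γ := (Group.fg_iff_subgroup_fg Γ).2 hfg
  obtain ⟨K, hK, h⟩ := fin_index Γ j
  refine ⟨K.map Γ.subtype, ?_, ?_, ?_⟩
  · rintro _ ⟨k, _, rfl⟩; exact k.2
  · have : (K.map Γ.subtype).relIndex Γ = K.index := by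
      rw [Subgroup.relIndex, Subgroup.subgroupOf, Subgroup.comap_map_eq_self_of_injective
        Γ.subtype_injective]
    rw [this]; exact hK.index_ne_zero
  · intro L h1 h2
    rintro _ ⟨k, hk, rfl⟩
    exact h (L.subgroupOf Γ) h1 h2 hk

section

variable {G : Type u} [Group G]

lemma relIndex_sup_normal {A L K : Subgroup G} [A.Normal] (h : A ≤ L) :
    L.relIndex (K ⊔ A) = L.relIndex K := by
  have h1 : L = (L.map (QuotientGroup.mk' A)).comap (QuotientGroup.mk' A) := by
    rw [Subgroup.comap_map_eq, QuotientGroup.ker_mk', sup_eq_left.2 h]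
  rw [h1, Subgroup.relIndex_comap, Subgroup.relIndex_comap, Subgroup.map_sup]
  have h2 : A.map (QuotientGroup.mk' A) = ⊥ := by
    rw [Subgroup.map_eq_bot_iff, QuotientGroup.ker_mk']
  rw [h2, sup_bot_eq]

lemma it_mono_left {T T' A : Subgroup G} (h : T ≤ T') (k : ℕ) : it T A k ≤ it T' A k := by
  induction k with
  | zero => exact le_rfl
  | succ k ih => exact commutator_mono ih h

lemma it_map {H : Type u} [Group H] (f : G →* H) (T A : Subgroup G) (k : ℕ) :
    (it T A k).map f = it (T.map f) (A.map f) k := by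
  induction k with
  | zero => rfl
  | succ k ih => rw [it, it, Subgroup.map_commutator, ih]

set_option linter.unusedSectionVars false

variable {A : Subgroup G} [hAn : A.Normal]

lemma it_le_normal {X : Subgroup G} (T : Subgroup G) (hX : X ≤ A) (k : ℕ) : it T X k ≤ A := by
  induction k with
  | zero => exact hX
  | succ k ih => exact (commutator_mono ih le_top).trans (commutator_le_left _ _)

variable (hA : IsMulCommutative A)
include hA

lemma acomm {a b : G} (ha : a ∈ A) (hb : b ∈ A) : a * b = b * a :=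
  congrArg Subtype.val (hA.is_comm.comm ⟨a, ha⟩ ⟨b, hb⟩)

/-- `A` acts trivially -/
lemma comm_sup_abel {X K : Subgroup G} (hX : X ≤ A) : ⁅X, K ⊔ A⁆ ≤ ⁅X, K⁆ := by
  rw [commutator_le]
  intro x hx g hg
  obtain ⟨k, hk, a, ha, rfl⟩ := Subgroup.mem_sup_of_normal_right.1 hg
  have e : ⁅x, k * a⁆ = ⁅x, k⁆ := by
    have h1 : x * k * a * x⁻¹ = x * k * (x⁻¹ * a) := by
      rw [acomm hA (inv_mem (hX hx)) ha]; group
    rw [commutatorElement_def, commutatorElement_def]
    calc x * (k * a) * x⁻¹ * (k * a)⁻¹ = x * k * a * x⁻¹ * (k * a)⁻¹ := by group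
      _ = x * k * (x⁻¹ * a) * (k * a)⁻¹ := by rw [h1]
      _ = x * k * x⁻¹ * k⁻¹ := by group
  rw [e]; exact commutator_mem_commutator hx hk

lemma it_sup_abel {X K : Subgroup G} (hX : X ≤ A) (n : ℕ) : it (K ⊔ A) X n ≤ it K X n := by
  induction n with
  | zero => exact le_rfl
  | succ n ih =>
    exact (commutator_mono ih le_rfl).trans (comm_sup_abel hA (it_le_normal K hX n))

lemma comm_iSup_abel {ι : Sort*} {X : ι → Subgroup G} {K : Subgroup G} (hX : ∀ i, X i ≤ A) :
    ⁅⨆ i, X i, K⁆ ≤ ⨆ i, ⁅X i, K⁆ := by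
  rw [commutator_le]
  intro x hx y hy
  have hT : (⨆ i, ⁅X i, K⁆) ≤ A := iSup_le (fun i =>
    (commutator_mono (hX i) le_top).trans (commutator_le_left _ _))
  let St : Subgroup G :=
    { carrier := {x | x ∈ A ∧ ⁅x, y⁆ ∈ ⨆ i, ⁅X i, K⁆}
      mul_mem' := by
        rintro a c ⟨ha, ha'⟩ ⟨hc, hc'⟩
        refine ⟨mul_mem ha hc, ?_⟩
        have e : ⁅a * c, y⁆ = ⁅c, y⁆ * ⁅a, y⁆ := by
          have h1 : ⁅a * c, y⁆ = (a * ⁅c, y⁆) * a⁻¹ * ⁅a, y⁆ := by
            simp only [commutatorElement_def]; group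
          rw [h1, acomm hA ha (hT hc')]; group
        rw [e]; exact mul_mem hc' ha'
      one_mem' := ⟨one_mem _, by rw [commutatorElement_one_left]; exact one_mem _⟩
      inv_mem' := by
        rintro a ⟨ha, ha'⟩
        refine ⟨inv_mem ha, ?_⟩
        have e : ⁅a⁻¹, y⁆ = ⁅a, y⁆⁻¹ := by
          have h1 : ⁅a⁻¹, y⁆ = (a⁻¹ * ⁅a, y⁆⁻¹) * a := by
            simp only [commutatorElement_def]; group
          rw [h1, acomm hA (inv_mem ha) (hT (inv_mem ha'))]; group
        rw [e]; exact inv_mem ha' }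
  have h3 : ⨆ i, X i ≤ St := iSup_le (fun i a ha => ⟨hX i ha,
    (le_iSup (fun i => ⁅X i, K⁆) i) (commutator_mem_commutator ha hy)⟩)
  exact (h3 hx).2

lemma it_iSup_abel {ι : Sort*} {X : ι → Subgroup G} {K : Subgroup G} (hX : ∀ i, X i ≤ A)
    (n : ℕ) : it K (⨆ i, X i) n ≤ ⨆ i, it K (X i) n := by
  induction n with
  | zero => exact le_rfl
  | succ n ih =>
    exact (commutator_mono ih le_rfl).trans (comm_iSup_abel hA (fun i => it_le_normal K (hX i) n))

/-- **the fixed point argument** -/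
theorem fp_abel {S : Set G} (hgen : closure S = ⊤) (hsym : S⁻¹ = S)
    {Γ Γp : Subgroup G} (hfg : Γ.FG) (hle : Γ ≤ Γp) (hΓp : Γp ≤ Γ ⊔ A)
    (hS : ∀ x ∈ S, ∀ γ ∈ Γ, x * γ * x⁻¹ ∈ Γp)
    {N : Subgroup G} (hNn : ∀ g ∈ Γp, ∀ n ∈ N, g * n * g⁻¹ ∈ N)
    (hNi : N.relIndex Γp ≠ 0) {k : ℕ} (hk : N.lowerCentralSeries k = ⊥) :
    ∃ N' : Subgroup G, A ≤ N' ∧ N' ≤ Γ ⊔ A ∧ N'.relIndex (Γ ⊔ A) ≠ 0 ∧
      ∃ m, N'.lowerCentralSeries m = ⊥ := by
  classical
  set X0 := Γp ⊓ A with hX0
  have hX0A : X0 ≤ A := inf_le_right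
  set X : G → Subgroup G := fun g => X0.map (MulAut.conj g).toMonoidHom with hX
  have hXA : ∀ g, X g ≤ A := by
    rintro g _ ⟨a, ha, rfl⟩
    exact hAn.conj_mem a ha.2 g
  set U := ⨆ g, X g with hU
  have hUA : U ≤ A := iSup_le hXA
  have hX0U : X0 ≤ U := by
    intro a ha
    exact (le_iSup X 1) ⟨a, ha, by simp⟩
  have hUn : U.Normal := by
    constructor
    intro u hu g
    have h1 : U.map (MulAut.conj g).toMonoidHom ≤ U := by
      rw [hU, Subgroup.map_iSup]
      refine iSup_le (fun h => ?_)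
      refine le_trans ?_ (le_iSup X (g * h))
      rintro _ ⟨_, ⟨a, ha, rfl⟩, rfl⟩
      refine ⟨a, ha, ?_⟩
      show g * h * a * (g * h)⁻¹ = g * (h * a * h⁻¹) * g⁻¹
      group
    exact h1 (mem_map_of_mem _ hu)
  -- `Λ` is normal
  have hpL : Γp ≤ Γ ⊔ U := by
    intro γ hγ
    obtain ⟨γ', hγ', a, ha, rfl⟩ := Subgroup.mem_sup_of_normal_right.1 (hΓp hγ)
    refine mul_mem (mem_sup_left hγ') (mem_sup_right (hX0U ⟨?_, ha⟩))
    have := mul_mem (inv_mem (hle hγ')) hγ
    rwa [inv_mul_cancel_left] at this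
  have hLn : (Γ ⊔ U).Normal := by
    have h1 : ∀ x ∈ S, ∀ l ∈ Γ ⊔ U, x * l * x⁻¹ ∈ Γ ⊔ U := by
      intro x hx l hl
      obtain ⟨γ, hγ, u, hu, rfl⟩ := Subgroup.mem_sup_of_normal_right.1 hl
      have e : x * (γ * u) * x⁻¹ = (x * γ * x⁻¹) * (x * u * x⁻¹) := by group
      rw [e]
      exact mul_mem (hpL (hS x hx γ hγ)) (mem_sup_right (hUn.conj_mem u hu x))
    have h2 : ∀ n : ℕ, ∀ g ∈ S ^ n, ∀ l ∈ Γ ⊔ U, g * l * g⁻¹ ∈ Γ ⊔ U := by
      intro n
      induction n with
      | zero =>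
        intro g hg l hl
        rw [pow_zero, Set.mem_one] at hg
        subst hg
        simpa using hl
      | succ n ih =>
        intro g hg l hl
        rw [pow_succ] at hg
        obtain ⟨a, ha, x, hx, rfl⟩ := hg
        have e : (a * x) * l * (a * x)⁻¹ = a * (x * l * x⁻¹) * a⁻¹ := by group
        show (a * x) * l * (a * x)⁻¹ ∈ _
        rw [e]
        exact ih a ha _ (h1 x hx l hl)
    constructor
    intro l hl g
    obtain ⟨n, hn⟩ := mem_pow_of_closure hsym (by rw [hgen]; exact mem_top g : g ∈ closure S)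
    exact h2 n g hn l hl
  have hGA : Γ ⊔ A = (Γ ⊔ U) ⊔ A := by rw [sup_assoc, sup_eq_right.2 hUA]
  have hGAn : (Γ ⊔ A).Normal := by rw [hGA]; infer_instance
  -- `[A, H] ≤ U`
  have hAH : ⁅A, Γ ⊔ A⁆ ≤ U := by
    rw [hGA]
    refine (comm_sup_abel hA le_rfl).trans ?_
    refine (le_inf (commutator_le_left _ _) (commutator_le_right _ _)).trans ?_
    rintro x ⟨hxA, hxL⟩
    obtain ⟨γ, hγ, u, hu, rfl⟩ := Subgroup.mem_sup_of_normal_right.1 hxL
    refine mul_mem (hX0U ⟨hle hγ, ?_⟩) hu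
    have h1 : γ * u * u⁻¹ ∈ A := A.mul_mem hxA (A.inv_mem (hUA hu))
    rwa [mul_inv_cancel_right] at h1
  -- the index
  have hpA : Γp ⊔ A = Γ ⊔ A := le_antisymm (sup_le hΓp le_sup_right) (sup_le_sup_right hle _)
  have hi1 : (N ⊔ A).relIndex (Γ ⊔ A) ≠ 0 := by
    rw [← hpA, relIndex_sup_normal le_sup_right]
    intro h0
    exact hNi (Subgroup.relIndex_eq_zero_of_le_left le_sup_left h0)
  set j := (N ⊔ A).relIndex (Γ ⊔ A) with hj
  obtain ⟨K, hKΓ, hKi, hK⟩ := fin_index_rel Γ hfg j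
  have hKL : ∀ g : G, K ≤ (N ⊔ A).map (MulAut.conj g).toMonoidHom := by
    intro g
    have h1 : ((N ⊔ A).map (MulAut.conj g).toMonoidHom).relIndex (Γ ⊔ A) = j := by
      have h2 : (Γ ⊔ A).map (MulAut.conj g).toMonoidHom = Γ ⊔ A := by
        apply le_antisymm
        · rintro _ ⟨a, ha, rfl⟩
          exact hGAn.conj_mem a ha g
        · intro a ha
          refine ⟨g⁻¹ * a * g, ?_, ?_⟩
          · have := hGAn.conj_mem a ha g⁻¹
            rwa [inv_inv] at this
          · show g * (g⁻¹ * a * g) * g⁻¹ = a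
            group
      conv_lhs => rw [← h2]
      exact Subgroup.relIndex_map_map_of_injective _ _ (MulAut.conj g).injective
    have h3 : ((N ⊔ A).map (MulAut.conj g).toMonoidHom).relIndex (Γ ⊔ A) ≠ 0 := by
      rw [h1]; exact hi1
    refine hK _ ?_ ?_
    · intro h0
      exact h3 (Subgroup.relIndex_eq_zero_of_le_right le_sup_left h0)
    · rw [← h1]
      exact Subgroup.relIndex_le_of_le_right le_sup_left h3
  -- nilpotency
  have hitN : ∀ i, it N X0 (i + 1) ≤ N.lowerCentralSeries i := by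
    intro i
    induction i with
    | zero =>
      show ⁅X0, N⁆ ≤ N
      rw [commutator_le]
      intro x hx n hn
      rw [commutatorElement_def]
      exact mul_mem (hNn x hx.1 n hn) (inv_mem hn)
    | succ i ih => exact commutator_mono ih le_rfl
  have hitX : ∀ g, it K (X g) (k + 1) = ⊥ := by
    intro g
    rw [eq_bot_iff]
    refine (it_mono_left (hKL g) _).trans ?_
    rw [hX, ← it_map]
    have h1 : it (N ⊔ A) X0 (k + 1) ≤ ⊥ := by
      rw [← hk]
      exact (it_sup_abel hA hX0A _).trans (hitN k)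
    rw [le_bot_iff] at h1
    rw [h1, Subgroup.map_bot]
  have hitU : it K U (k + 1) = ⊥ := by
    rw [eq_bot_iff]
    refine (it_iSup_abel hA hXA _).trans (iSup_le (fun g => ?_))
    rw [hitX g]
  have hKN : K ≤ N ⊔ A := by
    have := hKL 1
    have h1 : (N ⊔ A).map (MulAut.conj (1 : G)).toMonoidHom = N ⊔ A := by
      rw [map_one]
      exact Subgroup.map_id _
    rwa [h1] at this
  have hlcsN : ∀ i, (N ⊔ A).lowerCentralSeries i ≤ N.lowerCentralSeries i ⊔ A := by
    intro i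
    induction i with
    | zero => exact le_rfl
    | succ i ih =>
      show ⁅(N ⊔ A).lowerCentralSeries i, N ⊔ A⁆ ≤ _
      refine (commutator_mono ih le_rfl).trans ?_
      rw [commutator_le]
      intro x hx y hy
      obtain ⟨n, hn, a, ha, rfl⟩ := Subgroup.mem_sup_of_normal_right.1 hx
      obtain ⟨n', hn', a', ha', rfl⟩ := Subgroup.mem_sup_of_normal_right.1 hy
      have e : ⁅n * a, n' * a'⁆ = ⁅n, n'⁆ * ((⁅n, n'⁆⁻¹ * (n * a * (n' * a')) * (n * a)⁻¹ * n'⁻¹) *
          (n' * a'⁻¹ * n'⁻¹)) := by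
        simp only [commutatorElement_def]; group
      have e2 : ⁅n, n'⁆⁻¹ * (n * a * (n' * a')) * (n * a)⁻¹ * n'⁻¹ =
          (n' * n * (n'⁻¹ * a * n' * a') * (n' * n)⁻¹) * ((n' * n) * a⁻¹ * (n' * n)⁻¹) := by
        simp only [commutatorElement_def]; group
      have h1 : ⁅n, n'⁆ ∈ N.lowerCentralSeries (i + 1) := commutator_mem_commutator hn hn'
      rw [e, e2]
      refine mul_mem (mem_sup_left h1) (mem_sup_right (mul_mem (mul_mem (hAn.conj_mem _ (mul_mem ?_ ha') _)
        (hAn.conj_mem _ (inv_mem ha) _)) (hAn.conj_mem _ (inv_mem ha') _)))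
      have := hAn.conj_mem a ha n'⁻¹
      rwa [inv_inv] at this
  refine ⟨K ⊔ A, le_sup_right, sup_le (hKΓ.trans le_sup_left) le_sup_right, ?_, ?_⟩
  · rw [relIndex_sup_normal le_sup_right]
    intro h0
    exact hKi (Subgroup.relIndex_eq_zero_of_le_left le_sup_left h0)
  · have hA1 : (K ⊔ A).lowerCentralSeries k ≤ A := by
      have h1 : ∀ i, (K ⊔ A).lowerCentralSeries i ≤ (N ⊔ A).lowerCentralSeries i := by
        intro i
        induction i with
        | zero => exact sup_le hKN le_sup_right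
        | succ i ih => exact commutator_mono ih (sup_le hKN le_sup_right)
      refine (h1 k).trans ((hlcsN k).trans ?_)
      rw [hk, bot_sup_eq]
    have hU1 : (K ⊔ A).lowerCentralSeries (k + 1) ≤ U :=
      (commutator_mono hA1 (sup_le_sup_right hKΓ A)).trans hAH
    have hit2 : ∀ i, (K ⊔ A).lowerCentralSeries (k + 1 + i) ≤ it (K ⊔ A) U i := by
      intro i
      induction i with
      | zero => exact hU1
      | succ i ih => exact commutator_mono ih le_rfl
    refine ⟨k + 1 + (k + 1), ?_⟩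
    rw [eq_bot_iff, ← hitU]
    exact (hit2 (k + 1)).trans (it_sup_abel hA hUA _)

end

end Pool.Agent.H342.LD
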