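import Pool.Agent.H342.LD.Red

/-! Helper file (helper342): the fixed point argument for nilpotent normal subgroups, short
generating sets of the derived series, and the general theorem. -/

set_option autoImplicit false

namespace Pool.Agent.H342.LD

open Subgroup Polynomial
open Pool.Agent.H785R3.GrowthA
open scoped Pointwise commutatorElement IsMulCommutative

universe u

section VN

variable {G : Type u} [Group G]

lemma vn_sub {N H : Subgroup G} (hi : N.relIndex H ≠ 0) (hn : ∃ m, N.lowerCentralSeries m = ⊥) :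
    Group.IsVirtuallyNilpotent H := by
  obtain ⟨m, hm⟩ := hn
  refine ⟨N.subgroupOf H, (Subgroup.isNilpotent_iff_lowerCentralSeries _).2 ⟨m, ?_⟩, ⟨hi⟩⟩
  have h1 := lcs_map H.subtype (N.subgroupOf H) N (by
    rintro _ ⟨x, hx, rfl⟩; exact hx) m
  rw [hm, le_bot_iff, Subgroup.map_eq_bot_iff_of_injective _ H.subtype_injective] at h1
  exact h1

lemma exists_of_vn {H : Subgroup G} (hv : Group.IsVirtuallyNilpotent H) :
    ∃ N : Subgroup G, N ≤ H ∧ (∀ g ∈ H, ∀ n ∈ N, g * n * g⁻¹ ∈ N) ∧ N.relIndex H ≠ 0 ∧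
      ∃ m, N.lowerCentralSeries m = ⊥ := by
  obtain ⟨N, hN, hNf⟩ := hv
  obtain ⟨n, hn⟩ := (Subgroup.isNilpotent_iff_lowerCentralSeries N).1 hN
  refine ⟨N.normalCore.map H.subtype, ?_, ?_, ?_, n, ?_⟩
  · rintro _ ⟨x, _, rfl⟩; exact x.2
  · rintro g hg _ ⟨x, hx, rfl⟩
    refine ⟨⟨g, hg⟩ * x * ⟨g, hg⟩⁻¹, ?_, rfl⟩
    exact (inferInstance : N.normalCore.Normal).conj_mem x hx _
  · have : (N.normalCore.map H.subtype).relIndex H = N.normalCore.index := by
      rw [Subgroup.relIndex, Subgroup.subgroupOf, Subgroup.comap_map_eq_self_of_injective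
        H.subtype_injective]
    rw [this]; exact FiniteIndex.index_ne_zero
  · rw [← lcs_map_eq]
    have : ∀ i, N.normalCore.lowerCentralSeries i ≤ N.lowerCentralSeries i := by
      intro i
      induction i with
      | zero => exact normalCore_le N
      | succ i ih => exact commutator_mono ih (normalCore_le N)
    have h1 := this n
    rw [hn, le_bot_iff] at h1
    rw [h1, Subgroup.map_bot]

lemma vn_of_le {H K : Subgroup G} (h : H ≤ K) (hv : Group.IsVirtuallyNilpotent K) :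
    Group.IsVirtuallyNilpotent H := by
  obtain ⟨N, _, _, hi, hm⟩ := exists_of_vn hv
  exact vn_sub (fun h0 => hi (Subgroup.relIndex_eq_zero_of_le_right h h0)) hm

/-- virtual nilpotency passes along injective homomorphisms -/
lemma vn_of_inj {H : Type u} [Group H] (f : H →* G) (hf : Function.Injective f)
    (hv : Group.IsVirtuallyNilpotent G) : Group.IsVirtuallyNilpotent H := by
  obtain ⟨N, hN, hNf⟩ := hv
  obtain ⟨n, hn⟩ := (Subgroup.isNilpotent_iff_lowerCentralSeries N).1 hN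
  refine ⟨N.comap f, (Subgroup.isNilpotent_iff_lowerCentralSeries _).2 ⟨n, ?_⟩,
    ⟨by
      rw [Subgroup.index_comap]
      exact fun h0 => hNf.index_ne_zero (Subgroup.index_eq_zero_of_relIndex_eq_zero h0)⟩⟩
  have h1 := lcs_map f (N.comap f) N (map_comap_le _ _) n
  rw [hn, le_bot_iff, Subgroup.map_eq_bot_iff_of_injective _ hf] at h1
  exact h1

lemma hall' {C N : Subgroup G} [C.Normal] (hCN : C ≤ N) {c k : ℕ}
    (hC : C.lowerCentralSeries c = ⊥) (hN : N.lowerCentralSeries k ≤ ⁅C, C⁆) :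
    ∃ m, N.lowerCentralSeries m = ⊥ := by
  have hi := N.subtype_injective
  have e1 : (C.subgroupOf N).map N.subtype = C := by
    rw [Subgroup.subgroupOf_map_subtype, inf_eq_left.2 hCN]
  have e2 : (⊤ : Subgroup N).map N.subtype = N := by
    rw [← MonoidHom.range_eq_map, Subgroup.range_subtype]
  have h1 : (C.subgroupOf N).lowerCentralSeries c = ⊥ := by
    rw [← Subgroup.map_eq_bot_iff_of_injective _ hi, lcs_map_eq, e1, hC]
  have h2 : (⊤ : Subgroup N).lowerCentralSeries k ≤ ⁅C.subgroupOf N, C.subgroupOf N⁆ := by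
    rw [← Subgroup.map_le_map_iff_of_injective hi, lcs_map_eq, e2, Subgroup.map_commutator, e1]
    exact hN
  obtain ⟨m, hm⟩ := H648R4.hall (N := C.subgroupOf N) (H := ⊤) le_top h1 h2
  refine ⟨m, ?_⟩
  rw [← e2, ← lcs_map_eq, hm, Subgroup.map_bot]

/-- **the fixed point argument** for a nilpotent normal subgroup -/
theorem fp (C : Subgroup G) [hCn : C.Normal] (hC : ∃ n, C.lowerCentralSeries n = ⊥)
    {S : Set G} (hgen : closure S = ⊤) (hsym : S⁻¹ = S)
    {Γ Γp : Subgroup G} (hfg : Γ.FG) (hle : Γ ≤ Γp) (hΓp : Γp ≤ Γ ⊔ C)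
    (hS : ∀ x ∈ S, ∀ γ ∈ Γ, x * γ * x⁻¹ ∈ Γp) (hv : Group.IsVirtuallyNilpotent Γp) :
    Group.IsVirtuallyNilpotent (Γ ⊔ C : Subgroup G) := by
  classical
  obtain ⟨N, hNle, hNn, hNi, k, hk⟩ := exists_of_vn hv
  obtain ⟨c, hc⟩ := hC
  set D := ⁅C, C⁆ with hD
  have hDC : D ≤ C := commutator_le_left _ _
  have hsurj := QuotientGroup.mk'_surjective D
  set π := QuotientGroup.mk' D with hπ
  have hAn : (C.map π).Normal := hCn.map _ hsurj
  have hAc : IsMulCommutative (C.map π) := isMulComm_map C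
  have hgen' : closure (π '' S) = ⊤ := by
    rw [← MonoidHom.map_closure, hgen, ← MonoidHom.range_eq_map]
    exact MonoidHom.range_eq_top.2 hsurj
  have hsym' : (π '' S)⁻¹ = π '' S := by
    ext x
    rw [Set.mem_inv]
    constructor
    · rintro ⟨y, hy, he⟩
      refine ⟨y⁻¹, ?_, by rw [map_inv, he, inv_inv]⟩
      rw [← hsym]; simpa using hy
    · rintro ⟨y, hy, rfl⟩
      refine ⟨y⁻¹, ?_, by rw [map_inv]⟩
      rw [← hsym]; simpa using hy
  have hfg' : (Γ.map π).FG := by
    obtain ⟨T, hT⟩ := hfg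
    exact ⟨T.image π, by rw [Finset.coe_image, ← MonoidHom.map_closure, hT]⟩
  obtain ⟨N', hAN, hN'le, hN'i, m, hm⟩ := fp_abel hAc hgen' hsym' (Γ := Γ.map π) (Γp := Γp.map π)
    hfg' (map_mono hle) (by rw [← Subgroup.map_sup]; exact map_mono hΓp)
    (by
      rintro _ ⟨x, hx, rfl⟩ _ ⟨γ, hγ, rfl⟩
      exact ⟨x * γ * x⁻¹, hS x hx γ hγ, by simp only [map_mul, map_inv]⟩)
    (N := N.map π)
    (by
      rintro _ ⟨g, hg, rfl⟩ _ ⟨n, hn, rfl⟩
      exact ⟨g * n * g⁻¹, hNn g hg n hn, by simp only [map_mul, map_inv]⟩)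
    (by
      rw [Subgroup.relIndex_map_map, QuotientGroup.ker_mk', relIndex_sup_normal le_sup_right]
      exact fun h0 => hNi (Subgroup.relIndex_eq_zero_of_le_left le_sup_left h0))
    (k := k) (by rw [← lcs_map_eq, hk, Subgroup.map_bot])
  have hCN : C ≤ N'.comap π := fun a ha => hAN (mem_map_of_mem _ ha)
  have h1 : (N'.comap π).lowerCentralSeries m ≤ ⁅C, C⁆ := by
    intro a ha
    have h2 := lcs_map π (N'.comap π) N' (map_comap_le _ _) m (mem_map_of_mem _ ha)
    rw [hm, mem_bot] at h2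
    exact (QuotientGroup.eq_one_iff a).1 h2
  refine vn_sub (N := N'.comap π) ?_ (hall' hCN hc h1)
  rw [Subgroup.relIndex_comap, Subgroup.map_sup]
  exact hN'i

end VN

end Pool.Agent.H342.LD
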